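import Pool.Agent.Lib.MP_8f66f0_al_ZR.SpecB

/-!
# The adjoint of a left multiplication
-/

set_option autoImplicit false

namespace Pool.Agent.ZR

open Matrix Module

private theorem adj_ext {N : ℕ} {A B : Matrix (Fin N) (Fin N) ℝ}
    (h : ∀ x y : Fin N → ℝ, x ⬝ᵥ (A *ᵥ y) = x ⬝ᵥ (B *ᵥ y)) : A = B := by
  ext i j
  have h1 := h (Pi.single i 1) (Pi.single j 1)
  rw [mulVec_single_one, mulVec_single_one, single_one_dotProduct, single_one_dotProduct] at h1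
  exact h1

private theorem adj_tr {N : ℕ} (M A : Matrix (Fin N) (Fin N) ℝ) (x y : Fin N → ℝ) :
    x ⬝ᵥ ((Mᵀ * A) *ᵥ y) = (M *ᵥ x) ⬝ᵥ (A *ᵥ y) := by
  rw [← mulVec_mulVec, mulVec_transpose, dotProduct_comm, ← dotProduct_mulVec, dotProduct_comm]

theorem tAdj : S_adj := by
  intro N O _ e L A S hL1 hL2 hT hA hS hS2
  have hSS : ∀ z, S *ᵥ (S *ᵥ z) = z := by
    intro z
    rw [mulVec_mulVec, hS, one_mulVec]
  have hAT : ∀ x y : Fin N → ℝ, x ⬝ᵥ (A *ᵥ y) = (L x * L (S *ᵥ y)).trace := by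
    intro x y
    rw [← hA, ← mulVec_mulVec, hT]
  refine ⟨fun z => ?_, fun z => hAT z z⟩
  apply adj_ext
  intro x y
  rw [adj_tr, hL1, hAT, ← mulVec_mulVec, hL1, hAT, hS2, hSS, hL2, hL2, Matrix.mul_assoc,
    Matrix.trace_mul_comm, Matrix.mul_assoc]

end Pool.Agent.ZR
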