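import Pool.Agent.Lib.MP_8f66f0_al_ZR.SpecB

/-!
# PROJECT ZERO, part R: the structure constants of short bases are bounded
-/

set_option autoImplicit false

namespace Pool.Agent.ZR

open Matrix Module

namespace Bsc

/-- The Cauchy-Schwarz inequality for positive definite matrices. -/
private theorem cs {N : ℕ} {A : Matrix (Fin N) (Fin N) ℝ} (hA : A.PosDef) (u v : Fin N → ℝ) :
    (u ⬝ᵥ (A *ᵥ v)) ^ 2 ≤ (u ⬝ᵥ (A *ᵥ u)) * (v ⬝ᵥ (A *ᵥ v)) := by
  have hT : Aᵀ = A := by
    have h := hA.isHermitian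
    unfold Matrix.IsHermitian at h
    rwa [conjTranspose_eq_transpose_of_trivial] at h
  have hsym : v ⬝ᵥ (A *ᵥ u) = u ⬝ᵥ (A *ᵥ v) := by
    rw [dotProduct_mulVec, dotProduct_comm, ← mulVec_transpose, hT]
  have hnn : ∀ z : Fin N → ℝ, 0 ≤ z ⬝ᵥ (A *ᵥ z) := by
    intro z
    have := hA.posSemidef.dotProduct_mulVec_nonneg z
    simpa using this
  have h : ∀ t : ℝ, 0 ≤ (v ⬝ᵥ (A *ᵥ v)) * (t * t) + (2 * (u ⬝ᵥ (A *ᵥ v))) * t +
      u ⬝ᵥ (A *ᵥ u) := by
    intro t
    have h1 := hnn (u + t • v)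
    rw [mulVec_add, mulVec_smul, add_dotProduct, dotProduct_add, dotProduct_add,
      smul_dotProduct, smul_dotProduct, dotProduct_smul, dotProduct_smul, hsym] at h1
    simp only [smul_eq_mul] at h1
    linarith
  have h2 := discrim_le_zero h
  unfold discrim at h2
  nlinarith

variable {O : Type} [Ring O] {N : ℕ} (e : Basis (Fin N) ℤ O)

private theorem bl_sq_le {A : Matrix (Fin N) (Fin N) ℝ} (hA : A.PosDef) (x y : O) :
    bl e A x y ^ 2 ≤ sq e A x * sq e A y := cs hA _ _

/-- The matrix of the basis `b`. -/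
private noncomputable def BM (b : Basis (Fin N) ℤ O) : Matrix (Fin N) (Fin N) ℝ :=
  fun i k => co e (b k) i

private theorem det_BM (b : Basis (Fin N) ℤ O) : (BM e b).det ^ 2 = 1 := by
  have h1 : BM e b = (e.toMatrix b).map (Int.castRingHom ℝ) := rfl
  have h2 : (e.toMatrix b).det * (b.toMatrix e).det = 1 := by
    rw [← det_mul, Basis.toMatrix_mul_toMatrix_flip, det_one]
  have h3 : (e.toMatrix b).det = 1 ∨ (e.toMatrix b).det = -1 :=
    Int.isUnit_iff.1 (IsUnit.of_mul_eq_one _ h2)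
  rw [h1, ← RingHom.mapMatrix_apply, ← RingHom.map_det]
  rcases h3 with h | h <;> rw [h] <;> norm_num

/-- The Gram matrix. -/
private noncomputable def GM (A : Matrix (Fin N) (Fin N) ℝ) (b : Basis (Fin N) ℤ O) :
    Matrix (Fin N) (Fin N) ℝ := fun k l => bl e A (b k) (b l)

private theorem det_GM (A : Matrix (Fin N) (Fin N) ℝ) (b : Basis (Fin N) ℤ O) :
    (GM e A b).det = A.det := by
  have h1 : GM e A b = (BM e b)ᵀ * (A * BM e b) := rfl
  rw [h1, det_mul, det_mul, det_transpose]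
  have h2 := det_BM e b
  linear_combination A.det * h2

private theorem bl_expand (A : Matrix (Fin N) (Fin N) ℝ) (b : Basis (Fin N) ℤ O) (x y : O) :
    bl e A x y = ∑ k, ((b.repr x k : ℤ) : ℝ) * bl e A (b k) y := by
  let φ : O →+ ℝ :=
    { toFun := fun x => bl e A x y
      map_zero' := by
        unfold bl
        rw [co_zero, zero_dotProduct]
      map_add' := fun x z => bl_add_left e A x z y }
  have h1 : bl e A x y = φ (∑ k, b.repr x k • b k) := by
    rw [b.sum_repr]
    rfl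
  rw [h1, map_sum]
  exact Finset.sum_congr rfl fun k _ => bl_zsmul_left e A _ _ _

/-- Cramer's rule. -/
private theorem cramer (A : Matrix (Fin N) (Fin N) ℝ) (b : Basis (Fin N) ℤ O) (x : O)
    (k : Fin N) : ((b.repr x k : ℤ) : ℝ) * A.det =
      ∑ l, bl e A x (b l) * (GM e A b).adjugate l k := by
  have h1 : (fun k => ((b.repr x k : ℤ) : ℝ)) ᵥ* GM e A b = fun l => bl e A x (b l) := by
    funext l
    rw [bl_expand e A b x (b l)]
    rfl
  have h2 : ((fun k => ((b.repr x k : ℤ) : ℝ)) ᵥ* GM e A b) ᵥ* (GM e A b).adjugate =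
      (GM e A b).det • (fun k => ((b.repr x k : ℤ) : ℝ)) := by
    rw [vecMul_vecMul, mul_adjugate, vecMul_smul, vecMul_one]
  rw [h1, det_GM] at h2
  have h3 := congrFun h2 k
  rw [Pi.smul_apply, smul_eq_mul, mul_comm] at h3
  rw [← h3]
  rfl

end Bsc

open Bsc

theorem tBsc : S_bsc := by
  intro N O _ e Y D hY hD R
  let M : ℝ := max R 1
  have hM1 : 1 ≤ M := le_max_right _ _
  have hM0 : 0 ≤ M := le_trans zero_le_one hM1
  let B : ℝ := N * (M ^ 2 * ((Nat.factorial N : ℝ) * M ^ N)) / D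
  refine ⟨⌈B⌉, ?_⟩
  intro A hA b hb i j k
  have hP := hY.pos A hA
  have hbM : ∀ i, sq e A (b i) ≤ M := fun i => (hb i).trans (le_max_left _ _)
  have hnn : ∀ x : O, 0 ≤ sq e A x := fun x => sq_nonneg e hP x
  -- the entries of the Gram matrix
  have hG : ∀ k l, |GM e A b k l| ≤ M := by
    intro k l
    have h1 := bl_sq_le e hP (b k) (b l)
    have h2 : sq e A (b k) * sq e A (b l) ≤ M * M :=
      mul_le_mul (hbM k) (hbM l) (hnn _) hM0
    refine abs_le_of_sq_le_sq ?_ hM0
    calc (GM e A b k l) ^ 2 ≤ sq e A (b k) * sq e A (b l) := h1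
      _ ≤ M * M := h2
      _ = M ^ 2 := by ring
  have hw : ∀ l, |bl e A (b i * b j) (b l)| ≤ M ^ 2 := by
    intro l
    have h1 := bl_sq_le e hP (b i * b j) (b l)
    have h3 : sq e A (b i * b j) ≤ M * M :=
      (hY.mul A hA _ _).trans (mul_le_mul (hbM i) (hbM j) (hnn _) hM0)
    have h2 : sq e A (b i * b j) * sq e A (b l) ≤ (M * M) * M :=
      mul_le_mul h3 (hbM l) (hnn _) (mul_nonneg hM0 hM0)
    refine abs_le_of_sq_le_sq ?_ (by positivity)
    have h4 : M * M * M ≤ (M ^ 2) ^ 2 := by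
      have h5 : (M * M * M) * 1 ≤ (M * M * M) * M :=
        mul_le_mul_of_nonneg_left hM1 (by positivity)
      calc M * M * M = (M * M * M) * 1 := by ring
        _ ≤ (M * M * M) * M := h5
        _ = (M ^ 2) ^ 2 := by ring
    exact h1.trans (h2.trans h4)
  have hadj : ∀ l, |(GM e A b).adjugate l k| ≤ (Nat.factorial N : ℝ) * M ^ N := by
    intro l
    rw [adjugate_apply]
    have h1 := Matrix.det_le (A := (GM e A b).updateRow k (Pi.single l 1))
      (abv := (AbsoluteValue.abs : AbsoluteValue ℝ ℝ)) (x := M) (by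
        intro a c
        rw [updateRow_apply]
        by_cases h : a = k
        · rw [if_pos h]
          change |(Pi.single l (1 : ℝ) : Fin N → ℝ) c| ≤ M
          by_cases hc : c = l
          · subst hc
            rw [Pi.single_eq_same, abs_one]
            exact hM1
          · rw [Pi.single_eq_of_ne hc, abs_zero]
            exact hM0
        · rw [if_neg h]
          exact hG a c)
    rw [Fintype.card_fin, nsmul_eq_mul] at h1
    exact h1
  have hc := cramer e A b (b i * b j) k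
  rw [hY.det A hA] at hc
  have h1 : |((b.repr (b i * b j) k : ℤ) : ℝ)| * D ≤
      N * (M ^ 2 * ((Nat.factorial N : ℝ) * M ^ N)) := by
    have h2 : |((b.repr (b i * b j) k : ℤ) : ℝ)| * D =
        |((b.repr (b i * b j) k : ℤ) : ℝ) * D| := by
      rw [abs_mul, abs_of_pos hD]
    rw [h2, hc]
    refine (Finset.abs_sum_le_sum_abs _ _).trans ?_
    have h3 : ∀ l ∈ (Finset.univ : Finset (Fin N)),
        |bl e A (b i * b j) (b l) * (GM e A b).adjugate l k| ≤
          M ^ 2 * ((Nat.factorial N : ℝ) * M ^ N) := by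
      intro l _
      rw [abs_mul]
      exact mul_le_mul (hw l) (hadj l) (abs_nonneg _) (by positivity)
    refine (Finset.sum_le_sum h3).trans ?_
    rw [Finset.sum_const, Finset.card_univ, Fintype.card_fin, nsmul_eq_mul]
  have h2 : |((b.repr (b i * b j) k : ℤ) : ℝ)| ≤ B := by
    rw [le_div_iff₀ hD]
    exact h1
  have h3 : ((|b.repr (b i * b j) k| : ℤ) : ℝ) ≤ (⌈B⌉ : ℤ) := by
    rw [Int.cast_abs]
    exact h2.trans (Int.le_ceil B)
  exact_mod_cast h3

end Pool.Agent.ZR
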