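import Pool.Agent.Lib.MP_8f66f0_al_ZR.Spec

/-!
# PROJECT ZERO, part R: Chain
-/

set_option autoImplicit false

namespace Pool.Agent.ZR

open Matrix Module

namespace ChainAux

variable {O : Type} [Ring O] {N : ℕ} (e : Basis (Fin N) ℤ O)

theorem comp (h1 : S_Lev) {A : Matrix (Fin N) (Fin N) ℝ} (hA : A.PosDef) {V W : Submodule ℤ O}
    (hV : Ix V) (hW : Ix W) (hhV : 0 < hh e A V) (hhW : 0 < hh e A W) : V ≤ W ∨ W ≤ V := by
  obtain ⟨r, _, hrS, _, hro⟩ := (h1 O N e A hA V hV).1 0 hhV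
  obtain ⟨r', _, hrS', _, hro'⟩ := (h1 O N e A hA W hW).1 0 hhW
  simp only [Real.exp_zero, one_mul] at hro hro'
  rcases le_total r r' with h | h
  · left
    refine hrS.trans (satu_le hW.sat ?_)
    rintro x ⟨_, hx⟩
    by_contra hxW
    have := hro' x hxW
    linarith
  · right
    refine hrS'.trans (satu_le hV.sat ?_)
    rintro x ⟨_, hx⟩
    by_contra hxV
    have := hro x hxV
    linarith

end ChainAux

open ChainAux in
theorem chain (h1 : S_Lev) (h2 : S_Rk) : S_Chain := by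
  intro O _ N e A hA
  obtain ⟨hR1, _, _, hR4, hR5, hR6⟩ := h2 O N e
  have hc : ∀ V W : Submodule ℤ O, Ix V → Ix W → 0 < hh e A V → 0 < hh e A W → V ≤ W ∨ W ≤ V :=
    fun V W hV hW a b => comp e h1 hA hV hW a b
  have hmaps : ∀ W ∈ {W : Submodule ℤ O | Ix W ∧ 0 < hh e A W},
      finrank ℤ W ∈ Set.Icc 1 (N - 1) := by
    rintro W ⟨hW, _⟩
    have a1 := hR4 W hW.ne_bot
    have a2 := hR5 W hW.sat hW.ne_top
    exact ⟨a1, by omega⟩
  have hinj : Set.InjOn (fun W : Submodule ℤ O => finrank ℤ W)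
      {W : Submodule ℤ O | Ix W ∧ 0 < hh e A W} := by
    rintro V ⟨hV, hV0⟩ W ⟨hW, hW0⟩ heq
    have heq' : finrank ℤ V = finrank ℤ W := heq
    rcases hc V W hV hW hV0 hW0 with h | h
    · exact hR1 V W hV.sat h heq'.ge
    · exact (hR1 W V hW.sat h heq'.le).symm
  have hfin : (Set.Icc 1 (N - 1)).Finite := Set.finite_Icc _ _
  refine ⟨hc, Set.Finite.of_injOn hmaps hinj hfin, ?_, ?_⟩
  · have h3 := Set.ncard_le_ncard_of_injOn _ hmaps hinj hfin
    refine h3.trans (le_of_eq ?_)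
    rw [Set.ncard_eq_toFinset_card', Set.toFinset_Icc, Nat.card_Icc]
    omega
  · intro g W hW h0 h0'
    have hmp := hW.mp g
    rcases hc (mp g W) W hmp hW h0' h0 with h | h
    · exact hR1 _ _ hmp.sat h (hR6 g W).ge
    · exact (hR1 _ _ hW.sat h (hR6 g W).le).symm

end Pool.Agent.ZR
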