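import Pool.Agent.Lib.MP_8f66f0_al_ZR.SpecB

/-! # PROJECT ZERO, part R: cocompactness -/

set_option autoImplicit false

namespace Pool.Agent.ZR

open Matrix Module

theorem tCoc (h1 : S_redO) (h2 : S_bsc) (h3 : S_fbs) (h4 : S_cpt) : S_coc := by
  intro N O _ e Y D hY hD κ hκ
  obtain ⟨K, hK⟩ := h2 N O e Y D hY hD (cH N * D / κ ^ (N - 1))
  obtain ⟨F, hF, hF1⟩ := h3 N O K
  refine ⟨⋃ b ∈ F, {A | A ∈ Y ∧ ∀ i, sq e A (b i) ≤ cH N * D / κ ^ (N - 1)}, ?_, ?_, ?_⟩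
  · exact hF.isCompact_biUnion fun b _ => h4 N O e Y D hY hD b _
  · intro A hA
    obtain ⟨b, _, hb⟩ := Set.mem_iUnion₂.1 hA
    exact hb.1
  · intro A hA hx
    obtain ⟨b, hb⟩ := h1 N O e A (hY.pos A hA)
    rw [hY.det A hA] at hb
    have h5 : ∀ i, κ ≤ sq e A (b i) := fun i => hx _ (b.ne_zero i)
    have h6 : ∀ i, sq e A (b i) ≤ cH N * D / κ ^ (N - 1) := by
      intro i
      rw [le_div_iff₀ (pow_pos hκ _)]
      refine le_trans ?_ hb
      rw [← Finset.mul_prod_erase Finset.univ (fun j => sq e A (b j)) (Finset.mem_univ i)]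
      refine mul_le_mul_of_nonneg_left ?_ (sq_nonneg e (hY.pos A hA) _)
      have h7 : ∏ _j ∈ Finset.univ.erase i, κ = κ ^ (N - 1) := by
        rw [Finset.prod_const, Finset.card_erase_of_mem (Finset.mem_univ i), Finset.card_univ,
          Fintype.card_fin]
      rw [← h7]
      exact Finset.prod_le_prod (fun _ _ => hκ.le) fun j _ => h5 j
    obtain ⟨b', hb', g, hg⟩ := hF1 b (hK A hA b h6)
    refine ⟨g⁻¹, Set.mem_iUnion₂.2 ⟨b', hb', hY.act A hA _, ?_⟩⟩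
    intro i
    have h8 : (g⁻¹ : O ≃+* O) (b i) = b' i := by
      rw [← hg i]
      exact g.symm_apply_apply _
    rw [← h8, sq_act]
    exact h6 i

end Pool.Agent.ZR
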