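import Pool.Agent.Lib.MP_8f66f0_al_ZR.SpecB

/-!
# PROJECT ZERO, part R: compactness
-/

set_option autoImplicit false

namespace Pool.Agent.ZR

open Matrix Module

variable {O : Type} [Ring O] {N : ℕ} (e : Basis (Fin N) ℤ O)

private theorem bl_symm_cpt {A : Matrix (Fin N) (Fin N) ℝ} (hA : Aᵀ = A) (x y : O) :
    bl e A x y = bl e A y x := by
  unfold bl
  rw [dotProduct_mulVec, ← mulVec_transpose, hA, dotProduct_comm]

private theorem bl_le_cpt {A : Matrix (Fin N) (Fin N) ℝ} (hA : A.PosDef) {x y : O} {R : ℝ}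
    (hx : sq e A x ≤ R) (hy : sq e A y ≤ R) : |bl e A x y| ≤ R := by
  have hs : Aᵀ = A := by
    have h := hA.isHermitian
    unfold IsHermitian at h
    rwa [conjTranspose_eq_transpose_of_trivial] at h
  have h1 := sq_nonneg e hA (x + y)
  have h2 := sq_nonneg e hA (x + (-1 : ℤ) • y)
  have h3 : sq e A (x + y) = sq e A x + bl e A x y + (bl e A y x + sq e A y) := by
    unfold sq
    rw [bl_add_left, bl_add_right, bl_add_right]
  have h4 : sq e A (x + (-1 : ℤ) • y) =
      sq e A x - bl e A x y + (- bl e A y x + sq e A y) := by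
    unfold sq
    rw [bl_add_left, bl_add_right, bl_add_right, bl_zsmul_left, bl_zsmul_left, bl_zsmul_right,
      bl_zsmul_right]
    push_cast
    ring
  rw [h3, bl_symm_cpt e hs y x] at h1
  rw [h4, bl_symm_cpt e hs y x] at h2
  rw [abs_le]
  constructor <;> linarith

/-- The real matrix of the basis `b`. -/
private noncomputable def Ub (b : Basis (Fin N) ℤ O) : Matrix (Fin N) (Fin N) ℝ :=
  Matrix.of fun i k => co e (b k) i

/-- The real matrix of the basis `e` in `b`. -/
private noncomputable def Vb (b : Basis (Fin N) ℤ O) : Matrix (Fin N) (Fin N) ℝ :=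
  Matrix.of fun k l => ((b.repr (e l) k : ℤ) : ℝ)

private theorem Ub_mul_Vb (b : Basis (Fin N) ℤ O) : Ub e b * Vb e b = 1 := by
  ext i l
  rw [Matrix.mul_apply]
  unfold Ub Vb
  simp only [Matrix.of_apply]
  have h1 : co e (e l) i = ∑ k, co e (b k) i * ((b.repr (e l) k : ℤ) : ℝ) := by
    have h2 : e l = ∑ k, b.repr (e l) k • b k := (b.sum_repr (e l)).symm
    conv_lhs => rw [h2]
    unfold co
    rw [map_sum, Finsupp.finsetSum_apply, Int.cast_sum]
    refine Finset.sum_congr rfl fun k _ => ?_
    rw [map_smul, Finsupp.smul_apply, smul_eq_mul, Int.cast_mul, mul_comm]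
  rw [← h1]
  unfold co
  rw [e.repr_self, Finsupp.single_apply, Matrix.one_apply]
  by_cases h : i = l
  · rw [if_pos h.symm, if_pos h, Int.cast_one]
  · rw [if_neg (Ne.symm h), if_neg h, Int.cast_zero]

private theorem Ub_form (b : Basis (Fin N) ℤ O) (A : Matrix (Fin N) (Fin N) ℝ) (i j : Fin N) :
    ((Ub e b)ᵀ * A * Ub e b) i j = bl e A (b i) (b j) := by
  have h1 : ∀ i, (Ub e b).col i = co e (b i) := fun i => rfl
  unfold bl
  rw [Matrix.mul_assoc, Matrix.mul_apply]
  have h2 : ∀ k, (A * Ub e b) k j = (A *ᵥ co e (b j)) k := fun k => rfl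
  simp only [h2]
  rfl

private theorem cont_sq_cpt (x : O) : Continuous fun A : Matrix (Fin N) (Fin N) ℝ => sq e A x := by
  unfold sq bl
  exact Continuous.dotProduct continuous_const (Continuous.matrix_mulVec continuous_id continuous_const)

theorem tCpt : S_cpt := by
  intro N O _ e Y D hY hD b R
  -- the compact set
  have hK : IsCompact ((fun B : Matrix (Fin N) (Fin N) ℝ => (Vb e b)ᵀ * B * Vb e b) ''
      (Set.pi Set.univ fun _ => Set.pi Set.univ fun _ => Set.Icc (-R) R)) := by
    refine IsCompact.image ?_ ?_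
    · exact isCompact_univ_pi fun _ => isCompact_univ_pi fun _ => isCompact_Icc
    · exact Continuous.matrix_mul (Continuous.matrix_mul continuous_const continuous_id)
        continuous_const
  refine hK.of_isClosed_subset ?_ ?_
  · -- closed
    rw [← closure_subset_iff_isClosed]
    intro A hA
    have hT : IsClosed {A : Matrix (Fin N) (Fin N) ℝ | Aᵀ = A ∧
        (∀ x : Fin N → ℝ, 0 ≤ x ⬝ᵥ (A *ᵥ x)) ∧ A.det = D ∧ ∀ i, sq e A (b i) ≤ R} := by
      refine IsClosed.inter ?_ (IsClosed.inter ?_ (IsClosed.inter ?_ ?_))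
      · exact isClosed_eq (Continuous.matrix_transpose continuous_id) continuous_id
      · have h : IsClosed {A : Matrix (Fin N) (Fin N) ℝ | ∀ x : Fin N → ℝ, 0 ≤ x ⬝ᵥ (A *ᵥ x)} := by
          rw [Set.ofPred_forall]
          refine isClosed_iInter fun x => ?_
          exact isClosed_le continuous_const (Continuous.dotProduct continuous_const
            (Continuous.matrix_mulVec continuous_id continuous_const))
        exact h
      · exact isClosed_eq (Continuous.matrix_det continuous_id) continuous_const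
      · have h : IsClosed {A : Matrix (Fin N) (Fin N) ℝ | ∀ i, sq e A (b i) ≤ R} := by
          rw [Set.ofPred_forall]
          refine isClosed_iInter fun i => ?_
          exact isClosed_le (cont_sq_cpt e (b i)) continuous_const
        exact h
    have hsub : {A | A ∈ Y ∧ ∀ i, sq e A (b i) ≤ R} ⊆
        {A : Matrix (Fin N) (Fin N) ℝ | Aᵀ = A ∧
        (∀ x : Fin N → ℝ, 0 ≤ x ⬝ᵥ (A *ᵥ x)) ∧ A.det = D ∧ ∀ i, sq e A (b i) ≤ R} := by
      rintro B ⟨hB, hBR⟩
      have hp := hY.pos B hB
      refine ⟨?_, ?_, hY.det B hB, hBR⟩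
      · have h := hp.isHermitian
        unfold IsHermitian at h
        rwa [conjTranspose_eq_transpose_of_trivial] at h
      · intro x
        have h := hp.posSemidef.dotProduct_mulVec_nonneg x
        rwa [star_trivial] at h
    obtain ⟨h1, h2, h3, h4⟩ := closure_minimal hsub hT hA
    have hpsd : A.PosSemidef := by
      refine Matrix.PosSemidef.of_dotProduct_mulVec_nonneg ?_ ?_
      · unfold IsHermitian
        rw [conjTranspose_eq_transpose_of_trivial, h1]
      · intro x
        rw [star_trivial]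
        exact h2 x
    have hpd : A.PosDef := by
      rw [hpsd.posDef_iff_det_ne_zero, h3]
      exact hD.ne'
    refine ⟨hY.closed A hpd ?_, h4⟩
    exact closure_mono (fun B hB => hB.1) hA
  · rintro A ⟨hA, hR⟩
    have hp := hY.pos A hA
    refine ⟨(Ub e b)ᵀ * A * Ub e b, ?_, ?_⟩
    · intro i _ j _
      rw [Ub_form]
      exact abs_le.1 (bl_le_cpt e hp (hR i) (hR j))
    · show (Vb e b)ᵀ * ((Ub e b)ᵀ * A * Ub e b) * Vb e b = A
      have h1 : (Vb e b)ᵀ * ((Ub e b)ᵀ * A * Ub e b) * Vb e b =
          (Ub e b * Vb e b)ᵀ * A * (Ub e b * Vb e b) := by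
        rw [transpose_mul]
        simp only [Matrix.mul_assoc]
      rw [h1, Ub_mul_Vb, transpose_one, Matrix.one_mul, Matrix.mul_one]

end Pool.Agent.ZR
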