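import Pool.Agent.Lib.MP_8f66f0_al_ZR.Spec

/-!
# PROJECT ZERO, part R (infinity), module Eqv: equivariance of the height at infinity
-/

set_option autoImplicit false

namespace Pool.Agent.ZR

open Matrix Module

namespace EqvAux

variable {O : Type} [Ring O] {N : ℕ} (e : Basis (Fin N) ℤ O)

theorem map_span {g : O ≃+* O} {S T : Set O} (h : ∀ x ∈ S, g x ∈ T) {x : O}
    (hx : x ∈ Submodule.span ℤ S) : g x ∈ Submodule.span ℤ T := by
  induction hx using Submodule.span_induction with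
  | mem x hx => exact Submodule.subset_span (h x hx)
  | zero => rw [map_zero]; exact Submodule.zero_mem _
  | add x y _ _ hx hy => rw [map_add]; exact Submodule.add_mem _ hx hy
  | smul a x _ hx => rw [map_zsmul]; exact Submodule.smul_mem _ a hx

theorem spn_one {A : Matrix (Fin N) (Fin N) ℝ} {g : O ≃+* O} {W : Submodule ℤ O} {r : ℝ}
    (h : Spn e A W r) : Spn e (act e g A) (mp g W) r := by
  intro y hy
  obtain ⟨x, rfl⟩ := g.surjective y
  rw [map_mem_mp] at hy
  obtain ⟨n, hn, hx⟩ := h hy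
  refine ⟨n, hn, ?_⟩
  rw [← map_zsmul]
  refine map_span (fun z hz => ?_) hx
  refine ⟨map_mem_mp.2 hz.1, ?_⟩
  rw [sq_act]
  exact hz.2

theorem act_inv (A : Matrix (Fin N) (Fin N) ℝ) (g : O ≃+* O) :
    act e g⁻¹ (act e g A) = A := by
  rw [← act_mul, inv_mul_cancel, act_one]

theorem mp_inv (g : O ≃+* O) (W : Submodule ℤ O) : mp g⁻¹ (mp g W) = W := by
  rw [← mp_mul, inv_mul_cancel, mp_one]

theorem spn_iff (A : Matrix (Fin N) (Fin N) ℝ) (g : O ≃+* O) (W : Submodule ℤ O) (r : ℝ) :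
    Spn e (act e g A) (mp g W) r ↔ Spn e A W r := by
  constructor
  · intro h
    have h1 := spn_one e (g := g⁻¹) h
    rwa [act_inv, mp_inv] at h1
  · exact spn_one e

theorem lev_eq (A : Matrix (Fin N) (Fin N) ℝ) (g : O ≃+* O) (W : Submodule ℤ O) :
    lev e (act e g A) (mp g W) = lev e A W := by
  unfold lev
  simp only [spn_iff]

theorem out_eq (A : Matrix (Fin N) (Fin N) ℝ) (g : O ≃+* O) (W : Submodule ℤ O) :
    out e (act e g A) (mp g W) = out e A W := by
  unfold out
  congr 1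
  ext r
  constructor
  · rintro ⟨y, hy, rfl⟩
    obtain ⟨x, rfl⟩ := g.surjective y
    refine ⟨x, fun hx => hy (map_mem_mp.2 hx), ?_⟩
    rw [sq_act]
  · rintro ⟨x, hx, rfl⟩
    refine ⟨g x, fun hy => hx (map_mem_mp.1 hy), ?_⟩
    rw [sq_act]

end EqvAux

theorem eqv : S_Eqv := by
  intro O _ N e A g W
  unfold hh
  rw [EqvAux.lev_eq, EqvAux.out_eq]

end Pool.Agent.ZR
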