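import Pool.Agent.Lib.MP_8f66f0_al_ZR.Spec

/-!
# PROJECT ZERO, part R (infinity), module Exi: short vectors give a positive height
-/

set_option autoImplicit false

namespace Pool.Agent.ZR

open Matrix Module

namespace ExiAux

/-- a bounded nondecreasing sequence of natural numbers stays constant at some step -/
theorem step {N : ℕ} (f : ℕ → ℕ) (h1 : ∀ j, f j ≤ f (j + 1)) (h0 : 1 ≤ f 0)
    (hN : ∀ j, f j ≤ N) : ∃ j, j < N ∧ f j = f (j + 1) := by
  by_contra hc
  push Not at hc
  have h2 : ∀ j, j ≤ N → j + 1 ≤ f j := by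
    intro j
    induction j with
    | zero => intro _; exact h0
    | succ j ih =>
      intro hj
      have h3 := ih (by omega)
      have h4 := h1 j
      have h5 := hc j (by omega)
      omega
  have h3 := h2 N le_rfl
  have h4 := hN N
  omega

end ExiAux

open ExiAux in
theorem exi (h1 : S_Lev) (h2 : S_Nil) (h3 : S_Rk) : S_Exi := by
  intro O _ _ N e A hA hmul K hK x hx hxs
  obtain ⟨rk1, rk2, rk3, rk4, rk5, rk6⟩ := h3 O N e
  set r₀ := sq e A x with hr₀
  have hr₀pos : 0 < r₀ := sq_pos e hA hx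
  let S : ℕ → Submodule ℤ O := fun j => satu {y : O | sq e A y ≤ Real.exp (j * K) * r₀}
  have hmono : ∀ j, S j ≤ S (j + 1) := by
    intro j
    refine satu_mono fun y hy => ?_
    have hy' : sq e A y ≤ Real.exp (j * K) * r₀ := hy
    change sq e A y ≤ Real.exp ((j + 1 : ℕ) * K) * r₀
    refine le_trans hy' ?_
    refine mul_le_mul_of_nonneg_right (Real.exp_le_exp.2 ?_) hr₀pos.le
    push_cast
    nlinarith
  have hxS : ∀ j, x ∈ S j := by
    intro j
    refine subset_satu _ ?_
    change sq e A x ≤ Real.exp (j * K) * r₀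
    have h4 : 1 ≤ Real.exp (j * K) := Real.one_le_exp (by positivity)
    nlinarith
  have hne : ∀ j, S j ≠ ⊥ := by
    intro j h4
    have h5 := hxS j
    rw [h4, Submodule.mem_bot] at h5
    exact hx h5
  obtain ⟨j, hjN, hj⟩ := step (N := N) (fun j => finrank ℤ (S j)) (fun j => rk3 _ _ (hmono j))
    (rk4 _ (hne 0)) (fun j => rk2 _)
  have hjj : S j = S (j + 1) := rk1 _ _ (sat_satu _) (hmono j) hj.ge
  set r := Real.exp (j * K) * r₀ with hr
  have hrpos : 0 < r := by positivity
  have hexp : Real.exp K * r = Real.exp ((j + 1 : ℕ) * K) * r₀ := by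
    rw [hr, ← mul_assoc, ← Real.exp_add]
    congr 2
    push_cast
    ring
  have hlt : Real.exp K * r < 1 := by
    rw [hexp]
    have h4 : Real.exp ((j + 1 : ℕ) * K) * r₀ ≤ Real.exp (N * K) * r₀ := by
      refine mul_le_mul_of_nonneg_right (Real.exp_le_exp.2 ?_) hr₀pos.le
      refine mul_le_mul_of_nonneg_right ?_ hK
      exact_mod_cast hjN
    have h5 : Real.exp (N * K) * r₀ < Real.exp (N * K) * Real.exp (-(N * K)) :=
      mul_lt_mul_of_pos_left hxs (Real.exp_pos _)
    rw [← Real.exp_add, add_neg_cancel, Real.exp_zero] at h5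
    exact h4.trans_lt h5
  have hr1 : r < 1 := by
    have h4 : 1 ≤ Real.exp K := Real.one_le_exp hK
    nlinarith
  have hspn : Spn e A (S j) r := by
    refine satu_mono fun y hy => ?_
    exact ⟨subset_satu _ hy, hy⟩
  have hout : ∀ y : O, y ∉ S j → Real.exp K * r < sq e A y := by
    intro y hy
    rw [hexp]
    by_contra h4
    push Not at h4
    apply hy
    rw [hjj]
    exact subset_satu _ h4
  have hout' : ∀ y : O, y ∉ S j → r < sq e A y := by
    intro y hy
    refine lt_of_le_of_lt ?_ (hout y hy)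
    have h4 : 1 ≤ Real.exp K := Real.one_le_exp hK
    nlinarith
  have hIx : Ix (S j) := by
    refine ⟨sat_satu _, hne j, ?_⟩
    intro h4
    obtain ⟨k, hk⟩ := (h2 O N e A hA hmul (S j) r (sat_satu _) hrpos hr1 hspn).1
    rw [h4] at hk
    have h5 : ∀ k : ℕ, (1 : O) ∈ ((⊤ : Submodule ℤ O) ^ k) := by
      intro k
      have h6 := Submodule.pow_mem_pow (⊤ : Submodule ℤ O) (x := 1) Submodule.mem_top k
      rwa [one_pow] at h6
    have h6 := h5 k
    rw [hk, Submodule.mem_bot] at h6
    exact one_ne_zero h6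
  exact ⟨S j, hIx, (h1 O N e A hA (S j) hIx).2 K r hrpos hspn hlt.le
    fun y hy => (hout y hy).le⟩

end Pool.Agent.ZR
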