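import Pool.Agent.Lib.MP_8f66f0_al_ZR.SpecB

/-!
# PROJECT ZERO, part R: finitely many bases with bounded structure constants (module Fbs)
-/

set_option autoImplicit false

namespace Pool.Agent.ZR

open Matrix Module

/-- the structure constants -/
private noncomputable def fbsSc {O : Type} [Ring O] {N : ℕ} (b : Basis (Fin N) ℤ O) :
    Fin N → Fin N → Fin N → ℤ := fun i j k => b.repr (b i * b j) k

private theorem fbsMul {O : Type} [Ring O] {N : ℕ} (b b' : Basis (Fin N) ℤ O)
    (h : fbsSc b' = fbsSc b) (x y : O) : b'.equiv b (Equiv.refl _) (x * y) =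
      b'.equiv b (Equiv.refl _) x * b'.equiv b (Equiv.refl _) y := by
  have hg : ∀ i, b'.equiv b (Equiv.refl _) (b' i) = b i := fun i => by
    rw [Basis.equiv_apply, Equiv.refl_apply]
  have h1 : (LinearMap.mul ℤ O).compr₂ (b'.equiv b (Equiv.refl _)).toLinearMap =
      (LinearMap.mul ℤ O).compl₁₂ (b'.equiv b (Equiv.refl _)).toLinearMap
        (b'.equiv b (Equiv.refl _)).toLinearMap := by
    refine b'.ext fun i => b'.ext fun j => ?_
    rw [LinearMap.compr₂_apply, LinearMap.compl₁₂_apply, LinearMap.mul_apply',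
      LinearMap.mul_apply', LinearEquiv.coe_coe, hg, hg]
    conv_lhs => rw [← b'.sum_repr (b' i * b' j)]
    conv_rhs => rw [← b.sum_repr (b i * b j)]
    rw [map_sum]
    refine Finset.sum_congr rfl fun k _ => ?_
    rw [map_zsmul, hg]
    have h2 : b'.repr (b' i * b' j) k = b.repr (b i * b j) k :=
      congrFun (congrFun (congrFun h i) j) k
    rw [h2]
  exact LinearMap.congr_fun (LinearMap.congr_fun h1 x) y

theorem tFbs : S_fbs := by
  intro N O _ K
  obtain ⟨F, hF, hbij⟩ := Set.exists_subset_bijOn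
    {b : Basis (Fin N) ℤ O | ∀ i j k, |b.repr (b i * b j) k| ≤ K} fbsSc
  have himg : (fbsSc '' {b : Basis (Fin N) ℤ O | ∀ i j k, |b.repr (b i * b j) k| ≤ K}).Finite := by
    have h1 : (Set.pi Set.univ fun _ : Fin N => Set.pi Set.univ fun _ : Fin N =>
        Set.pi Set.univ fun _ : Fin N => Set.Icc (-K) K).Finite :=
      Set.Finite.pi fun _ => Set.Finite.pi fun _ => Set.Finite.pi fun _ => Set.finite_Icc _ _
    refine h1.subset ?_
    rintro _ ⟨b, hb, rfl⟩
    intro i _ j _ k _
    exact Set.mem_Icc.mpr (abs_le.mp (hb i j k))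
  refine ⟨F, ?_, fun b hb => ?_⟩
  · refine Set.Finite.of_finite_image ?_ hbij.injOn
    rw [hbij.image_eq]
    exact himg
  · obtain ⟨b', hb', h⟩ := hbij.surjOn ⟨b, hb, rfl⟩
    refine ⟨b', hb', { b'.equiv b (Equiv.refl _) with
      map_mul' := fbsMul b b' h
      map_add' := map_add (b'.equiv b (Equiv.refl _)) }, fun i => ?_⟩
    change b'.equiv b (Equiv.refl _) (b' i) = b i
    rw [Basis.equiv_apply, Equiv.refl_apply]

end Pool.Agent.ZR
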