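import Pool.Agent.Lib.MP_8f66f0_al_ZR.SpecB

/-!
# PROJECT ZERO, part R: a Hilbert-Schmidt inequality
-/

set_option autoImplicit false

namespace Pool.Agent.ZR

open Matrix

open scoped MatrixOrder ComplexOrder in
private theorem hs_fac {N : ℕ} {A : Matrix (Fin N) (Fin N) ℝ} (hA : A.PosDef) :
    ∃ Q : Matrix (Fin N) (Fin N) ℝ, A = Qᵀ * Q := by
  obtain ⟨B, hB⟩ := CStarAlgebra.nonneg_iff_eq_star_mul_self.mp hA.posSemidef.nonneg
  have h : star B = Bᵀ := by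
    ext i j
    rw [star_eq_conjTranspose, conjTranspose_apply, transpose_apply, star_trivial]
  exact ⟨B, by rw [hB, h]⟩

private theorem hs_tr {N : ℕ} (M : Matrix (Fin N) (Fin N) ℝ) :
    (M * Mᵀ).trace = ∑ i, ∑ j, M i j ^ 2 := by
  rw [trace]
  refine Finset.sum_congr rfl fun i _ => ?_
  rw [diag_apply, mul_apply]
  refine Finset.sum_congr rfl fun j _ => ?_
  rw [transpose_apply, pow_two]

private theorem hs_mul {N : ℕ} (M M' : Matrix (Fin N) (Fin N) ℝ) :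
    ((M * M') * (M * M')ᵀ).trace ≤ (M * Mᵀ).trace * (M' * M'ᵀ).trace := by
  rw [hs_tr, hs_tr, hs_tr]
  have h1 : ∀ i j, (M * M') i j ^ 2 ≤ (∑ k, M i k ^ 2) * ∑ k, M' k j ^ 2 := by
    intro i j
    rw [mul_apply]
    exact Finset.sum_mul_sq_le_sq_mul_sq _ _ _
  calc ∑ i, ∑ j, (M * M') i j ^ 2 ≤ ∑ i, ∑ j, (∑ k, M i k ^ 2) * ∑ k, M' k j ^ 2 :=
        Finset.sum_le_sum fun i _ => Finset.sum_le_sum fun j _ => h1 i j
    _ = (∑ i, ∑ k, M i k ^ 2) * ∑ j, ∑ k, M' k j ^ 2 := by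
        rw [Finset.sum_mul]
        exact Finset.sum_congr rfl fun i _ => by rw [Finset.mul_sum]
    _ = (∑ i, ∑ k, M i k ^ 2) * ∑ k, ∑ j, M' k j ^ 2 := by
        rw [Finset.sum_comm (f := fun j k => M' k j ^ 2)]

theorem tHs : S_hs := by
  intro N A X Y hA
  obtain ⟨Q, hQ⟩ := hs_fac hA
  have hAu : IsUnit A.det := (Matrix.isUnit_iff_isUnit_det A).1 hA.isUnit
  have hQu : IsUnit Q.det := by
    rw [hQ, det_mul] at hAu
    exact isUnit_of_mul_isUnit_right hAu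
  have hQtu : IsUnit (Qᵀ).det := by rw [det_transpose]; exact hQu
  have hinv : A⁻¹ = Q⁻¹ * (Qᵀ)⁻¹ := by rw [hQ, Matrix.mul_inv_rev]
  have key : ∀ Z : Matrix (Fin N) (Fin N) ℝ,
      (Z * A⁻¹ * Zᵀ * A).trace = ((Q * Z * Q⁻¹) * (Q * Z * Q⁻¹)ᵀ).trace := by
    intro Z
    have e1 : Z * A⁻¹ * Zᵀ * A = (Z * (Q⁻¹ * (Qᵀ)⁻¹) * Zᵀ * Qᵀ) * Q := by
      rw [hinv, hQ]
      simp only [Matrix.mul_assoc]
    have e2 : (Q * Z * Q⁻¹) * (Q * Z * Q⁻¹)ᵀ = Q * (Z * (Q⁻¹ * (Qᵀ)⁻¹) * Zᵀ * Qᵀ) := by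
      rw [transpose_mul, transpose_mul, transpose_nonsing_inv]
      simp only [Matrix.mul_assoc]
    rw [e1, e2, trace_mul_comm]
  rw [key, key X, key Y]
  have e3 : Q * (X * Y) * Q⁻¹ = (Q * X * Q⁻¹) * (Q * Y * Q⁻¹) := by
    have : Q⁻¹ * (Q * Y * Q⁻¹) = Y * Q⁻¹ := by
      rw [← Matrix.mul_assoc, ← Matrix.mul_assoc, Matrix.nonsing_inv_mul _ hQu, Matrix.one_mul]
    rw [Matrix.mul_assoc (Q * X) Q⁻¹ _, this]
    simp only [Matrix.mul_assoc]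
  rw [e3]
  exact hs_mul _ _

end Pool.Agent.ZR
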