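import Pool.Agent.Lib.MP_8f66f0_al_ZR.Spec

set_option autoImplicit false

namespace Pool.Agent.ZR

open Matrix Module

namespace IdlAux

variable {O : Type} [Ring O]

theorem mem_idl {W : Submodule ℤ O} {x : O} :
    x ∈ idl W ↔ ∃ n : ℤ, n ≠ 0 ∧ n • x ∈ (W * ⊤ : Submodule ℤ O) := by
  unfold idl
  rw [mem_satu, Submodule.span_eq]

theorem mul_right {W : Submodule ℤ O} {a : O} (ha : a ∈ (W * ⊤ : Submodule ℤ O)) (x : O) :
    a * x ∈ (W * ⊤ : Submodule ℤ O) := by
  have h1 : a * x ∈ (W * ⊤ * ⊤ : Submodule ℤ O) := Submodule.mul_mem_mul ha Submodule.mem_top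
  rw [mul_assoc] at h1
  have h2 : (W * (⊤ * ⊤) : Submodule ℤ O) ≤ W * ⊤ := mul_le_mul' le_rfl le_top
  exact h2 h1

theorem pow_mem {W : Submodule ℤ O} {n : ℤ} (h : n • (1 : O) ∈ (W * ⊤ : Submodule ℤ O)) (j : ℕ) :
    (n ^ j) • (1 : O) ∈ (W ^ j * ⊤ : Submodule ℤ O) := by
  induction j with
  | zero =>
    rw [pow_zero, pow_zero, one_smul, one_mul]
    exact Submodule.mem_top
  | succ j ih =>
    have key : ∀ a ∈ (W * ⊤ : Submodule ℤ O), (n ^ j) • a ∈ (W ^ (j + 1) * ⊤ : Submodule ℤ O) := by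
      intro a ha
      induction ha using Submodule.mul_induction_on' with
      | mem_mul_mem w hw y _ =>
        have e : (n ^ j) • (w * y) = w * ((n ^ j) • (1 : O)) * y := by
          rw [mul_smul_comm, mul_one, smul_mul_assoc]
        rw [e]
        have h1 : w * ((n ^ j) • (1 : O)) * y ∈ (W * (W ^ j * ⊤) * ⊤ : Submodule ℤ O) :=
          Submodule.mul_mem_mul (Submodule.mul_mem_mul hw ih) Submodule.mem_top
        have h2 : (W * (W ^ j * ⊤) * ⊤ : Submodule ℤ O) ≤ W ^ (j + 1) * ⊤ := by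
          rw [← mul_assoc, mul_assoc, ← pow_succ']
          exact mul_le_mul' le_rfl le_top
        exact h2 h1
      | add a _ b _ ha hb =>
        rw [smul_add]
        exact Submodule.add_mem _ ha hb
    have e : (n ^ (j + 1)) • (1 : O) = (n ^ j) • (n • (1 : O)) := by
      rw [smul_smul, pow_succ]
    rw [e]
    exact key _ h

end IdlAux

open IdlAux in
theorem idl_spec : S_Idl := by
  intro O _ _ N e W hW hk
  obtain ⟨k, hk⟩ := hk
  have hle : W ≤ idl W := by
    intro w hw
    refine mem_idl.2 ⟨1, one_ne_zero, ?_⟩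
    rw [one_smul, ← mul_one w]
    exact Submodule.mul_mem_mul hw Submodule.mem_top
  have htf : ∀ (n : ℤ) (x : O), n ≠ 0 → n • x = 0 → x = 0 := by
    intro n x hn hx
    apply e.repr.injective
    rw [map_zero]
    have h1 : e.repr (n • x) = 0 := by rw [hx, map_zero]
    rw [map_smul] at h1
    ext i
    have h2 := DFunLike.congr_fun h1 i
    rw [Finsupp.smul_apply, smul_eq_mul] at h2
    exact (mul_eq_zero.1 h2).resolve_left hn
  refine ⟨⟨sat_satu _, ?_, ?_⟩, ?_, ?_⟩
  · intro h
    apply hW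
    rw [eq_bot_iff, ← h]
    exact hle
  · intro h
    have h1 : (1 : O) ∈ idl W := by rw [h]; exact Submodule.mem_top
    obtain ⟨n, hn, h2⟩ := mem_idl.1 h1
    have h3 := pow_mem h2 k
    rw [hk, Submodule.bot_mul, Submodule.mem_bot] at h3
    exact one_ne_zero (htf _ _ (pow_ne_zero k hn) h3)
  · intro a ha x
    obtain ⟨n, hn, h2⟩ := mem_idl.1 ha
    refine mem_idl.2 ⟨n, hn, ?_⟩
    rw [← smul_mul_assoc]
    exact mul_right h2 x
  · intro g hg
    have key : ∀ g : O ≃+* O, mp g W = W → ∀ x ∈ (W * ⊤ : Submodule ℤ O),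
        g x ∈ (W * ⊤ : Submodule ℤ O) := by
      intro g hg x hx
      induction hx using Submodule.mul_induction_on' with
      | mem_mul_mem w hw y _ =>
        rw [map_mul]
        refine Submodule.mul_mem_mul ?_ Submodule.mem_top
        rw [← hg]
        exact map_mem_mp.2 hw
      | add a _ b _ ha hb =>
        rw [map_add]
        exact Submodule.add_mem _ ha hb
    have hg' : mp g.symm W = W := by
      ext x
      rw [mem_mp, RingEquiv.symm_symm]
      conv_lhs => rw [← hg]
      exact map_mem_mp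
    ext x
    rw [mem_mp, mem_idl, mem_idl]
    constructor
    · rintro ⟨n, hn, h⟩
      refine ⟨n, hn, ?_⟩
      have := key g hg _ h
      rwa [map_zsmul, g.apply_symm_apply] at this
    · rintro ⟨n, hn, h⟩
      refine ⟨n, hn, ?_⟩
      have := key g.symm hg' _ h
      rwa [map_zsmul] at this

end Pool.Agent.ZR
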