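import Pool.Agent.Lib.MP_8f66f0_al_ZR.SpecB

/-!
# PROJECT ZERO, part R: the space of the positive involutions
-/

set_option autoImplicit false

namespace Pool.Agent.ZR

open Matrix Module

section

variable {O : Type} [Ring O] {N : ℕ} (e : Basis (Fin N) ℤ O)

/-- The multiplication is bilinear. -/
private noncomputable def isyB : (Fin N → ℝ) →ₗ[ℝ] (Fin N → ℝ) →ₗ[ℝ] (Fin N → ℝ) :=
  LinearMap.mk₂ ℝ (mR e)
    (by
      intro x x' y
      funext k
      simp only [mR, Pi.add_apply, ← Finset.sum_add_distrib]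
      refine Finset.sum_congr rfl fun i _ => Finset.sum_congr rfl fun j _ => ?_
      ring)
    (by
      intro c x y
      funext k
      simp only [mR, Pi.smul_apply, smul_eq_mul, Finset.mul_sum]
      refine Finset.sum_congr rfl fun i _ => Finset.sum_congr rfl fun j _ => ?_
      ring)
    (by
      intro x y y'
      funext k
      simp only [mR, Pi.add_apply, ← Finset.sum_add_distrib]
      refine Finset.sum_congr rfl fun i _ => Finset.sum_congr rfl fun j _ => ?_
      ring)
    (by
      intro c x y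
      funext k
      simp only [mR, Pi.smul_apply, smul_eq_mul, Finset.mul_sum]
      refine Finset.sum_congr rfl fun i _ => Finset.sum_congr rfl fun j _ => ?_
      ring)

private theorem isyB_apply (x y : Fin N → ℝ) : isyB e x y = mR e x y := rfl

private theorem isy_co (i : Fin N) : co e (e i) = Pi.single i 1 := by
  funext j
  unfold co
  rw [e.repr_self, Finsupp.single_apply, Pi.single_apply]
  by_cases h : i = j
  · rw [if_pos h, if_pos h.symm, Int.cast_one]
  · rw [if_neg h, if_neg (Ne.symm h), Int.cast_zero]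

private theorem isy_single (i j : Fin N) :
    mR e (Pi.single i 1) (Pi.single j 1) = co e (e i * e j) := by
  funext k
  unfold mR co
  rw [Finset.sum_eq_single i, Finset.sum_eq_single j]
  · simp
  · intro b _ hb
    rw [Pi.single_eq_of_ne hb, mul_zero, zero_mul]
  · intro hj
    exact absurd (Finset.mem_univ _) hj
  · intro b _ hb
    refine Finset.sum_eq_zero fun a _ => ?_
    rw [Pi.single_eq_of_ne hb, zero_mul, zero_mul]
  · intro hj
    exact absurd (Finset.mem_univ _) hj

private theorem isy_mul (u v : O) : co e (u * v) = mR e (co e u) (co e v) := by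
  have h1 : ∀ u : O, co e u = ∑ i, ((e.repr u i : ℤ) : ℝ) • (Pi.single i 1 : Fin N → ℝ) := by
    intro u
    funext k
    rw [Finset.sum_apply, Finset.sum_eq_single k]
    · simp [co]
    · intro b _ hb
      rw [Pi.smul_apply, Pi.single_eq_of_ne (Ne.symm hb), smul_zero]
    · intro hk
      exact absurd (Finset.mem_univ _) hk
  have h3 : ∀ (n : ℕ) (f : Fin n → O), co e (∑ i, f i) = ∑ i, co e (f i) := by
    intro n f
    funext k
    rw [Finset.sum_apply]
    unfold co
    rw [map_sum, Finsupp.finsetSum_apply, Int.cast_sum]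
  have h2 : u * v = ∑ i, ∑ j, (e.repr u i * e.repr v j) • (e i * e j) := by
    conv_lhs => rw [← e.sum_repr u, ← e.sum_repr v]
    rw [Finset.sum_mul]
    refine Finset.sum_congr rfl fun i _ => ?_
    rw [Finset.mul_sum]
    refine Finset.sum_congr rfl fun j _ => ?_
    rw [smul_mul_smul_comm]
  rw [h2, h3]
  rw [← isyB_apply, h1 u, h1 v, LinearMap.map_sum₂]
  refine Finset.sum_congr rfl fun i _ => ?_
  rw [h3, map_smul, LinearMap.smul_apply, map_sum, Finset.smul_sum]
  refine Finset.sum_congr rfl fun j _ => ?_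
  rw [map_smul, co_zsmul, isyB_apply, isy_single, Int.cast_mul, mul_smul]

private theorem isy_map (g : O ≃+* O) (x y : Fin N → ℝ) :
    mt e g *ᵥ mR e x y = mR e (mt e g *ᵥ x) (mt e g *ᵥ y) := by
  have h : (isyB e).compr₂ (Matrix.toLin' (mt e g)) =
      (isyB e).compl₁₂ (Matrix.toLin' (mt e g)) (Matrix.toLin' (mt e g)) := by
    refine LinearMap.ext_basis (Pi.basisFun ℝ (Fin N)) (Pi.basisFun ℝ (Fin N)) fun i j => ?_
    rw [LinearMap.compr₂_apply, LinearMap.compl₁₂_apply, Pi.basisFun_apply, Pi.basisFun_apply,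
      Matrix.toLin'_apply, Matrix.toLin'_apply, Matrix.toLin'_apply, isyB_apply, isyB_apply,
      isy_single, ← co_map, map_mul, isy_mul, ← isy_co e, ← isy_co e, ← co_map,
      ← co_map]
  have h2 := LinearMap.congr_fun (LinearMap.congr_fun h x) y
  exact h2

/-- The trace as a linear map. -/
private noncomputable def isyT : O →ₗ[ℤ] ℤ := LinearMap.trace ℤ O ∘ₗ LinearMap.mul ℤ O

private theorem isyT_apply (x : O) : isyT x = tr x := rfl

private theorem isy_tr (u v : O) : ((tr (u * v) : ℤ) : ℝ) = co e u ⬝ᵥ (Tm e *ᵥ co e v) := by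
  have h2 : u * v = ∑ i, ∑ j, (e.repr u i * e.repr v j) • (e i * e j) := by
    conv_lhs => rw [← e.sum_repr u, ← e.sum_repr v]
    rw [Finset.sum_mul]
    refine Finset.sum_congr rfl fun i _ => ?_
    rw [Finset.mul_sum]
    refine Finset.sum_congr rfl fun j _ => ?_
    rw [smul_mul_smul_comm]
  rw [← isyT_apply, h2, map_sum, Int.cast_sum]
  refine Finset.sum_congr rfl fun i _ => ?_
  rw [map_sum, Int.cast_sum]
  have h3 : (Tm e *ᵥ co e v) i = ∑ j, ((tr (e i * e j) : ℤ) : ℝ) * ((e.repr v j : ℤ) : ℝ) := rfl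
  rw [h3, Finset.mul_sum]
  refine Finset.sum_congr rfl fun j _ => ?_
  rw [map_smul, isyT_apply, smul_eq_mul, Int.cast_mul, Int.cast_mul]
  unfold co
  ring

private theorem isy_conj (g : O ≃+* O) (x : O) : tr (g x) = tr x := by
  have h : LinearMap.mulLeft ℤ (g x) =
      (g.toAddEquiv.toIntLinearEquiv).conj (LinearMap.mulLeft ℤ x) := by
    ext y
    rw [LinearEquiv.conj_apply_apply]
    change g x * y = g (x * g.symm y)
    rw [map_mul, g.apply_symm_apply]
  unfold tr
  rw [h, LinearMap.trace_conj']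

private theorem isy_inv (g : O ≃+* O) : (mt e g)ᵀ * Tm e * mt e g = Tm e := by
  ext i j
  have h1 : Tm e i j = ((tr (g (e i) * g (e j)) : ℤ) : ℝ) := by
    rw [← map_mul, isy_conj]
    rfl
  rw [h1, isy_tr, Matrix.mul_assoc, Matrix.mul_apply]
  refine Finset.sum_congr rfl fun a _ => ?_
  rw [Matrix.mul_apply]
  rfl

end

theorem tIsY (h : S_mul) : S_isY := by
  intro N O _ e hT
  refine ⟨fun A hA => hA.1, fun A hA x y => h N O e A hA x y, ?_, ?_, ?_⟩
  · rintro A ⟨hA, S, hS, hS2, -⟩
    have h1 : S.det ^ 2 = 1 := by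
      rw [pow_two, ← Matrix.det_mul, hS2, Matrix.det_one]
    have h2 : |S.det| = 1 := by
      have h3 : |S.det| ^ 2 = 1 := by rw [sq_abs, h1]
      have h4 := abs_nonneg S.det
      nlinarith
    have h3 : |A.det| = A.det := abs_of_pos hA.det_pos
    rw [← h3, ← hS, Matrix.det_mul, abs_mul, h2, mul_one]
  · intro A hA hc
    have hu : IsUnit (Tm e).det := isUnit_iff_ne_zero.2 hT
    set Z : Set (Matrix (Fin N) (Fin N) ℝ) :=
      {B | ((Tm e)⁻¹ * B) * ((Tm e)⁻¹ * B) = 1} ∩
        ⋂ x : Fin N → ℝ, ⋂ y : Fin N → ℝ,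
          {B | ((Tm e)⁻¹ * B) *ᵥ mR e x y = mR e (((Tm e)⁻¹ * B) *ᵥ y) (((Tm e)⁻¹ * B) *ᵥ x)}
      with hZ
    have hmR : ∀ f f' : Matrix (Fin N) (Fin N) ℝ → Fin N → ℝ, Continuous f → Continuous f' →
        Continuous fun B => mR e (f B) (f' B) := by
      intro f f' hf hf'
      refine continuous_pi fun k => ?_
      unfold mR
      refine continuous_finsetSum _ fun i _ => continuous_finsetSum _ fun j _ => ?_
      exact (((continuous_apply i).comp hf).mul ((continuous_apply j).comp hf')).mul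
        continuous_const
    have hm : Continuous fun B : Matrix (Fin N) (Fin N) ℝ => (Tm e)⁻¹ * B :=
      continuous_const.matrix_mul continuous_id
    have hZc : IsClosed Z := by
      refine IsClosed.inter ?_ ?_
      · exact isClosed_eq (hm.matrix_mul hm) continuous_const
      · refine isClosed_iInter fun x => isClosed_iInter fun y => ?_
        refine isClosed_eq (hm.matrix_mulVec continuous_const) ?_
        exact hmR _ _ (hm.matrix_mulVec continuous_const) (hm.matrix_mulVec continuous_const)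
    have hsub : YO e ⊆ Z := by
      rintro B ⟨-, S, hS, hS2, hS3⟩
      have h1 : (Tm e)⁻¹ * B = S := by
        rw [← hS, Matrix.nonsing_inv_mul_cancel_left _ _ hu]
      refine ⟨?_, ?_⟩
      · change ((Tm e)⁻¹ * B) * ((Tm e)⁻¹ * B) = 1
        rw [h1, hS2]
      · refine Set.mem_iInter.2 fun x => Set.mem_iInter.2 fun y => ?_
        change ((Tm e)⁻¹ * B) *ᵥ mR e x y = mR e (((Tm e)⁻¹ * B) *ᵥ y) (((Tm e)⁻¹ * B) *ᵥ x)
        rw [h1, hS3]
    have hAZ : A ∈ Z := closure_minimal hsub hZc hc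
    refine ⟨hA, (Tm e)⁻¹ * A, Matrix.mul_nonsing_inv_cancel_left _ _ hu, hAZ.1, ?_⟩
    intro x y
    exact Set.mem_iInter.1 (Set.mem_iInter.1 hAZ.2 x) y
  · rintro A ⟨hA, S, hS, hS2, hS3⟩ g
    have hgg : mt e g⁻¹ * mt e g = 1 := by rw [← mt_mul, inv_mul_cancel, mt_one]
    have hgg' : mt e g * mt e g⁻¹ = 1 := by rw [← mt_mul, mul_inv_cancel, mt_one]
    refine ⟨act_posDef e g hA, mt e g * S * mt e g⁻¹, ?_, ?_, ?_⟩
    · unfold act
      rw [← hS]
      have h1 : (mt e g⁻¹)ᵀ * Tm e = Tm e * mt e g := by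
        calc (mt e g⁻¹)ᵀ * Tm e = (mt e g⁻¹)ᵀ * Tm e * (mt e g⁻¹ * mt e g) := by
              rw [hgg, Matrix.mul_one]
          _ = ((mt e g⁻¹)ᵀ * Tm e * mt e g⁻¹) * mt e g := by rw [Matrix.mul_assoc _ (mt e g⁻¹)]
          _ = Tm e * mt e g := by rw [isy_inv]
      rw [← Matrix.mul_assoc (mt e g⁻¹)ᵀ, h1]
      simp only [Matrix.mul_assoc]
    · calc mt e g * S * mt e g⁻¹ * (mt e g * S * mt e g⁻¹)
          = mt e g * S * (mt e g⁻¹ * mt e g) * (S * mt e g⁻¹) := by
            simp only [Matrix.mul_assoc]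
        _ = mt e g * (S * S) * mt e g⁻¹ := by
            rw [hgg, Matrix.mul_one]
            simp only [Matrix.mul_assoc]
        _ = 1 := by rw [hS2, Matrix.mul_one, hgg']
    · intro x y
      have h1 : ∀ z, (mt e g * S * mt e g⁻¹) *ᵥ z = mt e g *ᵥ (S *ᵥ (mt e g⁻¹ *ᵥ z)) := by
        intro z
        rw [mulVec_mulVec, mulVec_mulVec, Matrix.mul_assoc]
      rw [h1, h1, h1, isy_map, hS3, isy_map]

end Pool.Agent.ZR
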