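import Pool.Agent.Lib.MP_8f66f0_al_ZR.Spec

/-!
# PROJECT ZERO, part R (infinity), task Lev: the meaning of `hh` (helper72)
-/

set_option autoImplicit false

namespace Pool.Agent.ZR

open Matrix Module

namespace LevAux

variable {O : Type} [Ring O] {N : ℕ} (e : Basis (Fin N) ℤ O)

theorem spn_mono {A : Matrix (Fin N) (Fin N) ℝ} {W : Submodule ℤ O} {r r' : ℝ} (h : r ≤ r')
    (hr : Spn e A W r) : Spn e A W r' :=
  le_trans hr (satu_mono fun _ hx => ⟨hx.1, hx.2.trans h⟩)

theorem eq_zero_of_zsmul (e : Basis (Fin N) ℤ O) {n : ℤ} (hn : n ≠ 0) {x : O} (h : n • x = 0) :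
    x = 0 := by
  have h1 : co e (n • x) = co e (0 : O) := by rw [h]
  rw [co_zsmul, co_zero] at h1
  have h2 : (n : ℝ) ≠ 0 := Int.cast_ne_zero.2 hn
  have h3 : co e x = 0 := (smul_eq_zero.1 h1).resolve_left h2
  exact co_inj e (h3.trans (co_zero e).symm)

theorem spn_nonempty {A : Matrix (Fin N) (Fin N) ℝ} (hA : A.PosDef) (W : Submodule ℤ O) :
    ∃ r : ℝ, Spn e A W r := by
  classical
  have : Module.Finite ℤ O := Module.Finite.of_basis e
  have : IsNoetherian ℤ O := isNoetherian_of_isNoetherianRing_of_finite ℤ O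
  obtain ⟨S, hS⟩ := IsNoetherian.noetherian W
  refine ⟨∑ x ∈ S, sq e A x, ?_⟩
  unfold Spn
  conv_lhs => rw [← hS]
  rw [Submodule.span_le]
  intro x hx
  refine subset_satu _ ⟨?_, ?_⟩
  · rw [← hS]
    exact Submodule.subset_span hx
  · exact Finset.single_le_sum (f := fun x => sq e A x) (fun y _ => sq_nonneg e hA y) hx

theorem le_of_spn {A : Matrix (Fin N) (Fin N) ℝ} {c : ℝ} (hc : ∀ x : O, x ≠ 0 → c ≤ sq e A x)
    {W : Submodule ℤ O} (hW : W ≠ ⊥) {r : ℝ} (hr : Spn e A W r) : c ≤ r := by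
  by_contra hlt
  push Not at hlt
  apply hW
  rw [eq_bot_iff]
  intro x hx
  obtain ⟨n, hn, h⟩ := hr hx
  have h1 : Submodule.span ℤ {x | x ∈ W ∧ sq e A x ≤ r} ≤ ⊥ := by
    rw [Submodule.span_le]
    rintro y ⟨-, hy⟩
    by_contra hne
    have := hc y hne
    exact absurd (this.trans hy) (not_le.2 hlt)
  have h2 := h1 h
  rw [Submodule.mem_bot] at h2 ⊢
  exact eq_zero_of_zsmul e hn h2

end LevAux

open LevAux in
/-- TASK Lev. -/
theorem lev_spec (h : S_Lo) : S_Lev := by
  intro O _ N e A hA W hW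
  obtain ⟨c, hc0, hc⟩ := (h O N e A hA).1
  -- facts on lev
  have hne : {r : ℝ | Spn e A W r}.Nonempty := spn_nonempty e hA W
  have hbd : BddBelow {r : ℝ | Spn e A W r} := ⟨c, fun r hr => le_of_spn e hc hW.ne_bot hr⟩
  have hlev : c ≤ lev e A W := le_csInf hne fun r hr => le_of_spn e hc hW.ne_bot hr
  have hlev0 : 0 < lev e A W := lt_of_lt_of_le hc0 hlev
  have hspn : ∀ r, lev e A W < r → Spn e A W r := by
    intro r hr
    obtain ⟨r', hr', hlt⟩ := exists_lt_of_csInf_lt hne hr
    exact spn_mono e hlt.le hr'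
  -- facts on out
  have hne' : (sq e A '' {x : O | x ∉ W}).Nonempty := by
    obtain ⟨x, hx⟩ : ∃ x, x ∉ W := by
      by_contra hall
      push Not at hall
      exact hW.ne_top (eq_top_iff.2 fun x _ => hall x)
    exact ⟨_, x, hx, rfl⟩
  have hbd' : BddBelow (sq e A '' {x : O | x ∉ W}) := by
    refine ⟨0, ?_⟩
    rintro _ ⟨x, -, rfl⟩
    exact sq_nonneg e hA x
  have hout : c ≤ out e A W := by
    refine le_csInf hne' ?_
    rintro _ ⟨x, hx, rfl⟩
    refine hc x ?_
    rintro rfl
    exact hx W.zero_mem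
  have hout0 : 0 < out e A W := lt_of_lt_of_le hc0 hout
  have hout' : ∀ x, x ∉ W → out e A W ≤ sq e A x := fun x hx => csInf_le hbd' ⟨x, hx, rfl⟩
  refine ⟨?_, ?_⟩
  · intro t ht
    unfold hh at ht
    generalize hm : min (Real.log (out e A W)) 0 = m at ht
    have hm1 : m ≤ Real.log (out e A W) := by rw [← hm]; exact min_le_left _ _
    have hm2 : m ≤ 0 := by rw [← hm]; exact min_le_right _ _
    have h1 : Real.log (lev e A W) < (Real.log (lev e A W) + (m - t)) / 2 := by linarith
    have h2 : (Real.log (lev e A W) + (m - t)) / 2 + t < m := by linarith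
    generalize (Real.log (lev e A W) + (m - t)) / 2 = y at h1 h2
    have h3 : Real.exp t * Real.exp y < Real.exp m := by
      rw [← Real.exp_add]
      exact Real.exp_lt_exp.2 (by linarith)
    refine ⟨Real.exp y, Real.exp_pos y, hspn _ ?_, ?_, ?_⟩
    · rw [← Real.exp_log hlev0]
      exact Real.exp_lt_exp.2 h1
    · refine lt_of_lt_of_le h3 ?_
      rw [← Real.exp_zero]
      exact Real.exp_le_exp.2 hm2
    · intro x hx
      refine lt_of_lt_of_le h3 (le_trans ?_ (hout' x hx))
      rw [← Real.exp_log hout0]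
      exact Real.exp_le_exp.2 hm1
  · intro t r hr0 hr h1 h2
    have h3 : lev e A W ≤ r := csInf_le hbd hr
    have h4 : Real.log (lev e A W) ≤ Real.log r := Real.log_le_log hlev0 h3
    have h5 : Real.exp t * r ≤ out e A W := by
      refine le_csInf hne' ?_
      rintro _ ⟨x, hx, rfl⟩
      exact h2 x hx
    have h6 : Real.log (Real.exp t * r) = t + Real.log r := by
      rw [Real.log_mul (Real.exp_pos t).ne' hr0.ne', Real.log_exp]
    have h7 : 0 < Real.exp t * r := mul_pos (Real.exp_pos t) hr0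
    have h8 : t + Real.log r ≤ Real.log (out e A W) := by
      rw [← h6]
      exact Real.log_le_log h7 h5
    have h9 : t + Real.log r ≤ 0 := by
      rw [← h6, ← Real.log_one]
      exact Real.log_le_log h7 h1
    unfold hh
    have h10 : t + Real.log r ≤ min (Real.log (out e A W)) 0 := le_min h8 h9
    linarith

end Pool.Agent.ZR
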