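import Pool.Agent.Lib.MP_8f66f0_al_ZR.Spec

/-!
# PROJECT ZERO, part R: the height at infinity is Lipschitz
-/

set_option autoImplicit false

namespace Pool.Agent.ZR

open Matrix Module

theorem lip (h : S_Lev) : S_Lip := by
  intro O _ N e A A' hA hA' s s' hs _ h1 h2 W hW
  refine le_of_forall_lt_imp_le_of_dense fun t ht => ?_
  obtain ⟨r, hr, hsp, hr1, hout⟩ := (h O N e A hA W hW).1 t ht
  have e1 : Real.exp (t - s - s') * (Real.exp s' * r) = Real.exp (-s) * (Real.exp t * r) := by
    rw [← mul_assoc, ← mul_assoc, ← Real.exp_add, ← Real.exp_add]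
    congr 2
    ring
  have hes : Real.exp (-s) ≤ 1 := by
    rw [Real.exp_le_one_iff]
    linarith
  have htr : 0 < Real.exp t * r := mul_pos (Real.exp_pos _) hr
  have h3 : t - s - s' ≤ hh e A' W := by
    refine (h O N e A' hA' W hW).2 (t - s - s') (Real.exp s' * r)
      (mul_pos (Real.exp_pos _) hr) ?_ ?_ ?_
    · refine hsp.trans (satu_mono ?_)
      rintro x ⟨hx, hxr⟩
      exact ⟨hx, (h2 x).trans (mul_le_mul_of_nonneg_left hxr (Real.exp_pos _).le)⟩
    · rw [e1]
      calc Real.exp (-s) * (Real.exp t * r) ≤ 1 * (Real.exp t * r) :=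
            mul_le_mul_of_nonneg_right hes htr.le
        _ ≤ 1 := by rw [one_mul]; exact hr1.le
    · intro x hx
      rw [e1]
      have h4 : Real.exp (-s) * sq e A x ≤ sq e A' x := by
        calc Real.exp (-s) * sq e A x ≤ Real.exp (-s) * (Real.exp s * sq e A' x) :=
              mul_le_mul_of_nonneg_left (h1 x) (Real.exp_pos _).le
          _ = sq e A' x := by
              rw [← mul_assoc, ← Real.exp_add, neg_add_cancel, Real.exp_zero, one_mul]
      exact (mul_le_mul_of_nonneg_left (hout x hx).le (Real.exp_pos _).le).trans h4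
  linarith

end Pool.Agent.ZR
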