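import Pool.Agent.Lib.MP_8f66f0_al_ZR.SpecB

/-!
# PROJECT ZERO, part R: left multiplications
-/

set_option autoImplicit false

namespace Pool.Agent.ZR

open Matrix Module

section

variable {O : Type} [Ring O] {N : ℕ} (e : Basis (Fin N) ℤ O)

private theorem repr_mul_aux (x y : O) (k : Fin N) :
    e.repr (x * y) k = ∑ i, ∑ j, e.repr x i * e.repr y j * e.repr (e i * e j) k := by
  have hx : x * y = ∑ i, ∑ j, (e.repr x i * e.repr y j) • (e i * e j) := by
    conv_lhs => rw [← e.sum_repr x, ← e.sum_repr y]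
    rw [Finset.sum_mul_sum]
    refine Finset.sum_congr rfl fun i _ => Finset.sum_congr rfl fun j _ => ?_
    rw [smul_mul_assoc, mul_smul_comm, smul_smul]
  rw [hx, map_sum, Finsupp.finsetSum_apply]
  refine Finset.sum_congr rfl fun i _ => ?_
  rw [map_sum, Finsupp.finsetSum_apply]
  refine Finset.sum_congr rfl fun j _ => ?_
  rw [map_smul, Finsupp.smul_apply, smul_eq_mul]

private theorem repr_left_aux (x : O) (j k : Fin N) :
    e.repr (x * e j) k = ∑ i, e.repr x i * e.repr (e i * e j) k := by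
  conv_lhs => rw [← e.sum_repr x]
  rw [Finset.sum_mul, map_sum, Finsupp.finsetSum_apply]
  refine Finset.sum_congr rfl fun i _ => ?_
  rw [smul_mul_assoc, map_smul, Finsupp.smul_apply, smul_eq_mul]

private theorem repr_right_aux (y : O) (i k : Fin N) :
    e.repr (e i * y) k = ∑ j, e.repr y j * e.repr (e i * e j) k := by
  conv_lhs => rw [← e.sum_repr y]
  rw [Finset.mul_sum, map_sum, Finsupp.finsetSum_apply]
  refine Finset.sum_congr rfl fun j _ => ?_
  rw [mul_smul_comm, map_smul, Finsupp.smul_apply, smul_eq_mul]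

private theorem assoc_aux (a b l k : Fin N) :
    ∑ i, e.repr (e a * e b) i * e.repr (e i * e l) k =
      ∑ m, e.repr (e b * e l) m * e.repr (e a * e m) k := by
  rw [← repr_left_aux, ← repr_right_aux, mul_assoc]

/-- The left multiplication. -/
private noncomputable def LL : (Fin N → ℝ) →ₗ[ℝ] Matrix (Fin N) (Fin N) ℝ where
  toFun z := fun k j => ∑ i, z i * ((e.repr (e i * e j) k : ℤ) : ℝ)
  map_add' z w := by
    funext k j
    change ∑ i, (z i + w i) * ((e.repr (e i * e j) k : ℤ) : ℝ) =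
      ∑ i, z i * ((e.repr (e i * e j) k : ℤ) : ℝ) + ∑ i, w i * ((e.repr (e i * e j) k : ℤ) : ℝ)
    rw [← Finset.sum_add_distrib]
    exact Finset.sum_congr rfl fun i _ => add_mul _ _ _
  map_smul' c z := by
    funext k j
    change ∑ i, (c * z i) * ((e.repr (e i * e j) k : ℤ) : ℝ) =
      c * ∑ i, z i * ((e.repr (e i * e j) k : ℤ) : ℝ)
    rw [Finset.mul_sum]
    exact Finset.sum_congr rfl fun i _ => mul_assoc _ _ _

private theorem LL_apply (z : Fin N → ℝ) (k j : Fin N) :
    LL e z k j = ∑ i, z i * ((e.repr (e i * e j) k : ℤ) : ℝ) := rfl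

private theorem LL_co (x : O) (k j : Fin N) :
    LL e (co e x) k j = ((e.repr (x * e j) k : ℤ) : ℝ) := by
  rw [LL_apply, repr_left_aux, Int.cast_sum]
  exact Finset.sum_congr rfl fun i _ => (Int.cast_mul _ _).symm

private theorem LL_mulVec (z y : Fin N → ℝ) : LL e z *ᵥ y = mR e z y := by
  funext k
  change ∑ j, LL e z k j * y j = ∑ i, ∑ j, z i * y j * ((e.repr (e i * e j) k : ℤ) : ℝ)
  rw [Finset.sum_comm]
  refine Finset.sum_congr rfl fun j _ => ?_
  rw [LL_apply, Finset.sum_mul]
  refine Finset.sum_congr rfl fun i _ => ?_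
  ring

private theorem LL_mR (z w : Fin N → ℝ) : LL e (mR e z w) = LL e z * LL e w := by
  ext k l
  have h1 : ∀ a b : Fin N,
      ∑ i, ((e.repr (e a * e b) i : ℤ) : ℝ) * ((e.repr (e i * e l) k : ℤ) : ℝ) =
      ∑ m, ((e.repr (e b * e l) m : ℤ) : ℝ) * ((e.repr (e a * e m) k : ℤ) : ℝ) := by
    intro a b
    exact_mod_cast assoc_aux e a b l k
  have h2 : LL e (mR e z w) k l = ∑ a, ∑ b, z a * w b *
      ∑ i, ((e.repr (e a * e b) i : ℤ) : ℝ) * ((e.repr (e i * e l) k : ℤ) : ℝ) := by
    have : LL e (mR e z w) k l = ∑ i, (∑ a, ∑ b, z a * w b * ((e.repr (e a * e b) i : ℤ) : ℝ)) *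
        ((e.repr (e i * e l) k : ℤ) : ℝ) := rfl
    rw [this]
    simp only [Finset.sum_mul, Finset.mul_sum]
    rw [Finset.sum_comm]
    refine Finset.sum_congr rfl fun a _ => ?_
    rw [Finset.sum_comm]
    refine Finset.sum_congr rfl fun b _ => Finset.sum_congr rfl fun i _ => ?_
    ring
  have h3 : (LL e z * LL e w) k l = ∑ a, ∑ b, z a * w b *
      ∑ m, ((e.repr (e b * e l) m : ℤ) : ℝ) * ((e.repr (e a * e m) k : ℤ) : ℝ) := by
    rw [Matrix.mul_apply]
    have : ∀ m, LL e z k m * LL e w m l = ∑ a, ∑ b, z a * w b *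
        (((e.repr (e b * e l) m : ℤ) : ℝ) * ((e.repr (e a * e m) k : ℤ) : ℝ)) := by
      intro m
      rw [LL_apply, LL_apply, Finset.sum_mul_sum]
      refine Finset.sum_congr rfl fun a _ => Finset.sum_congr rfl fun b _ => ?_
      ring
    simp only [this, Finset.mul_sum]
    rw [Finset.sum_comm]
    refine Finset.sum_congr rfl fun a _ => ?_
    rw [Finset.sum_comm]
  rw [h2, h3]
  refine Finset.sum_congr rfl fun a _ => Finset.sum_congr rfl fun b _ => ?_
  rw [h1]

private theorem mR_co (x y : O) : mR e (co e x) (co e y) = co e (x * y) := by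
  funext k
  change ∑ i, ∑ j, ((e.repr x i : ℤ) : ℝ) * ((e.repr y j : ℤ) : ℝ) *
    ((e.repr (e i * e j) k : ℤ) : ℝ) = ((e.repr (x * y) k : ℤ) : ℝ)
  rw [repr_mul_aux]
  push_cast
  rfl

private theorem LL_trace (x : O) : (LL e (co e x)).trace = ((tr x : ℤ) : ℝ) := by
  have h1 : tr x = ∑ k, e.repr (x * e k) k := by
    unfold tr
    rw [LinearMap.trace_eq_matrix_trace ℤ e]
    refine Finset.sum_congr rfl fun k _ => ?_
    rw [Matrix.diag_apply, LinearMap.toMatrix_apply, LinearMap.mulLeft_apply]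
  rw [h1, Int.cast_sum]
  refine Finset.sum_congr rfl fun k _ => ?_
  rw [Matrix.diag_apply, LL_co]

private theorem LL_form (x y : Fin N → ℝ) : x ⬝ᵥ (Tm e *ᵥ y) = (LL e x * LL e y).trace := by
  have h1 : mR e x y = ∑ i, ∑ j, (x i * y j) • co e (e i * e j) := by
    funext k
    rw [Finset.sum_apply]
    refine Finset.sum_congr rfl fun i _ => ?_
    rw [Finset.sum_apply]
    rfl
  have h2 : ∀ i j, (LL e (co e (e i * e j))).trace = Tm e i j := fun i j => LL_trace e _
  rw [← LL_mR, h1, map_sum, Matrix.trace_sum]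
  change ∑ i, x i * ∑ j, Tm e i j * y j = _
  refine Finset.sum_congr rfl fun i _ => ?_
  rw [map_sum, Matrix.trace_sum, Finset.mul_sum]
  refine Finset.sum_congr rfl fun j _ => ?_
  rw [map_smul, Matrix.trace_smul, h2, smul_eq_mul]
  ring

private theorem mR_one (x : Fin N → ℝ) : mR e (co e 1) x = x ∧ mR e x (co e 1) = x := by
  constructor
  · have h1 : LL e (co e (1 : O)) = 1 := by
      ext k j
      rw [LL_co, one_mul, e.repr_self, Finsupp.single_apply, Matrix.one_apply]
      by_cases h : k = j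
      · rw [if_pos h.symm, if_pos h, Int.cast_one]
      · rw [if_neg (Ne.symm h), if_neg h, Int.cast_zero]
    rw [← LL_mulVec, h1, one_mulVec]
  · funext k
    change ∑ i, ∑ j, x i * ((e.repr (1 : O) j : ℤ) : ℝ) * ((e.repr (e i * e j) k : ℤ) : ℝ) = x k
    have h1 : ∀ i, ∑ j, x i * ((e.repr (1 : O) j : ℤ) : ℝ) * ((e.repr (e i * e j) k : ℤ) : ℝ) =
        x i * ((e.repr (e i) k : ℤ) : ℝ) := by
      intro i
      have h2 := repr_right_aux e 1 i k
      rw [mul_one] at h2
      rw [h2, Int.cast_sum, Finset.mul_sum]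
      refine Finset.sum_congr rfl fun j _ => ?_
      rw [Int.cast_mul]
      ring
    rw [Finset.sum_congr rfl fun i _ => h1 i, Finset.sum_eq_single k]
    · rw [e.repr_self, Finsupp.single_eq_same, Int.cast_one, mul_one]
    · intro i _ hik
      rw [e.repr_self, Finsupp.single_apply, if_neg hik, Int.cast_zero, mul_zero]
    · intro h
      exact absurd (Finset.mem_univ k) h

end

theorem tLmul : S_lmul := by
  intro N O _ e
  exact ⟨LL e, LL_mulVec e, LL_mR e, mR_co e, LL_trace e, LL_form e, mR_one e⟩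

end Pool.Agent.ZR
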