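import Pool.Agent.Lib.MP_8f66f0_al_ZR.Spec

/-!
# PROJECT ZERO, part R: elements of bounded norm
-/

set_option autoImplicit false

namespace Pool.Agent.ZR

open Matrix Module

namespace LoAux

variable {N : ℕ}

/-- A positive definite form is bounded below on the unit sphere. -/
theorem exists_low (A : Matrix (Fin N) (Fin N) ℝ) (hA : A.PosDef) :
    ∃ c : ℝ, 0 < c ∧ ∀ v : Fin N → ℝ, c * (v ⬝ᵥ v) ≤ v ⬝ᵥ (A *ᵥ v) := by
  have hf : Continuous fun v : Fin N → ℝ => v ⬝ᵥ (A *ᵥ v) := by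
    unfold dotProduct mulVec dotProduct
    fun_prop
  have hg : Continuous fun v : Fin N → ℝ => v ⬝ᵥ v := by
    unfold dotProduct
    fun_prop
  have hpos : ∀ v : Fin N → ℝ, v ≠ 0 → 0 < v ⬝ᵥ (A *ᵥ v) := by
    intro v hv
    have h := hA.dotProduct_mulVec_pos hv
    rwa [star_trivial] at h
  have hdp : ∀ v : Fin N → ℝ, v ≠ 0 → 0 < v ⬝ᵥ v := by
    intro v hv
    have h1 : 0 ≤ v ⬝ᵥ v := Finset.sum_nonneg fun i _ => mul_self_nonneg (v i)
    rcases h1.eq_or_lt with h | h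
    · exact absurd (dotProduct_self_eq_zero.1 h.symm) hv
    · exact h
  have hsc : ∀ (s : ℝ) (v : Fin N → ℝ), (s • v) ⬝ᵥ (A *ᵥ (s • v)) = s ^ 2 * (v ⬝ᵥ (A *ᵥ v)) := by
    intro s v
    rw [mulVec_smul, smul_dotProduct, dotProduct_smul, smul_eq_mul, smul_eq_mul]
    ring
  have hsc2 : ∀ (s : ℝ) (v : Fin N → ℝ), (s • v) ⬝ᵥ (s • v) = s ^ 2 * (v ⬝ᵥ v) := by
    intro s v
    rw [smul_dotProduct, dotProduct_smul, smul_eq_mul, smul_eq_mul]
    ring
  have hS : IsCompact {v : Fin N → ℝ | v ⬝ᵥ v = 1} := by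
    apply Metric.isCompact_of_isClosed_isBounded (isClosed_eq hg continuous_const)
    rw [Metric.isBounded_iff_subset_closedBall 0]
    refine ⟨1, fun v hv => ?_⟩
    rw [mem_closedBall_zero_iff, pi_norm_le_iff_of_nonneg zero_le_one]
    intro i
    rw [Real.norm_eq_abs, ← sq_le_one_iff_abs_le_one]
    have hv1 : v ⬝ᵥ v = 1 := hv
    calc v i ^ 2 = v i * v i := _root_.sq _
      _ ≤ ∑ j, v j * v j := Finset.single_le_sum (f := fun j => v j * v j)
          (fun j _ => mul_self_nonneg (v j)) (Finset.mem_univ i)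
      _ = 1 := hv1
  have hunit : ∀ v : Fin N → ℝ, v ≠ 0 →
      (Real.sqrt (v ⬝ᵥ v))⁻¹ • v ∈ {v : Fin N → ℝ | v ⬝ᵥ v = 1} := by
    intro v hv
    have h1 := hdp v hv
    show ((Real.sqrt (v ⬝ᵥ v))⁻¹ • v) ⬝ᵥ ((Real.sqrt (v ⬝ᵥ v))⁻¹ • v) = 1
    rw [hsc2, inv_pow, Real.sq_sqrt h1.le, inv_mul_cancel₀ h1.ne']
  by_cases hne : {v : Fin N → ℝ | v ⬝ᵥ v = 1}.Nonempty
  · obtain ⟨v0, hv0, hmin⟩ := hS.exists_isMinOn hne hf.continuousOn
    have hv00 : v0 ≠ 0 := by
      rintro rfl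
      have : (0 : Fin N → ℝ) ⬝ᵥ 0 = 1 := hv0
      rw [zero_dotProduct] at this
      exact zero_ne_one this
    refine ⟨v0 ⬝ᵥ (A *ᵥ v0), hpos v0 hv00, fun v => ?_⟩
    by_cases hv : v = 0
    · rw [hv, mulVec_zero, zero_dotProduct, mul_zero]
    · have h1 := hdp v hv
      have h2 : v0 ⬝ᵥ (A *ᵥ v0) ≤
          ((Real.sqrt (v ⬝ᵥ v))⁻¹ • v) ⬝ᵥ (A *ᵥ ((Real.sqrt (v ⬝ᵥ v))⁻¹ • v)) :=
        hmin (hunit v hv)
      rw [hsc, inv_pow, Real.sq_sqrt h1.le, inv_mul_eq_div, le_div_iff₀ h1] at h2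
      exact h2
  · refine ⟨1, one_pos, fun v => ?_⟩
    have hv : v = 0 := by
      by_contra hv
      exact hne ⟨_, hunit v hv⟩
    rw [hv, mulVec_zero, zero_dotProduct, mul_zero]

end LoAux

/-- Elements of bounded norm. -/
theorem lo : S_Lo := by
  intro O _ N e A hA
  obtain ⟨c, hc, hlow⟩ := LoAux.exists_low A hA
  have hdp : ∀ x : O, co e x ⬝ᵥ co e x = ∑ i, ((e.repr x i ^ 2 : ℤ) : ℝ) := by
    intro x
    refine Finset.sum_congr rfl fun i _ => ?_
    unfold co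
    push_cast
    ring
  have hnn : ∀ (x : O) (i : Fin N), 0 ≤ ((e.repr x i ^ 2 : ℤ) : ℝ) := by
    intro x i
    push_cast
    positivity
  constructor
  · refine ⟨c, hc, fun x hx => ?_⟩
    have h1 : ∃ i, e.repr x i ≠ 0 := by
      by_contra hno
      push Not at hno
      apply hx
      apply e.repr.injective
      rw [map_zero]
      ext i
      exact hno i
    obtain ⟨i, hi⟩ := h1
    have h2 : (1 : ℝ) ≤ co e x ⬝ᵥ co e x := by
      rw [hdp]
      have h3 : (1 : ℤ) ≤ e.repr x i ^ 2 := by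
        have := sq_pos_of_ne_zero hi
        omega
      calc (1 : ℝ) ≤ ((e.repr x i ^ 2 : ℤ) : ℝ) := by exact_mod_cast h3
        _ ≤ ∑ j, ((e.repr x j ^ 2 : ℤ) : ℝ) :=
          Finset.single_le_sum (f := fun j => ((e.repr x j ^ 2 : ℤ) : ℝ))
            (fun j _ => hnn x j) (Finset.mem_univ i)
    calc c = c * 1 := (mul_one c).symm
      _ ≤ c * (co e x ⬝ᵥ co e x) := mul_le_mul_of_nonneg_left h2 hc.le
      _ ≤ sq e A x := hlow _
  · intro r
    have hinj : Function.Injective fun (x : O) (i : Fin N) => e.repr x i := by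
      intro x y h
      apply e.repr.injective
      ext i
      exact congrFun h i
    refine ((Set.finite_Icc (fun _ : Fin N => -⌈r / c⌉) (fun _ : Fin N => ⌈r / c⌉)).preimage
      hinj.injOn).subset fun x hx => ?_
    have hx' : sq e A x ≤ r := hx
    have h1 : ∀ i, |e.repr x i| ≤ ⌈r / c⌉ := by
      intro i
      have h2 : c * ((e.repr x i ^ 2 : ℤ) : ℝ) ≤ r := by
        calc c * ((e.repr x i ^ 2 : ℤ) : ℝ) ≤ c * (co e x ⬝ᵥ co e x) := by
              apply mul_le_mul_of_nonneg_left _ hc.le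
              rw [hdp]
              exact Finset.single_le_sum (f := fun j => ((e.repr x j ^ 2 : ℤ) : ℝ))
                (fun j _ => hnn x j) (Finset.mem_univ i)
          _ ≤ sq e A x := hlow _
          _ ≤ r := hx'
      have h3 : ((e.repr x i ^ 2 : ℤ) : ℝ) ≤ r / c := by
        rw [le_div_iff₀ hc, mul_comm]
        exact h2
      have h4 : |e.repr x i| ≤ e.repr x i ^ 2 := by
        rw [← sq_abs]
        rcases (abs_nonneg (e.repr x i)).eq_or_lt with h | h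
        · rw [← h]
          norm_num
        · nlinarith
      have h5 : (e.repr x i ^ 2 : ℤ) ≤ ⌈r / c⌉ := by
        have := h3.trans (Int.le_ceil (r / c))
        exact_mod_cast this
      exact h4.trans h5
    show (fun i => e.repr x i) ∈ Set.Icc _ _
    rw [Set.mem_Icc]
    exact ⟨fun i => (abs_le.1 (h1 i)).1, fun i => (abs_le.1 (h1 i)).2⟩

end Pool.Agent.ZR
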