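import Pool.Agent.Lib.MP_8f66f0_al_ZR.SpecB

/-!
# PROJECT ZERO, part R: a positive definite form is bounded below (TASK Low)
-/

set_option autoImplicit false

namespace Pool.Agent.ZR

open Matrix Module

private theorem cont_form {m : ℕ} (G : Matrix (Fin m) (Fin m) ℝ) :
    Continuous fun x : Fin m → ℝ => x ⬝ᵥ (G *ᵥ x) := by
  have h : (fun x : Fin m → ℝ => x ⬝ᵥ (G *ᵥ x)) = fun x => ∑ i, x i * ∑ j, G i j * x j := rfl
  rw [h]
  fun_prop

private theorem compact_sph (m : ℕ) : IsCompact {x : Fin m → ℝ | ∑ i, x i ^ 2 = 1} := by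
  refine Metric.isCompact_of_isClosed_isBounded (isClosed_eq (by fun_prop) continuous_const) ?_
  refine (Metric.isBounded_closedBall (x := (0 : Fin m → ℝ)) (r := 1)).subset ?_
  intro x hx
  rw [mem_closedBall_zero_iff, pi_norm_le_iff_of_nonneg zero_le_one]
  intro i
  have h1 : x i ^ 2 ≤ 1 := by
    have h2 : ∑ i, x i ^ 2 = 1 := hx
    rw [← h2]
    exact Finset.single_le_sum (f := fun i => x i ^ 2) (fun j _ => _root_.sq_nonneg _)
      (Finset.mem_univ i)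
  rw [Real.norm_eq_abs]
  exact abs_le_one_iff_mul_self_le_one.2 (by rw [← pow_two]; exact h1)

theorem tLow : S_low := by
  intro m G hG
  by_cases hm : Nonempty (Fin m)
  swap
  · refine ⟨1, one_pos, fun x => ?_⟩
    have : IsEmpty (Fin m) := not_nonempty_iff.1 hm
    simp [dotProduct]
  obtain ⟨i0⟩ := hm
  have hne : ({x : Fin m → ℝ | ∑ i, x i ^ 2 = 1}).Nonempty := by
    refine ⟨Pi.single i0 1, ?_⟩
    show ∑ i, (Pi.single i0 (1 : ℝ) : Fin m → ℝ) i ^ 2 = 1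
    rw [Finset.sum_eq_single i0]
    · rw [Pi.single_eq_same, one_pow]
    · intro j _ hj
      rw [Pi.single_eq_of_ne hj]
      norm_num
    · intro h
      exact absurd (Finset.mem_univ i0) h
  obtain ⟨x0, hx0, hmin⟩ := (compact_sph m).exists_isMinOn hne (cont_form G).continuousOn
  have hx0' : ∑ i, x0 i ^ 2 = 1 := hx0
  have hx0ne : x0 ≠ 0 := by
    intro h
    rw [h] at hx0'
    simp at hx0'
  have hpos : 0 < x0 ⬝ᵥ (G *ᵥ x0) := by
    have := hG.dotProduct_mulVec_pos hx0ne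
    simpa using this
  refine ⟨x0 ⬝ᵥ (G *ᵥ x0), hpos, fun x => ?_⟩
  have hs : 0 ≤ ∑ i, x i ^ 2 := Finset.sum_nonneg fun i _ => _root_.sq_nonneg _
  rcases hs.eq_or_lt with h | h
  · have hx : x = 0 := by
      funext i
      have h1 := (Finset.sum_eq_zero_iff_of_nonneg (fun i _ => _root_.sq_nonneg (x i))).1 h.symm i
        (Finset.mem_univ i)
      exact pow_eq_zero_iff (two_ne_zero) |>.1 h1
    rw [hx]
    simp
  · set t : ℝ := √(∑ i, x i ^ 2) with ht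
    have ht0 : 0 < t := Real.sqrt_pos.2 h
    have ht2 : t ^ 2 = ∑ i, x i ^ 2 := Real.sq_sqrt hs
    have hy : (t⁻¹ • x) ∈ {x : Fin m → ℝ | ∑ i, x i ^ 2 = 1} := by
      show ∑ i, (t⁻¹ • x) i ^ 2 = 1
      have h1 : ∀ i, (t⁻¹ • x) i ^ 2 = (t⁻¹) ^ 2 * x i ^ 2 := fun i => by
        rw [Pi.smul_apply, smul_eq_mul, mul_pow]
      rw [Finset.sum_congr rfl fun i _ => h1 i, ← Finset.mul_sum, ← ht2, ← mul_pow,
        inv_mul_cancel₀ ht0.ne', one_pow]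
    have h2 : x0 ⬝ᵥ (G *ᵥ x0) ≤ (t⁻¹ • x) ⬝ᵥ (G *ᵥ (t⁻¹ • x)) := hmin hy
    rw [mulVec_smul, smul_dotProduct, dotProduct_smul, smul_eq_mul, smul_eq_mul] at h2
    rw [← ht2]
    have h3 : x0 ⬝ᵥ (G *ᵥ x0) * t ^ 2 ≤ (t⁻¹ * (t⁻¹ * (x ⬝ᵥ (G *ᵥ x)))) * t ^ 2 :=
      mul_le_mul_of_nonneg_right h2 (_root_.sq_nonneg t)
    have h4 : (t⁻¹ * (t⁻¹ * (x ⬝ᵥ (G *ᵥ x)))) * t ^ 2 = x ⬝ᵥ (G *ᵥ x) := by
      field_simp
    rw [h4] at h3
    exact h3

end Pool.Agent.ZR
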