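import Pool.Agent.Lib.MP_8f66f0_al_ZR.SpecB

/-!
# PROJECT ZERO, part R: the norms are submultiplicative
-/

set_option autoImplicit false

namespace Pool.Agent.ZR

open Matrix Module

theorem tMul (h1 : S_lmul) (h2 : S_adj) (h3 : S_hs) : S_mul := by
  intro N O _ e A hA x y
  obtain ⟨hpos, S, hS, hSS, hanti⟩ := hA
  obtain ⟨L, l1, l2, l3, -, l5, -⟩ := h1 N O e
  obtain ⟨a1, a2⟩ := h2 N O e L A S l1 l2 l5 hS hSS hanti
  have hu : IsUnit A.det := (hpos.det_pos.ne').isUnit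
  have key : ∀ z : Fin N → ℝ, z ⬝ᵥ (A *ᵥ z) = (L z * A⁻¹ * (L z)ᵀ * A).trace := by
    intro z
    rw [a2 z, Matrix.mul_assoc (L z * A⁻¹), a1 z, Matrix.mul_assoc (L z) A⁻¹,
      ← Matrix.mul_assoc A⁻¹, Matrix.nonsing_inv_mul A hu, Matrix.one_mul]
  have hsq : ∀ w : O, sq e A w = (L (co e w) * A⁻¹ * (L (co e w))ᵀ * A).trace := fun w =>
    key (co e w)
  rw [hsq, hsq, hsq, ← l3 x y, l2]
  exact h3 N A (L (co e x)) (L (co e y)) hpos

end Pool.Agent.ZR
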