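import Pool.Agent.Lib.MP_8f66f0_al_ZR.Spec

/-!
# PROJECT ZERO, part R: the nilpotence
-/

set_option autoImplicit false

namespace Pool.Agent.ZR

open Matrix Module

namespace NilAux

variable {O : Type} [Ring O] {N : ℕ} (e : Basis (Fin N) ℤ O)

/-- the elements of square norm at most `r` -/
def ball (A : Matrix (Fin N) (Fin N) ℝ) (r : ℝ) : Submodule ℤ O :=
  Submodule.span ℤ {x : O | sq e A x ≤ r}

theorem ball_mul {A : Matrix (Fin N) (Fin N) ℝ} (hA : A.PosDef)
    (hm : ∀ x y : O, sq e A (x * y) ≤ sq e A x * sq e A y) {r s : ℝ} (hr : 0 ≤ r) :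
    ball e A r * ball e A s ≤ ball e A (r * s) := by
  unfold ball
  rw [Submodule.span_mul_span, Submodule.span_le]
  rintro _ ⟨u, hu, v, hv, rfl⟩
  exact Submodule.subset_span
    ((hm u v).trans (mul_le_mul hu hv (sq_nonneg e hA v) hr))

theorem pow_le {A : Matrix (Fin N) (Fin N) ℝ} (hA : A.PosDef)
    (hm : ∀ x y : O, sq e A (x * y) ≤ sq e A x * sq e A y) {r : ℝ} (hr : 0 ≤ r)
    {S : Submodule ℤ O} (hS : S ≤ ball e A r) (k : ℕ) : S ^ (k + 1) ≤ ball e A (r ^ (k + 1)) := by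
  induction k with
  | zero =>
    rw [zero_add, pow_one, pow_one]
    exact hS
  | succ k ih =>
    rw [pow_succ S, pow_succ r]
    exact (mul_le_mul' ih hS).trans (ball_mul e hA hm (pow_nonneg hr _))

theorem ball_bot {A : Matrix (Fin N) (Fin N) ℝ} {c r : ℝ} (hc : ∀ x : O, x ≠ 0 → c ≤ sq e A x)
    (hr : r < c) : ball e A r = (⊥ : Submodule ℤ O) := by
  unfold ball
  rw [Submodule.span_eq_bot]
  intro x hx
  by_contra h
  exact absurd (hc x h) (not_le.2 (lt_of_le_of_lt hx hr))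

theorem lift {W S : Submodule ℤ O} (h : ∀ w ∈ W, ∃ n : ℤ, n ≠ 0 ∧ n • w ∈ S) (k : ℕ) :
    ∀ x ∈ W ^ k, ∃ n : ℤ, n ≠ 0 ∧ n • x ∈ S ^ k := by
  induction k with
  | zero =>
    intro x hx
    refine ⟨1, one_ne_zero, ?_⟩
    rw [one_smul, pow_zero]
    rwa [pow_zero] at hx
  | succ k ih =>
    intro x hx
    rw [pow_succ] at hx
    rw [pow_succ]
    refine Submodule.mul_induction_on hx ?_ ?_
    · intro a ha b hb
      obtain ⟨n, hn, hna⟩ := ih a ha
      obtain ⟨m, hm, hmb⟩ := h b hb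
      refine ⟨n * m, mul_ne_zero hn hm, ?_⟩
      rw [← smul_mul_smul_comm]
      exact Submodule.mul_mem_mul hna hmb
    · rintro a b ⟨n, hn, hna⟩ ⟨m, hm, hmb⟩
      refine ⟨n * m, mul_ne_zero hn hm, ?_⟩
      rw [smul_add]
      refine Submodule.add_mem _ ?_ ?_
      · rw [mul_comm, mul_smul]
        exact Submodule.smul_mem _ _ hna
      · rw [mul_smul]
        exact Submodule.smul_mem _ _ hmb

include e in
theorem tf {A : Matrix (Fin N) (Fin N) ℝ} (hA : A.PosDef) {n : ℤ} (hn : n ≠ 0) {x : O}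
    (h : n • x = 0) : x = 0 := by
  by_contra hx
  have h1 := sq_pos e hA hx
  have h2 := sq_zsmul e A n x
  rw [h, sq_zero] at h2
  have h3 : (0 : ℝ) < (n : ℝ) ^ 2 := by
    have : (n : ℝ) ≠ 0 := Int.cast_ne_zero.2 hn
    positivity
  have h4 := mul_pos h3 h1
  linarith

end NilAux

open NilAux in
theorem nil (h : S_Lo) : S_Nil := by
  intro O _ N e A hA hm W r hW hr0 hr1 hS
  have hle : Submodule.span ℤ {x | x ∈ W ∧ sq e A x ≤ r} ≤ ball e A r :=
    Submodule.span_mono fun x hx => hx.2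
  refine ⟨?_, fun hout => ?_⟩
  · obtain ⟨⟨c, hc, hlo⟩, -⟩ := h O N e A hA
    obtain ⟨k, hk⟩ := exists_pow_lt_of_lt_one hc hr1
    refine ⟨k + 1, ?_⟩
    have h1 : r ^ (k + 1) < c := by
      refine lt_of_le_of_lt ?_ hk
      rw [pow_succ]
      exact mul_le_of_le_one_right (pow_nonneg hr0.le k) hr1.le
    have h2 := pow_le e hA hm hr0.le hle k
    rw [ball_bot e hlo h1] at h2
    rw [eq_bot_iff]
    intro x hx
    obtain ⟨n, hn, hnx⟩ := lift (fun w hw => hS hw) (k + 1) x hx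
    have h3 := h2 hnx
    rw [Submodule.mem_bot] at h3 ⊢
    exact tf e hA hn h3
  · have h1 : Submodule.span ℤ {x | x ∈ W ∧ sq e A x ≤ r} *
        Submodule.span ℤ {x | x ∈ W ∧ sq e A x ≤ r} ≤ W := by
      rw [Submodule.span_mul_span, Submodule.span_le]
      rintro _ ⟨u, hu, v, hv, rfl⟩
      by_contra h2
      have h3 := hout _ h2
      have h4 : sq e A (u * v) ≤ r * r :=
        (hm u v).trans (mul_le_mul hu.2 hv.2 (sq_nonneg e hA v) hr0.le)
      have h5 : r * r ≤ r := mul_le_of_le_one_right hr0.le hr1.le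
      exact absurd h3 (not_lt.2 (h4.trans h5))
    rw [Submodule.mul_le]
    intro x hx y hy
    obtain ⟨n, hn, hnx⟩ := hS hx
    obtain ⟨m, hm', hmy⟩ := hS hy
    refine hW (n * m) (x * y) (mul_ne_zero hn hm') ?_
    rw [← smul_mul_smul_comm]
    exact h1 (Submodule.mul_mem_mul hnx hmy)

end Pool.Agent.ZR
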