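import Pool.Agent.Lib.MP_8f66f0_al_ZR.SpecB

/-!
# PROJECT ZERO, part R: a shortest vector is part of a basis
-/

set_option autoImplicit false

namespace Pool.Agent.ZR

open Matrix Module

section prm

variable {m : ℕ} (G : Matrix (Fin (m + 1)) (Fin (m + 1)) ℝ)

private theorem prm_smul (n : ℤ) (x : Fin (m + 1) → ℤ) :
    qf G (n • x) = (n : ℝ) ^ 2 * qf G x := by
  have h1 : (fun i => (((n • x) i : ℤ) : ℝ)) = (n : ℝ) • fun i => (x i : ℝ) := by
    funext i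
    rw [Pi.smul_apply, Pi.smul_apply, smul_eq_mul, smul_eq_mul, Int.cast_mul]
  unfold qf
  rw [h1, mulVec_smul, smul_dotProduct, dotProduct_smul, smul_eq_mul, smul_eq_mul]
  ring

private theorem prm_conj (M A : Matrix (Fin (m + 1)) (Fin (m + 1)) ℝ) (u v : Fin (m + 1) → ℝ) :
    u ⬝ᵥ ((Mᵀ * A * M) *ᵥ v) = (M *ᵥ u) ⬝ᵥ (A *ᵥ (M *ᵥ v)) := by
  rw [← mulVec_mulVec, ← mulVec_mulVec, mulVec_transpose, dotProduct_comm, ← dotProduct_mulVec,
    dotProduct_comm]

private theorem prm_iR (U : Matrix (Fin (m + 1)) (Fin (m + 1)) ℤ) (x : Fin (m + 1) → ℤ) :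
    iR U *ᵥ (fun i => (x i : ℝ)) = fun i => (((U *ᵥ x) i : ℤ) : ℝ) := by
  funext i
  simp only [mulVec, dotProduct, iR, map_apply, Int.cast_sum, Int.cast_mul]

private theorem prm_qf (U : Matrix (Fin (m + 1)) (Fin (m + 1)) ℤ) (x : Fin (m + 1) → ℤ) :
    qf ((iR U)ᵀ * G * iR U) x = qf G (U *ᵥ x) := by
  unfold qf
  rw [prm_conj, prm_iR]

private theorem prm_zz : qf G (Pi.single 0 1) = G 0 0 := by
  unfold qf
  have h1 : (fun i => (((Pi.single 0 1 : Fin (m + 1) → ℤ) i : ℤ) : ℝ)) = Pi.single 0 1 := by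
    funext i
    by_cases h : i = 0
    · rw [h, Pi.single_eq_same, Pi.single_eq_same, Int.cast_one]
    · rw [Pi.single_eq_of_ne h, Pi.single_eq_of_ne h, Int.cast_zero]
  rw [h1, single_dotProduct, mulVec_single_one, one_mul]
  rfl

private theorem prm_min (h : S_low) (hG : G.PosDef) : ∃ x : Fin (m + 1) → ℤ, x ≠ 0 ∧
    ∀ y : Fin (m + 1) → ℤ, y ≠ 0 → qf G x ≤ qf G y := by
  obtain ⟨c, hc, h1⟩ := h (m + 1) G hG
  have hfin : {x : Fin (m + 1) → ℤ | x ≠ 0 ∧ qf G x ≤ qf G (Pi.single 0 1)}.Finite := by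
    refine (Set.finite_Icc (fun _ => -⌈qf G (Pi.single 0 1) / c⌉)
      (fun _ => ⌈qf G (Pi.single 0 1) / c⌉)).subset ?_
    rintro x ⟨-, hx⟩
    have h2 : ∀ i, |x i| ≤ ⌈qf G (Pi.single 0 1) / c⌉ := by
      intro i
      have h3 : ((x i : ℤ) : ℝ) ^ 2 ≤ ∑ j, ((x j : ℤ) : ℝ) ^ 2 :=
        Finset.single_le_sum (f := fun j => ((x j : ℤ) : ℝ) ^ 2) (fun j _ => _root_.sq_nonneg _)
          (Finset.mem_univ i)
      have h4 : c * ∑ j, ((x j : ℤ) : ℝ) ^ 2 ≤ qf G (Pi.single 0 1) :=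
        (h1 fun j => (x j : ℝ)).trans hx
      have h5 : ((x i : ℤ) : ℝ) ^ 2 ≤ qf G (Pi.single 0 1) / c := by
        rw [le_div_iff₀ hc, mul_comm]
        exact (mul_le_mul_of_nonneg_left h3 hc.le).trans h4
      have h6 : ((|x i| : ℤ) : ℝ) ≤ ((x i : ℤ) : ℝ) ^ 2 := by
        have h7 : |x i| ≤ x i ^ 2 := by
          rcases eq_or_ne (x i) 0 with h8 | h8
          · rw [h8]
            norm_num
          · have h9 : 1 ≤ |x i| := Int.one_le_abs h8
            rw [← sq_abs]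
            nlinarith
        exact_mod_cast h7
      have h8 := (h6.trans h5).trans (Int.le_ceil _)
      exact_mod_cast h8
    exact ⟨fun i => (abs_le.1 (h2 i)).1, fun i => (abs_le.1 (h2 i)).2⟩
  have hne : {x : Fin (m + 1) → ℤ | x ≠ 0 ∧ qf G x ≤ qf G (Pi.single 0 1)}.Nonempty := by
    refine ⟨Pi.single 0 1, ?_, le_rfl⟩
    intro h2
    have h3 := congrFun h2 0
    rw [Pi.single_eq_same] at h3
    exact one_ne_zero h3
  obtain ⟨x, ⟨hx0, hx1⟩, hx⟩ := Set.exists_min_image _ (qf G) hfin hne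
  refine ⟨x, hx0, fun y hy => ?_⟩
  by_cases h2 : qf G y ≤ qf G (Pi.single 0 1)
  · exact hx y ⟨hy, h2⟩
  · exact hx1.trans (not_le.1 h2).le

private theorem prm_pos (h : S_low) (hG : G.PosDef) {x : Fin (m + 1) → ℤ} (hx : x ≠ 0) :
    0 < qf G x := by
  obtain ⟨c, hc, h1⟩ := h (m + 1) G hG
  obtain ⟨i, hi⟩ := Function.ne_iff.1 hx
  refine lt_of_lt_of_le ?_ (h1 fun j => (x j : ℝ))
  refine mul_pos hc (Finset.sum_pos' (fun j _ => _root_.sq_nonneg _) ⟨i, Finset.mem_univ i, ?_⟩)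
  have h2 : ((x i : ℤ) : ℝ) ≠ 0 := by exact_mod_cast hi
  positivity

private theorem prm_sat (h : S_low) (hG : G.PosDef) {x : Fin (m + 1) → ℤ} (hx : x ≠ 0)
    (hmin : ∀ y : Fin (m + 1) → ℤ, y ≠ 0 → qf G x ≤ qf G y) {n k : ℤ} (hn : n ≠ 0)
    {y : Fin (m + 1) → ℤ} (hy : n • y = k • x) : ∃ q : ℤ, y = q • x := by
  have hp := prm_pos G h hG hx
  refine ⟨k / n, ?_⟩
  have h1 : n • (y - (k / n) • x) = (k % n) • x := by
    rw [smul_sub, hy, smul_smul, ← sub_smul]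
    congr 1
    have := Int.emod_add_mul_ediv k n
    linarith
  by_contra h2
  have h3 : y - (k / n) • x ≠ 0 := fun h => h2 (sub_eq_zero.1 h)
  have h4 := congrArg (qf G) h1
  rw [prm_smul, prm_smul] at h4
  have h5 := hmin _ h3
  have h6 : (k % n) ^ 2 < n ^ 2 := by
    have h7 := Int.emod_nonneg k hn
    have h8 := Int.emod_lt_abs k hn
    rw [← sq_abs n]
    nlinarith
  have h9 : (((k % n : ℤ) : ℝ)) ^ 2 < ((n : ℤ) : ℝ) ^ 2 := by exact_mod_cast h6
  have h10 : ((n : ℤ) : ℝ) ^ 2 * qf G x ≤ (((k % n : ℤ) : ℝ)) ^ 2 * qf G x := by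
    rw [← h4]
    exact mul_le_mul_of_nonneg_left h5 (by positivity)
  have h11 : (((k % n : ℤ) : ℝ)) ^ 2 * qf G x < ((n : ℤ) : ℝ) ^ 2 * qf G x :=
    mul_lt_mul_of_pos_right h9 hp
  linarith

private theorem prm_basis {x : Fin (m + 1) → ℤ} (hx : x ≠ 0)
    (hs : ∀ (n k : ℤ) (y : Fin (m + 1) → ℤ), n ≠ 0 → n • y = k • x → ∃ q : ℤ, y = q • x) :
    ∃ b : Basis (Fin (m + 1)) ℤ (Fin (m + 1) → ℤ), b 0 = x := by
  let N : Submodule ℤ (Fin (m + 1) → ℤ) := Submodule.span ℤ {x}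
  have htf : Module.IsTorsionFree ℤ ((Fin (m + 1) → ℤ) ⧸ N) := by
    constructor
    intro c hc
    have hc0 : c ≠ 0 := hc.ne_zero
    rw [isSMulRegular_iff_right_eq_zero_of_smul]
    intro z hz
    obtain ⟨y, rfl⟩ := N.mkQ_surjective z
    rw [← map_smul, Submodule.mkQ_apply, Submodule.Quotient.mk_eq_zero,
      Submodule.mem_span_singleton] at hz
    obtain ⟨k, hk⟩ := hz
    obtain ⟨q, hq⟩ := hs c k y hc0 hk.symm
    rw [Submodule.mkQ_apply, Submodule.Quotient.mk_eq_zero, Submodule.mem_span_singleton]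
    exact ⟨q, hq.symm⟩
  have hfree : Module.Free ℤ ((Fin (m + 1) → ℤ) ⧸ N) := Module.free_of_finite_type_torsion_free'
  have hrk : Module.finrank ℤ ((Fin (m + 1) → ℤ) ⧸ N) = m := by
    have h1 := Submodule.finrank_quotient_add_finrank N
    have h2 : Module.finrank ℤ N = 1 :=
      (LinearEquiv.toSpanNonzeroSingleton ℤ (Fin (m + 1) → ℤ) x hx).finrank_eq.symm.trans
        (Module.finrank_self ℤ)
    have h3 : Module.finrank ℤ (Fin (m + 1) → ℤ) = m + 1 := Module.finrank_fin_fun ℤ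
    rw [h2, h3] at h1
    omega
  let b' : Basis (Fin m) ℤ ((Fin (m + 1) → ℤ) ⧸ N) := Module.finBasisOfFinrankEq ℤ _ hrk
  obtain ⟨s, hs1⟩ := Module.projective_lifting_property N.mkQ (LinearMap.id) N.mkQ_surjective
  have hs2 : ∀ z, N.mkQ (s z) = z := fun z => LinearMap.congr_fun hs1 z
  have hinj : Function.Injective s := fun a b h => by rw [← hs2 a, h, hs2]
  let b'' : Basis (Fin m) ℤ (LinearMap.range s) := b'.map (LinearEquiv.ofInjective s hinj)
  refine ⟨Basis.mkFinCons x b'' ?_ ?_, ?_⟩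
  · rintro c _ ⟨z, rfl⟩ h
    have h1 := congrArg N.mkQ h
    have h2 : N.mkQ x = 0 := by
      rw [Submodule.mkQ_apply, Submodule.Quotient.mk_eq_zero]
      exact Submodule.mem_span_singleton_self x
    rw [map_add, map_smul, h2, smul_zero, zero_add, hs2, map_zero] at h1
    rw [h1, map_zero, add_zero] at h
    exact (smul_eq_zero.1 h).resolve_right hx
  · intro z
    have h1 : z - s (N.mkQ z) ∈ N := by
      rw [← Submodule.Quotient.mk_eq_zero, ← Submodule.mkQ_apply, map_sub, hs2, sub_self]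
    obtain ⟨k, hk⟩ := Submodule.mem_span_singleton.1 h1
    refine ⟨-k, N.mkQ z, ?_⟩
    rw [neg_smul, hk]
    abel
  · rw [Basis.coe_mkFinCons]
    rfl

end prm

theorem tPrm (h : S_low) : S_prm := by
  intro m G hG
  obtain ⟨x, hx, hmin⟩ := prm_min G h hG
  obtain ⟨b, hb⟩ := prm_basis hx fun n k y hn hy => prm_sat G h hG hx hmin hn hy
  let st := Pi.basisFun ℤ (Fin (m + 1))
  have hUV : st.toMatrix b * b.toMatrix st = 1 := Basis.toMatrix_mul_toMatrix_flip _ _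
  have hVU : b.toMatrix st * st.toMatrix b = 1 := Basis.toMatrix_mul_toMatrix_flip _ _
  refine ⟨st.toMatrix b, b.toMatrix st, hUV, hVU, fun z hz => ?_⟩
  refine (prm_zz _).symm.le.trans ?_
  rw [prm_qf, prm_qf]
  have h1 : st.toMatrix b *ᵥ Pi.single 0 1 = x := by
    rw [mulVec_single_one]
    funext i
    change st.repr (b 0) i = x i
    rw [hb]
    rfl
  rw [h1]
  refine hmin _ fun h2 => hz ?_
  have h3 := congrArg (fun w => b.toMatrix st *ᵥ w) h2
  simp only [mulVec_mulVec, hVU, one_mulVec, mulVec_zero] at h3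
  exact h3

end Pool.Agent.ZR
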