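import Pool.Agent.Lib.MP_8f66f0_al_ZR.SpecB

/-! # PROJECT ZERO, part R: properness -/

set_option autoImplicit false

namespace Pool.Agent.ZR

open Matrix Module

private theorem mt_inj {O : Type} [Ring O] {N : ℕ} (e : Basis (Fin N) ℤ O) {g h : O ≃+* O}
    (H : mt e g = mt e h) : g = h := by
  apply RingEquiv.ext
  intro x
  apply co_inj e
  rw [co_map, co_map, H]

theorem tPrp (h : S_ubd) : S_prp := by
  intro N O _ e C hC hpos
  obtain ⟨c, c', hc, hc', hcc⟩ := h N C hC hpos
  obtain ⟨K, hK⟩ := exists_nat_ge (c' / c)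
  have hfin : (Set.univ.pi fun _ : Fin N => Set.univ.pi fun _ : Fin N =>
      Set.Icc (-(K : ℤ)) (K : ℤ)).Finite :=
    Set.Finite.pi' (fun _ => Set.Finite.pi' (fun _ => Set.finite_Icc _ _)) |>.subset (by
      intro f hf i j
      exact hf i (Set.mem_univ i) j (Set.mem_univ j))
  have hinj : Function.Injective (fun g : O ≃+* O => fun j i : Fin N => e.repr (g (e j)) i) := by
    intro g h' hgh
    apply mt_inj e
    ext i j
    have := congrFun (congrFun hgh j) i
    unfold mt
    rw [Matrix.of_apply, Matrix.of_apply]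
    exact congrArg (Int.cast : ℤ → ℝ) this
  refine (hfin.preimage (hinj.injOn (s := _))).subset ?_
  rintro g ⟨A, hA, hgA⟩
  intro j _ i _
  have h1 : co e (e j) = Pi.single j 1 := by
    funext k
    unfold co
    rw [e.repr_self, Finsupp.single_apply, Pi.single_apply]
    by_cases hk : j = k
    · rw [if_pos hk, if_pos hk.symm, Int.cast_one]
    · rw [if_neg hk, if_neg (Ne.symm hk), Int.cast_zero]
  have h2 : ∑ k, (co e (e j) k) ^ 2 = 1 := by
    rw [h1]
    simp [Pi.single_apply]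
  have h3 : sq e A (e j) ≤ c' := by
    have := (hcc A hA (co e (e j))).2
    rw [h2, mul_one] at this
    exact this
  have h4 := (hcc _ hgA (co e (g (e j)))).1
  have h5 : co e (g (e j)) ⬝ᵥ (act e g A *ᵥ co e (g (e j))) = sq e A (e j) := sq_act e g A (e j)
  rw [h5] at h4
  have h6 : (co e (g (e j)) i) ^ 2 ≤ ∑ k, (co e (g (e j)) k) ^ 2 :=
    Finset.single_le_sum (fun k _ => _root_.sq_nonneg (co e (g (e j)) k)) (Finset.mem_univ i)
  have h7 : (co e (g (e j)) i) ^ 2 ≤ c' / c := by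
    rw [le_div_iff₀ hc, mul_comm]
    exact (mul_le_mul_of_nonneg_left h6 hc.le).trans (h4.trans h3)
  have h8 : (((e.repr (g (e j)) i) ^ 2 : ℤ) : ℝ) ≤ ((K : ℤ) : ℝ) := by
    rw [Int.cast_pow, Int.cast_natCast]
    exact h7.trans hK
  have h9 : (e.repr (g (e j)) i) ^ 2 ≤ (K : ℤ) := by exact_mod_cast h8
  have h10 : |e.repr (g (e j)) i| ≤ (K : ℤ) := by
    refine le_trans ?_ h9
    rw [← sq_abs]
    exact Int.le_self_sq _
  exact Set.mem_Icc.2 (abs_le.1 h10)

end Pool.Agent.ZR
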