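import Pool.Agent.Lib.MP_8f66f0_al_ZR.SpecB

/-!
# PROJECT ZERO, part R: the reduction theorem (module Red)
-/

set_option autoImplicit false

namespace Pool.Agent.ZR

open Matrix Module

private theorem redMap {m : ℕ} (U V : Matrix (Fin m) (Fin m) ℤ) :
    iR (U * V) = iR U * iR V := by
  ext i j
  simp [iR, Matrix.mul_apply, Matrix.map_apply]

private theorem redOne {m : ℕ} : iR (1 : Matrix (Fin m) (Fin m) ℤ) = 1 :=
  Matrix.map_one _ Int.cast_zero Int.cast_one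

private theorem redPos {m : ℕ} {G : Matrix (Fin m) (Fin m) ℝ} (hG : G.PosDef)
    {U V : Matrix (Fin m) (Fin m) ℤ} (hVU : V * U = 1) : ((iR U)ᵀ * G * iR U).PosDef := by
  have h1 : Function.Injective (iR U).mulVec := by
    intro u v huv
    have h2 : iR V *ᵥ (iR U *ᵥ u) = iR V *ᵥ (iR U *ᵥ v) := congrArg (fun w => iR V *ᵥ w) huv
    rw [mulVec_mulVec, mulVec_mulVec, ← redMap, hVU, redOne, one_mulVec, one_mulVec] at h2
    exact h2
  have h2 := hG.conjTranspose_mul_mul_same (B := iR U) h1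
  have h3 : (iR U)ᴴ = (iR U)ᵀ := by
    ext i j
    rw [conjTranspose_apply, transpose_apply, star_trivial]
  rw [h3] at h2
  exact h2

private theorem redDet {m : ℕ} (G : Matrix (Fin m) (Fin m) ℝ)
    {U V : Matrix (Fin m) (Fin m) ℤ} (hUV : U * V = 1) :
    ((iR U)ᵀ * G * iR U).det = G.det := by
  have h1 : (iR U).det = ((U.det : ℤ) : ℝ) := by
    have h2 : iR U = (Int.castRingHom ℝ).mapMatrix U := rfl
    rw [h2, ← RingHom.map_det]
    rfl
  have h2 : U.det * V.det = 1 := by rw [← det_mul, hUV, det_one]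
  have h3 : U.det = 1 ∨ U.det = -1 := Int.isUnit_iff.1 (IsUnit.of_mul_eq_one _ h2)
  rw [det_mul, det_mul, det_transpose, h1]
  rcases h3 with h | h <;> rw [h] <;> norm_num

private theorem redExp (m : ℕ) : (4 / 3 : ℝ) ^ m * cH m = cH (m + 1) := by
  unfold cH
  rw [← pow_add]
  congr 1
  rcases m with _ | k
  · rfl
  · have h1 : (k + 1 + 1) * (k + 1 + 1 - 1) = (k + 1) * (k + 1 - 1) + (k + 1) * 2 := by
      rw [Nat.add_sub_cancel, Nat.add_sub_cancel]
      ring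
    rw [h1, Nat.add_mul_div_right _ _ (by norm_num : 0 < 2)]
    ring

theorem tRed (h1 : S_prm) (h2 : S_sch) (h3 : S_stp) : S_red := by
  intro m
  induction m with
  | zero =>
    intro G _
    refine ⟨1, 1, by rw [Matrix.one_mul], by rw [Matrix.one_mul], ?_⟩
    simp [cH]
  | succ m ih =>
    intro G hG
    obtain ⟨U₁, V₁, hUV₁, hVU₁, hmin⟩ := h1 m G hG
    have hG1 : ((iR U₁)ᵀ * G * iR U₁).PosDef := redPos hG hVU₁
    have hdet1 : ((iR U₁)ᵀ * G * iR U₁).det = G.det := redDet G hUV₁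
    generalize hG1def : (iR U₁)ᵀ * G * iR U₁ = G₁ at hG1 hdet1 hmin
    obtain ⟨h00, hschp, hschd⟩ := h2 m G₁ hG1
    obtain ⟨U', V', hUV', hVU', hprod⟩ := ih (sch G₁) hschp
    obtain ⟨U₂, V₂, hUV₂, hVU₂, hfirst, hrest⟩ := h3 m G₁ hG1 hmin U' V' hUV' hVU'
    have hcomp : (iR (U₁ * U₂))ᵀ * G * iR (U₁ * U₂) = (iR U₂)ᵀ * G₁ * iR U₂ := by
      rw [redMap, transpose_mul, ← hG1def]
      simp only [Matrix.mul_assoc]
    refine ⟨U₁ * U₂, V₂ * V₁, ?_, ?_, ?_⟩
    · rw [Matrix.mul_assoc, ← Matrix.mul_assoc U₂, hUV₂, Matrix.one_mul, hUV₁]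
    · rw [Matrix.mul_assoc, ← Matrix.mul_assoc V₁, hVU₁, Matrix.one_mul, hVU₂]
    · rw [hcomp, Fin.prod_univ_succ, hfirst]
      have hp2 : ((iR U₂)ᵀ * G₁ * iR U₂).PosDef := redPos hG1 hVU₂
      have hle : ∏ i : Fin m, ((iR U₂)ᵀ * G₁ * iR U₂) i.succ i.succ ≤
          ∏ i : Fin m, (4 / 3 * ((iR U')ᵀ * sch G₁ * iR U') i i) :=
        Finset.prod_le_prod (fun i _ => (hp2.diag_pos).le) (fun i _ => hrest i)
      have hle2 : ∏ i : Fin m, (4 / 3 * ((iR U')ᵀ * sch G₁ * iR U') i i) ≤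
          (4 / 3 : ℝ) ^ m * (cH m * (sch G₁).det) := by
        rw [Finset.prod_mul_distrib, Finset.prod_const, Finset.card_univ, Fintype.card_fin]
        exact mul_le_mul_of_nonneg_left hprod (by positivity)
      calc G₁ 0 0 * ∏ i : Fin m, ((iR U₂)ᵀ * G₁ * iR U₂) i.succ i.succ
          ≤ G₁ 0 0 * ((4 / 3 : ℝ) ^ m * (cH m * (sch G₁).det)) :=
            mul_le_mul_of_nonneg_left (hle.trans hle2) h00.le
        _ = cH (m + 1) * G.det := by
            rw [← hdet1, hschd, ← redExp]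
            ring

end Pool.Agent.ZR
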