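import Pool.Agent.Lib.MP_8f66f0_al_ZR.SpecB

/-!
# PROJECT ZERO, part R: the reduction theorem for `O`
-/

set_option autoImplicit false

namespace Pool.Agent.ZR

open Matrix Module

private theorem RedO_co {O : Type} [Ring O] {N : ℕ} (e : Basis (Fin N) ℤ O)
    (U : Matrix (Fin N) (Fin N) ℤ) (i : Fin N) :
    co e (Matrix.toLin e e U (e i)) = fun k => ((U k i : ℤ) : ℝ) := by
  classical
  funext k
  unfold co
  rw [Matrix.toLin_self, map_sum, Finsupp.finsetSum_apply]
  congr 1
  rw [Finset.sum_eq_single k]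
  · rw [map_smul, Finsupp.smul_apply, e.repr_self, Finsupp.single_eq_same, smul_eq_mul, mul_one]
  · intro j _ hj
    rw [map_smul, Finsupp.smul_apply, e.repr_self, Finsupp.single_apply, if_neg hj, smul_zero]
  · intro h
    exact absurd (Finset.mem_univ k) h

private theorem RedO_diag {N : ℕ} (A : Matrix (Fin N) (Fin N) ℝ) (U : Matrix (Fin N) (Fin N) ℤ)
    (i : Fin N) :
    (fun k => ((U k i : ℤ) : ℝ)) ⬝ᵥ (A *ᵥ fun k => ((U k i : ℤ) : ℝ)) =
      ((iR U)ᵀ * A * iR U) i i := by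
  rw [Matrix.mul_assoc]
  rfl

theorem tRedO (h : S_red) : S_redO := by
  intro N O _ e A hA
  obtain ⟨U, V, hUV, hVU, hp⟩ := h N A hA
  have h1 : (Matrix.toLin e e U).comp (Matrix.toLin e e V) = LinearMap.id := by
    rw [← Matrix.toLin_mul, hUV, Matrix.toLin_one]
  have h2 : (Matrix.toLin e e V).comp (Matrix.toLin e e U) = LinearMap.id := by
    rw [← Matrix.toLin_mul, hVU, Matrix.toLin_one]
  refine ⟨e.map (LinearEquiv.ofLinear (Matrix.toLin e e U) (Matrix.toLin e e V) h1 h2), ?_⟩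
  refine le_trans (le_of_eq ?_) hp
  refine Finset.prod_congr rfl fun i _ => ?_
  rw [← RedO_diag, Basis.map_apply, LinearEquiv.ofLinear_apply]
  unfold sq bl
  rw [RedO_co]

end Pool.Agent.ZR
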