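import Pool.Agent.Lib.MP_8f66f0_al_ZR.Spec

/-!
# PROJECT ZERO, part R: ranks of saturated subgroups (module Rk)
-/

set_option autoImplicit false

namespace Pool.Agent.ZR

open Matrix Module

namespace RkAux

variable {O : Type} [Ring O] {N : ℕ}

/-- a saturated subgroup of the same rank -/
theorem eq_of_finrank [Module.Free ℤ O] [Module.Finite ℤ O] {V W : Submodule ℤ O} (hV : Sat V)
    (hVW : V ≤ W) (h : finrank ℤ W ≤ finrank ℤ V) : V = W := by
  refine le_antisymm hVW fun x hx => ?_
  by_contra hxV
  let b : Basis (Fin (finrank ℤ V)) ℤ V := Module.finBasis ℤ V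
  have hli : LinearIndependent ℤ (fun i => (b i : O)) :=
    b.linearIndependent.map' V.subtype (Submodule.ker_subtype V)
  have hspan : Submodule.span ℤ (Set.range fun i => (b i : O)) ≤ V := by
    rw [Submodule.span_le]
    rintro _ ⟨i, rfl⟩
    exact (b i).2
  have hcons : LinearIndependent ℤ (Fin.cons x (fun i => (b i : O)) :
      Fin (finrank ℤ V + 1) → O) := by
    refine LinearIndependent.finCons' x _ hli ?_
    intro c y hy hc
    by_contra h0
    refine hxV (hV c x h0 ?_)
    have h1 : c • x = -y := by
      rw [eq_neg_iff_add_eq_zero]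
      exact hc
    rw [h1]
    exact V.neg_mem (hspan hy)
  have hmem : ∀ i, (Fin.cons x (fun i => (b i : O)) : Fin (finrank ℤ V + 1) → O) i ∈ W := by
    intro i
    refine Fin.cases ?_ (fun j => ?_) i
    · rw [Fin.cons_zero]; exact hx
    · rw [Fin.cons_succ]; exact hVW (b j).2
  have hW : LinearIndependent ℤ (fun i => (⟨_, hmem i⟩ : W)) :=
    LinearIndependent.of_comp W.subtype hcons
  have hcard := hW.fintype_card_le_finrank
  rw [Fintype.card_fin] at hcard
  omega

end RkAux

open RkAux in
theorem rk : S_Rk := by
  intro O _ N e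
  have hfree : Module.Free ℤ O := Module.Free.of_basis e
  have hfin : Module.Finite ℤ O := Module.Finite.of_basis e
  have hN : finrank ℤ O = N := by
    rw [Module.finrank_eq_card_basis e, Fintype.card_fin]
  refine ⟨fun V W hV hVW h => eq_of_finrank hV hVW h, fun W => ?_, fun V W hVW => ?_,
    fun W hW => ?_, fun W hW hW' => ?_, fun g W => ?_⟩
  · rw [← hN]
    exact Submodule.finrank_le W
  · exact Submodule.finrank_mono hVW
  · have h1 : Nontrivial W := Submodule.nontrivial_iff_ne_bot.mpr hW
    exact Module.finrank_pos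
  · by_contra hlt
    refine hW' (eq_of_finrank hW le_top ?_)
    rw [finrank_top, hN]
    omega
  · have hinj : Function.Injective g.toAddEquiv.toAddMonoidHom.toIntLinearMap := g.injective
    exact (Submodule.equivMapOfInjective _ hinj W).finrank_eq.symm

end Pool.Agent.ZR
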