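import Pool.Agent.Lib.MP_8f66f0_al_ZR.SpecB

/-!
# The Schur complement
-/

set_option autoImplicit false

namespace Pool.Agent.ZR

open Matrix Module

namespace SchX

/-- the matrix of the change of coordinates -/
noncomputable def B {m : ℕ} (G : Matrix (Fin (m + 1)) (Fin (m + 1)) ℝ) :
    Matrix (Fin (m + 1)) (Fin m) ℝ :=
  fun a j => Fin.cases (-(G 0 j.succ) / G 0 0) (fun i => if i = j then 1 else 0) a

theorem B_zero {m : ℕ} (G : Matrix (Fin (m + 1)) (Fin (m + 1)) ℝ) (j : Fin m) :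
    B G 0 j = -(G 0 j.succ) / G 0 0 := rfl

theorem B_succ {m : ℕ} (G : Matrix (Fin (m + 1)) (Fin (m + 1)) ℝ) (i j : Fin m) :
    B G i.succ j = if i = j then 1 else 0 := rfl

theorem conj {m : ℕ} (G : Matrix (Fin (m + 1)) (Fin (m + 1)) ℝ) (h0 : G 0 0 ≠ 0)
    (hs : ∀ i j, G i j = G j i) : (B G)ᵀ * G * B G = sch G := by
  ext i j
  rw [Matrix.mul_apply, Fin.sum_univ_succ, Matrix.mul_apply, Fin.sum_univ_succ]
  have h1 : ∀ x : Fin m, ((B G)ᵀ * G) i x.succ * B G x.succ j =
      if x = j then ((B G)ᵀ * G) i x.succ else 0 := by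
    intro x
    rw [B_succ]
    split_ifs <;> simp
  rw [Finset.sum_congr rfl fun x _ => h1 x, Finset.sum_ite_eq' Finset.univ j]
  simp only [Finset.mem_univ, if_true]
  rw [Matrix.mul_apply, Fin.sum_univ_succ]
  have h2 : ∀ (y : Fin (m + 1)), ∑ x : Fin m, (B G)ᵀ i x.succ * G x.succ y = G i.succ y := by
    intro y
    have h3 : ∀ x : Fin m, (B G)ᵀ i x.succ * G x.succ y = if x = i then G x.succ y else 0 := by
      intro x
      rw [Matrix.transpose_apply, B_succ]
      split_ifs <;> simp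
    rw [Finset.sum_congr rfl fun x _ => h3 x, Finset.sum_ite_eq' Finset.univ i]
    simp
  rw [h2, h2, Matrix.transpose_apply, B_zero, B_zero]
  unfold sch
  rw [hs i.succ 0]
  field_simp
  ring

theorem inj {m : ℕ} (G : Matrix (Fin (m + 1)) (Fin (m + 1)) ℝ) :
    Function.Injective (B G).mulVec := by
  intro u v huv
  funext i
  have h1 := congrFun huv i.succ
  have h2 : ∀ w : Fin m → ℝ, (B G *ᵥ w) i.succ = w i := by
    intro w
    rw [Matrix.mulVec, dotProduct]
    simp [B_succ]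
  rw [h2, h2] at h1
  exact h1

theorem det_eq {m : ℕ} (G : Matrix (Fin (m + 1)) (Fin (m + 1)) ℝ) (h0 : G 0 0 ≠ 0) :
    G.det = G 0 0 * (sch G).det := by
  set M : Matrix (Fin (m + 1)) (Fin (m + 1)) ℝ := fun i j =>
    G i j + (Fin.cases 0 (fun a => -(G a.succ 0) / G 0 0) i : ℝ) * G 0 j with hM
  have h1 : M.det = G.det := by
    apply Matrix.det_eq_of_forall_row_eq_smul_add_const
      (fun i => (Fin.cases 0 (fun a => -(G a.succ 0) / G 0 0) i : ℝ)) 0 rfl
    intro i j
    rfl
  rw [← h1, Matrix.det_succ_column_zero, Fin.sum_univ_succ]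
  have h2 : ∀ i : Fin m, M i.succ 0 = 0 := by
    intro i
    rw [hM]
    change G i.succ 0 + -(G i.succ 0) / G 0 0 * G 0 0 = 0
    field_simp
    ring
  have h3 : M 0 0 = G 0 0 := by
    rw [hM]
    change G 0 0 + 0 * G 0 0 = G 0 0
    ring
  have h4 : M.submatrix (Fin.succAbove 0) Fin.succ = sch G := by
    ext i j
    rw [hM]
    change G i.succ j.succ + -(G i.succ 0) / G 0 0 * G 0 j.succ = G i.succ j.succ - G i.succ 0 * G 0 j.succ / G 0 0
    ring
  rw [h4, h3, Finset.sum_eq_zero (fun i _ => by rw [h2 i]; ring)]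
  simp

end SchX

theorem tSch : S_sch := by
  intro m G hG
  have h0 : 0 < G 0 0 := hG.diag_pos
  have hs : ∀ i j, G i j = G j i := by
    intro i j
    have := hG.isHermitian.apply i j
    rw [star_trivial] at this
    exact this.symm
  refine ⟨h0, ?_, SchX.det_eq G h0.ne'⟩
  rw [← SchX.conj G h0.ne' hs]
  have h2 := hG.conjTranspose_mul_mul_same (B := SchX.B G) (SchX.inj G)
  have h3 : (SchX.B G)ᴴ = (SchX.B G)ᵀ := by
    ext i j
    rw [conjTranspose_apply, transpose_apply, star_trivial]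
  rw [h3] at h2
  exact h2

end Pool.Agent.ZR
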