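import Pool.Agent.Lib.MP_8f66f0_al_ZR.SpecB

/-!
# PROJECT ZERO, part R: the step of the reduction
-/

set_option autoImplicit false

namespace Pool.Agent.ZR

open Matrix Module

private theorem stp_val {m : ℕ} (U : Matrix (Fin m) (Fin m) ℤ) (G : Matrix (Fin m) (Fin m) ℝ)
    (j : Fin m) : ((iR U)ᵀ * G * iR U) j j = qf G fun a => U a j := by
  unfold qf
  rw [Matrix.mul_assoc, Matrix.mul_apply]
  simp only [dotProduct, Matrix.mulVec]
  refine Finset.sum_congr rfl fun a _ => ?_
  rw [Matrix.mul_apply]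
  rfl

private theorem stp_qf {m : ℕ} (G : Matrix (Fin m) (Fin m) ℝ) (x : Fin m → ℤ) :
    qf G x = ∑ i, (x i : ℝ) * ∑ j, G i j * (x j : ℝ) := rfl

private theorem stp_cons {m : ℕ} (G : Matrix (Fin (m + 1)) (Fin (m + 1)) ℝ) (h0 : G 0 0 ≠ 0)
    (hs : ∀ a : Fin m, G a.succ 0 = G 0 a.succ) (x : Fin (m + 1) → ℤ) :
    qf G x = G 0 0 * ((x 0 : ℝ) + (∑ a : Fin m, G 0 a.succ * (x a.succ : ℝ)) / G 0 0) ^ 2 +
      qf (sch G) fun a => x a.succ := by
  have h1 : qf (sch G) (fun a => x a.succ) =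
      (∑ a : Fin m, (x a.succ : ℝ) * ∑ b : Fin m, G a.succ b.succ * (x b.succ : ℝ)) -
        (∑ a : Fin m, G 0 a.succ * (x a.succ : ℝ)) *
          ((∑ a : Fin m, G 0 a.succ * (x a.succ : ℝ)) / G 0 0) := by
    rw [stp_qf, Finset.sum_mul, ← Finset.sum_sub_distrib]
    refine Finset.sum_congr rfl fun a _ => ?_
    have h2 : ∑ b : Fin m, sch G a b * (x b.succ : ℝ) =
        (∑ b : Fin m, G a.succ b.succ * (x b.succ : ℝ)) -
          G 0 a.succ * ((∑ b : Fin m, G 0 b.succ * (x b.succ : ℝ)) / G 0 0) := by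
      rw [Finset.sum_div, Finset.mul_sum, ← Finset.sum_sub_distrib]
      refine Finset.sum_congr rfl fun b _ => ?_
      unfold sch
      rw [hs a]
      ring
    rw [h2]
    ring
  have h3 : qf G x = (x 0 : ℝ) * (G 0 0 * (x 0 : ℝ) + ∑ a : Fin m, G 0 a.succ * (x a.succ : ℝ)) +
      (∑ a : Fin m, (x a.succ : ℝ) * ∑ b : Fin m, G a.succ b.succ * (x b.succ : ℝ)) +
      (∑ a : Fin m, G 0 a.succ * (x a.succ : ℝ)) * (x 0 : ℝ) := by
    rw [stp_qf, Fin.sum_univ_succ, Fin.sum_univ_succ, add_assoc]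
    congr 1
    rw [Finset.sum_mul, ← Finset.sum_add_distrib]
    refine Finset.sum_congr rfl fun a _ => ?_
    rw [Fin.sum_univ_succ, hs a]
    ring
  rw [h1, h3]
  field_simp
  ring

theorem tStp (h : S_sch) : S_stp := by
  intro m G hG hmin U' V' hUV hVU
  obtain ⟨hpos, -, -⟩ := h m G hG
  have hs : ∀ a : Fin m, G a.succ 0 = G 0 a.succ := by
    intro a
    have h1 := hG.isHermitian.apply 0 a.succ
    rw [star_trivial] at h1
    exact h1
  set s : Fin m → ℝ := fun j => (∑ a : Fin m, G 0 a.succ * (U' a j : ℝ)) / G 0 0 with hsdef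
  set k : Fin m → ℤ := fun j => round (-(s j)) with hk
  set U : Matrix (Fin (m + 1)) (Fin (m + 1)) ℤ :=
    Matrix.of (Fin.cons (Fin.cons 1 k) fun a => Fin.cons 0 (U' a)) with hU
  set V : Matrix (Fin (m + 1)) (Fin (m + 1)) ℤ :=
    Matrix.of (Fin.cons (Fin.cons 1 fun j => -∑ a, k a * V' a j) fun a => Fin.cons 0 (V' a))
    with hV
  have U00 : U 0 0 = 1 := rfl
  have U0s : ∀ j : Fin m, U 0 j.succ = k j := fun j => rfl
  have Us0 : ∀ j : Fin m, U j.succ 0 = 0 := fun j => rfl
  have Uss : ∀ i j : Fin m, U i.succ j.succ = U' i j := fun i j => rfl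
  have V00 : V 0 0 = 1 := rfl
  have V0s : ∀ j : Fin m, V 0 j.succ = -∑ a, k a * V' a j := fun j => rfl
  have Vs0 : ∀ j : Fin m, V j.succ 0 = 0 := fun j => rfl
  have Vss : ∀ i j : Fin m, V i.succ j.succ = V' i j := fun i j => rfl
  have hUV' : ∀ i j : Fin m, ∑ a, U' i a * V' a j = if i = j then 1 else 0 := by
    intro i j
    rw [← Matrix.mul_apply, hUV, Matrix.one_apply]
  have hVU' : ∀ i j : Fin m, ∑ a, V' i a * U' a j = if i = j then 1 else 0 := by
    intro i j
    rw [← Matrix.mul_apply, hVU, Matrix.one_apply]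
  have one_ss : ∀ i j : Fin m, (1 : Matrix (Fin (m + 1)) (Fin (m + 1)) ℤ) i.succ j.succ =
      if i = j then 1 else 0 := by
    intro i j
    rw [Matrix.one_apply]
    simp only [Fin.succ_inj]
  refine ⟨U, V, ?_, ?_, ?_, ?_⟩
  · ext i j
    rw [Matrix.mul_apply, Fin.sum_univ_succ]
    refine Fin.cases ?_ (fun i => ?_) i <;> refine Fin.cases ?_ (fun j => ?_) j
    · simp only [U00, V00, Vs0, mul_zero, Finset.sum_const_zero, Matrix.one_apply_eq]
      norm_num
    · simp only [U00, V0s, U0s, Vss]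
      rw [Matrix.one_apply_ne (Fin.succ_ne_zero j).symm]
      ring
    · simp only [Us0, V00, Vs0, mul_zero, Finset.sum_const_zero]
      rw [Matrix.one_apply_ne (Fin.succ_ne_zero i)]
      ring
    · simp only [Us0, V0s, Uss, Vss]
      rw [hUV', one_ss]
      ring
  · ext i j
    rw [Matrix.mul_apply, Fin.sum_univ_succ]
    refine Fin.cases ?_ (fun i => ?_) i <;> refine Fin.cases ?_ (fun j => ?_) j
    · simp only [U00, V00, Us0, mul_zero, Finset.sum_const_zero, Matrix.one_apply_eq]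
      norm_num
    · simp only [V00, V0s, U0s, Uss]
      rw [Matrix.one_apply_ne (Fin.succ_ne_zero j).symm]
      have h1 : ∑ b, (-∑ a, k a * V' a b) * U' b j = -k j := by
        have h2 : ∑ b, (-∑ a, k a * V' a b) * U' b j = -∑ a, k a * ∑ b, V' a b * U' b j := by
          simp only [Finset.mul_sum, neg_mul, Finset.sum_neg_distrib, Finset.sum_mul]
          rw [Finset.sum_comm]
          congr 1
          refine Finset.sum_congr rfl fun a _ => Finset.sum_congr rfl fun b _ => ?_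
          ring
        rw [h2]
        simp only [hVU', mul_ite, mul_one, mul_zero, Finset.sum_ite_eq', Finset.mem_univ, if_true]
      rw [h1]
      ring
    · simp only [Vs0, U00, Us0, mul_zero, Finset.sum_const_zero]
      rw [Matrix.one_apply_ne (Fin.succ_ne_zero i)]
      ring
    · simp only [Vs0, Uss, Vss]
      rw [hVU', one_ss]
      ring
  · rw [stp_val, stp_cons G hpos.ne' hs]
    simp only [U00, Us0]
    unfold qf
    simp
  · intro i
    have hne : (fun a => U a i.succ) ≠ 0 := by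
      intro h0
      have h1 : ∀ a, U' a i = 0 := fun a => congrFun h0 a.succ
      have h2 := hVU' i i
      rw [if_pos rfl, Finset.sum_eq_zero (fun a _ => by rw [h1, mul_zero])] at h2
      exact zero_ne_one h2
    have h1 := hmin _ hne
    rw [stp_val]
    have h2 := stp_cons G hpos.ne' hs fun a => U a i.succ
    have h3 : ((iR U')ᵀ * sch G * iR U') i i = qf (sch G) fun a => U a.succ i.succ :=
      stp_val U' (sch G) i
    rw [h3]
    have h4 : |((U 0 i.succ : ℤ) : ℝ) + s i| ≤ 1 / 2 := by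
      have h5 := abs_sub_round (-(s i))
      rw [U0s, hk]
      rw [abs_sub_comm] at h5
      rw [sub_neg_eq_add] at h5
      exact h5
    have h5 : (((U 0 i.succ : ℤ) : ℝ) + s i) ^ 2 ≤ (1 / 2) ^ 2 := by
      rw [← sq_abs]
      exact pow_le_pow_left₀ (abs_nonneg _) h4 2
    have h6 : qf G (fun a => U a i.succ) =
        G 0 0 * (((U 0 i.succ : ℤ) : ℝ) + s i) ^ 2 + qf (sch G) fun a => U a.succ i.succ := h2
    have h7 : G 0 0 * (((U 0 i.succ : ℤ) : ℝ) + s i) ^ 2 ≤ G 0 0 * (1 / 2) ^ 2 :=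
      mul_le_mul_of_nonneg_left h5 hpos.le
    linarith

end Pool.Agent.ZR
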