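import Pool.Agent.Lib.MP_8f66f0_al_ZR.SpecB

/-!
# PROJECT ZERO, part R: the trace is bounded by the norm
-/

set_option autoImplicit false

namespace Pool.Agent.ZR

open Matrix Module

private theorem trbSymm {N : ℕ} {A : Matrix (Fin N) (Fin N) ℝ} (hA : A.PosDef)
    (x y : Fin N → ℝ) : x ⬝ᵥ (A *ᵥ y) = y ⬝ᵥ (A *ᵥ x) := by
  have h1 : Aᵀ = A := by
    have h := hA.isHermitian
    unfold Matrix.IsHermitian at h
    rw [Matrix.conjTranspose_eq_transpose_of_trivial] at h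
    exact h
  have h2 : A *ᵥ y = y ᵥ* A := by
    conv_lhs => rw [← h1]
    exact Matrix.mulVec_transpose A y
  rw [h2, dotProduct_comm, ← Matrix.dotProduct_mulVec]

private theorem trbNonneg {N : ℕ} {A : Matrix (Fin N) (Fin N) ℝ} (hA : A.PosDef)
    (x : Fin N → ℝ) : 0 ≤ x ⬝ᵥ (A *ᵥ x) := by
  by_cases h : x = 0
  · rw [h, zero_dotProduct]
  · have := hA.dotProduct_mulVec_pos h
    rw [star_trivial] at this
    exact this.le

private theorem trbCS {N : ℕ} {A : Matrix (Fin N) (Fin N) ℝ} (hA : A.PosDef)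
    (x y : Fin N → ℝ) :
    (x ⬝ᵥ (A *ᵥ y)) ^ 2 ≤ (x ⬝ᵥ (A *ᵥ x)) * (y ⬝ᵥ (A *ᵥ y)) := by
  have h : ∀ t : ℝ, 0 ≤ (y ⬝ᵥ (A *ᵥ y)) * (t * t) + (2 * (x ⬝ᵥ (A *ᵥ y))) * t +
      x ⬝ᵥ (A *ᵥ x) := by
    intro t
    have h1 := trbNonneg hA (x + t • y)
    rw [mulVec_add, dotProduct_add, add_dotProduct, add_dotProduct, mulVec_smul, dotProduct_smul,
      dotProduct_smul, smul_dotProduct, smul_dotProduct, trbSymm hA y x] at h1
    simp only [smul_eq_mul] at h1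
    nlinarith [h1]
  have h2 := discrim_le_zero h
  unfold discrim at h2
  nlinarith [h2]

theorem tTrb (h1 : S_lmul) (_h2 : S_adj) : S_trb := by
  intro N O _ e A hA x
  obtain ⟨hpd, S, hS1, hS2, hS3⟩ := hA
  obtain ⟨L, hL1, hL2, hL3, hL4, hL5, hL6⟩ := h1 N O e
  have hSS : ∀ y : Fin N → ℝ, S *ᵥ (S *ᵥ y) = y := by
    intro y
    rw [mulVec_mulVec, hS2, one_mulVec]
  have hr : ∀ y : Fin N → ℝ, mR e y (S *ᵥ co e 1) = y := by
    intro y
    have h := hS3 (co e 1) (S *ᵥ y)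
    rw [(hL6 (S *ᵥ y)).1, hSS] at h
    exact h.symm
  have hu : S *ᵥ co e 1 = co e 1 := by
    have h := hr (co e 1)
    rwa [(hL6 (S *ᵥ co e 1)).1] at h
  have hLu : ∀ z : Fin N → ℝ, L z * L (co e 1) = L z := by
    intro z
    rw [← hL2, (hL6 z).2]
  have htr : ∀ y : O, ((tr y : ℤ) : ℝ) = co e y ⬝ᵥ (A *ᵥ co e 1) := by
    intro y
    rw [← hS1, ← mulVec_mulVec, hu, hL5, hLu, hL4]
  have hone : ((tr (1 : O) : ℤ) : ℝ) = N := by
    have : Module.Free ℤ O := Module.Free.of_basis e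
    have : Module.Finite ℤ O := Module.Finite.of_basis e
    have h : tr (1 : O) = (N : ℤ) := by
      unfold tr
      rw [LinearMap.mulLeft_one, LinearMap.trace_id, Module.finrank_eq_card_basis e,
        Fintype.card_fin]
    rw [h, Int.cast_natCast]
  have hcs := trbCS hpd (co e x) (co e 1)
  rw [← htr x, ← htr 1, hone, mul_comm] at hcs
  exact hcs

end Pool.Agent.ZR
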