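import Pool.Agent.Lib.MP_8f66f0_al_ZR.Bridge
import Pool.Agent.Lib.MP_8f66f0_al_ZR.Lo
import Pool.Agent.Lib.MP_8f66f0_al_ZR.Rk
import Pool.Agent.Lib.MP_8f66f0_al_ZR.Lev
import Pool.Agent.Lib.MP_8f66f0_al_ZR.Chain
import Pool.Agent.Lib.MP_8f66f0_al_ZR.Lip
import Pool.Agent.Lib.MP_8f66f0_al_ZR.Eqv
import Pool.Agent.Lib.MP_8f66f0_al_ZR.Nil
import Pool.Agent.Lib.MP_8f66f0_al_ZR.Exi
import Pool.Agent.Lib.MP_8f66f0_al_ZR.Idl
import Pool.Agent.Lib.MP_8f66f0_al_ZR.ROut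
import Pool.Agent.Lib.MP_8f66f0_al_ZR.Low
import Pool.Agent.Lib.MP_8f66f0_al_ZR.Prm
import Pool.Agent.Lib.MP_8f66f0_al_ZR.Sch
import Pool.Agent.Lib.MP_8f66f0_al_ZR.Stp
import Pool.Agent.Lib.MP_8f66f0_al_ZR.Red
import Pool.Agent.Lib.MP_8f66f0_al_ZR.RedO
import Pool.Agent.Lib.MP_8f66f0_al_ZR.Bsc
import Pool.Agent.Lib.MP_8f66f0_al_ZR.Fbs
import Pool.Agent.Lib.MP_8f66f0_al_ZR.Cpt
import Pool.Agent.Lib.MP_8f66f0_al_ZR.Coc
import Pool.Agent.Lib.MP_8f66f0_al_ZR.Ubd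
import Pool.Agent.Lib.MP_8f66f0_al_ZR.Prp
import Pool.Agent.Lib.MP_8f66f0_al_ZR.Lmul
import Pool.Agent.Lib.MP_8f66f0_al_ZR.Adj
import Pool.Agent.Lib.MP_8f66f0_al_ZR.Hs
import Pool.Agent.Lib.MP_8f66f0_al_ZR.Mul
import Pool.Agent.Lib.MP_8f66f0_al_ZR.Trb
import Pool.Agent.Lib.MP_8f66f0_al_ZR.IsY

/-!
# PROJECT ZERO, part R (infinity): all statements are proved; the output

`isY_YO`: the space `YO e` of the positive involutions has the properties `IsY`;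
`rOut_YO`: the output `ROut e (YO e)` of part R.
-/

set_option autoImplicit false

namespace Pool.Agent.ZR

open Matrix Module

theorem pRed : S_red := tRed (tPrm tLow) tSch (tStp tSch)

theorem pCoc : S_coc := tCoc (tRedO pRed) tBsc tFbs tCpt

theorem pPrp : S_prp := tPrp tUbd

theorem pMul : S_mul := tMul tLmul tAdj tHs

theorem pTrb : S_trb := tTrb tLmul tAdj

theorem pIsY : S_isY := tIsY pMul

theorem pLev : S_Lev := lev_spec lo

theorem pROut : S_ROut :=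
  rOut pLev (chain pLev rk) (lip pLev) eqv (nil lo) (exi pLev (nil lo) rk) idl_spec
    (bridge_coc pCoc) (bridge_prp pPrp)

/-- **The space of the positive involutions.** -/
theorem isY_YO {O : Type} [Ring O] {N : ℕ} (e : Basis (Fin N) ℤ O) (h : (Tm e).det ≠ 0) :
    IsY e (YO e) |(Tm e).det| := pIsY N O e h

/-- **The output of part R** for the space of the positive involutions. -/
theorem rOut_YO {O : Type} [Ring O] [Nontrivial O] {N : ℕ} (e : Basis (Fin N) ℤ O)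
    (h : (Tm e).det ≠ 0) : ROut e (YO e) :=
  pROut O N e (YO e) |(Tm e).det| (abs_pos.2 h) (isY_YO e h)

end Pool.Agent.ZR
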