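import Pool.Agent.Lib.MP_8f66f0_al_ZR.Defs

/-!
# PROJECT ZERO, part R (infinity), first block

Every `def S_Foo : Prop` is one task: write `Pool/Agent/Lib/MP_8f66f0_al_ZR/Foo.lean` containing
`theorem foo (hyps S_... as allowed in the docstring) : S_Foo` in the namespace `Pool.Agent.ZR` (helper
lemmas in the namespace `Pool.Agent.ZR.FooAux`). All tasks are independent: the allowed statements are
hypotheses of the theorem. `O` is free over `ℤ` (basis `e`), so torsion-free and noetherian.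
-/

set_option autoImplicit false

namespace Pool.Agent.ZR

open Matrix Module

/-- (Lo) Elements of bounded norm.
PROOF. There is `c > 0` with `c * (v ⬝ᵥ v) ≤ v ⬝ᵥ A *ᵥ v` for all real vectors `v` (the smallest eigenvalue,
or: the minimum of `v ⬝ᵥ A *ᵥ v` on the compact set `v ⬝ᵥ v = 1` and homogeneity; if `N = 0` there is nothing
to prove). For `x ≠ 0` in `O` the vector `co e x` is a non-zero integer vector, `co e x ⬝ᵥ co e x ≥ 1`. For the
second part: `(e.repr x i)^2 ≤ r / c` for all `i`: finitely many possibilities, `e.repr` is injective. -/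
def S_Lo : Prop :=
  ∀ (O : Type) [Ring O] (N : ℕ) (e : Basis (Fin N) ℤ O) (A : Matrix (Fin N) (Fin N) ℝ), A.PosDef →
    (∃ c : ℝ, 0 < c ∧ ∀ x : O, x ≠ 0 → c ≤ sq e A x) ∧ ∀ r : ℝ, {x : O | sq e A x ≤ r}.Finite

/-- (Rk) Ranks of saturated subgroups.
PROOF. First part: if `x ∈ W`, `x ∉ V`, then `n • x ∉ V` for `n ≠ 0`, so a basis of `V` together with `x` is
linearly independent and the rank of `W` is larger than the rank of `V`. Second part: rank monotone, rank of `O`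
is `N` (`Module.finrank_eq_card_basis e`). Third part: torsion-free. Fourth part: the map is an isomorphism. -/
def S_Rk : Prop :=
  ∀ (O : Type) [Ring O] (N : ℕ) (_ : Basis (Fin N) ℤ O),
    (∀ V W : Submodule ℤ O, Sat V → V ≤ W → finrank ℤ W ≤ finrank ℤ V → V = W) ∧
    (∀ W : Submodule ℤ O, finrank ℤ W ≤ N) ∧
    (∀ V W : Submodule ℤ O, V ≤ W → finrank ℤ V ≤ finrank ℤ W) ∧
    (∀ W : Submodule ℤ O, W ≠ ⊥ → 1 ≤ finrank ℤ W) ∧
    (∀ W : Submodule ℤ O, Sat W → W ≠ ⊤ → finrank ℤ W + 1 ≤ N) ∧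
    ∀ (g : O ≃+* O) (W : Submodule ℤ O), finrank ℤ (mp g W) = finrank ℤ W

/-- (Lev) The meaning of `hh`. Allowed hypotheses: `S_Lo`.
PROOF. Let `c` be as in (Lo). The set of the `r` with `Spn e A W r` is not empty (`W` is finitely generated:
take the maximum of `sq` of the generators, `subset_satu`), upwards closed (`satu_mono`), and bounded below by
`c`: if `r < c` then `{x | x ∈ W ∧ sq e A x ≤ r} ⊆ {0}`, the saturation of `⊥` is `⊥`, so `W = ⊥`. So
`0 < c ≤ lev e A W`, and `Spn e A W r` for all `r > lev e A W`. The set `sq e A '' {x | x ∉ W}` is not empty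
(`W ≠ ⊤`) and bounded below by `c`: `c ≤ out e A W ≤ sq e A x` for `x ∉ W`.
First part: `Real.log (lev ..) + t < min (Real.log (out ..)) 0`; choose `r > lev` with
`Real.log r + t < min (..) 0` (`r = lev * exp ε` with small `ε > 0`) and exponentiate. Second part:
`lev ≤ r` (`csInf_le`), `exp t * r ≤ out` (`le_csInf`), `t + log r ≤ log out`, `t + log r ≤ 0`. -/
def S_Lev : Prop :=
  ∀ (O : Type) [Ring O] (N : ℕ) (e : Basis (Fin N) ℤ O) (A : Matrix (Fin N) (Fin N) ℝ), A.PosDef →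
    ∀ W : Submodule ℤ O, Ix W →
      (∀ t : ℝ, t < hh e A W → ∃ r : ℝ, 0 < r ∧ Spn e A W r ∧ Real.exp t * r < 1 ∧
        ∀ x : O, x ∉ W → Real.exp t * r < sq e A x) ∧
      ∀ t r : ℝ, 0 < r → Spn e A W r → Real.exp t * r ≤ 1 →
        (∀ x : O, x ∉ W → Real.exp t * r ≤ sq e A x) → t ≤ hh e A W

/-- (Chain) Allowed hypotheses: `S_Lev`, `S_Rk`.
PROOF. (Lev) with `t = 0`: numbers `r`, `r'` for `V`, `W`. If `r ≤ r'`: the elements `x` of `V` with
`sq x ≤ r ≤ r'` are in `W` (else `r' < sq x`), so `V ≤ satu {..} ≤ W` (`satu_le`). The same in the other case.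
So the set is a chain, and on it the rank is injective (Rk, first part) with values in `1, .., N - 1`
(Rk): finite with at most `N - 1` elements. Last part: `mp g W` and `W` have the same rank and are
comparable (Rk, `Ix.mp`). -/
def S_Chain : Prop :=
  ∀ (O : Type) [Ring O] (N : ℕ) (e : Basis (Fin N) ℤ O) (A : Matrix (Fin N) (Fin N) ℝ), A.PosDef →
    (∀ V W : Submodule ℤ O, Ix V → Ix W → 0 < hh e A V → 0 < hh e A W → V ≤ W ∨ W ≤ V) ∧
    {W : Submodule ℤ O | Ix W ∧ 0 < hh e A W}.Finite ∧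
    {W : Submodule ℤ O | Ix W ∧ 0 < hh e A W}.ncard ≤ N - 1 ∧
    ∀ (g : O ≃+* O) (W : Submodule ℤ O), Ix W → 0 < hh e A W → 0 < hh e A (mp g W) → mp g W = W

/-- (Lip) Allowed hypotheses: `S_Lev`.
PROOF. Let `t < hh e A W` be arbitrary, `r` as in (Lev). `Spn e A' W (exp s' * r)` because
`sq A x ≤ r` implies `sq A' x ≤ exp s' * r`. For `x ∉ W`:
`sq A' x ≥ exp (-s) * sq A x ≥ exp (t - s) * r = exp (t - s - s') * (exp s' * r)`, and
`exp (t - s - s') * (exp s' * r) = exp (-s) * (exp t * r) ≤ 1`. (Lev), second part: `t - s - s' ≤ hh e A' W`. -/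
def S_Lip : Prop :=
  ∀ (O : Type) [Ring O] (N : ℕ) (e : Basis (Fin N) ℤ O) (A A' : Matrix (Fin N) (Fin N) ℝ),
    A.PosDef → A'.PosDef → ∀ s s' : ℝ, 0 ≤ s → 0 ≤ s' →
    (∀ x : O, sq e A x ≤ Real.exp s * sq e A' x) → (∀ x : O, sq e A' x ≤ Real.exp s' * sq e A x) →
    ∀ W : Submodule ℤ O, Ix W → hh e A W ≤ hh e A' W + s + s'

/-- (Eqv) PROOF. `Spn e (act e g A) (mp g W) r ↔ Spn e A W r` for all `r` (`sq_act`, `map_mem_mp`, the map `g`
takes `satu S` to `satu (g '' S)`; it is enough to prove one direction for all `g` and to apply it to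
`g⁻¹`, `act_mul`, `mp_mul`), so `lev` is the same. `sq e (act e g A) '' {x | x ∉ mp g W} =
sq e A '' {x | x ∉ W}`, so `out` is the same. -/
def S_Eqv : Prop :=
  ∀ (O : Type) [Ring O] (N : ℕ) (e : Basis (Fin N) ℤ O) (A : Matrix (Fin N) (Fin N) ℝ)
    (g : O ≃+* O) (W : Submodule ℤ O), hh e (act e g A) (mp g W) = hh e A W

/-- (Nil) Allowed hypotheses: `S_Lo`.
PROOF. Let `T = {x | x ∈ W ∧ sq e A x ≤ r}`, `S = span ℤ T`. A product of `k` elements of `T` has square norm at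
most `r ^ k`, which is smaller than the `c` of (Lo) for large `k`: it vanishes. So `S ^ k = ⊥`
(`Submodule.span_pow`, or induction: `S ^ k` is spanned by products of square norm `≤ r ^ k`). Every `w ∈ W` has
`n • w ∈ S` with `n ≠ 0`. By induction on `k` every `x ∈ W ^ k` has `n • x ∈ S ^ k` with `n ≠ 0` (induction on
the span; `n n'` for sums and products). `O` is torsion-free, so `W ^ k = ⊥`. Second part: for `u, v ∈ T` one
has `sq (u * v) ≤ r * r ≤ r`, so `u * v ∈ W`; hence `S * S ≤ W`, and for `x, y ∈ W`: `n • x, m • y ∈ S`,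
`(n * m) • (x * y) ∈ W`, `W` is saturated. -/
def S_Nil : Prop :=
  ∀ (O : Type) [Ring O] (N : ℕ) (e : Basis (Fin N) ℤ O) (A : Matrix (Fin N) (Fin N) ℝ), A.PosDef →
    (∀ x y : O, sq e A (x * y) ≤ sq e A x * sq e A y) →
    ∀ (W : Submodule ℤ O) (r : ℝ), Sat W → 0 < r → r < 1 → Spn e A W r →
      (∃ k : ℕ, W ^ k = ⊥) ∧ ((∀ x : O, x ∉ W → r < sq e A x) → W * W ≤ W)

/-- (Exi) Allowed hypotheses: `S_Lev`, `S_Nil`, `S_Rk`.
PROOF. Let `r₀ = sq e A x > 0`, `S j = satu {y | sq e A y ≤ exp (j * K) * r₀}` for `j = 0, .., N`: increasing in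
`j` (`satu_mono`), all contain `x ≠ 0`, so their ranks are between `1` and `N`: there is `j < N` such that
`S j` and `S (j + 1)` have the same rank, so `S j = S (j + 1)` (Rk, `sat_satu`). Put `W = S j`,
`r = exp (j * K) * r₀`. `Spn e A W r` (the elements with `sq ≤ r` are in `W`). If `y ∉ W = S (j + 1)` then
`exp K * r = exp ((j+1) * K) * r₀ < sq e A y`. `exp K * r ≤ exp (N * K) * r₀ < 1`; also `r < 1` (`K ≥ 0`). `W ≠ ⊥`
as `x ∈ W`. `W ≠ ⊤`: otherwise `⊤ ^ k = ⊥` (Nil), but `1 = 1 ^ k ∈ ⊤ ^ k` and `O` is nontrivial. (Lev), second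
part, with `t = K`. -/
def S_Exi : Prop :=
  ∀ (O : Type) [Ring O] [Nontrivial O] (N : ℕ) (e : Basis (Fin N) ℤ O)
    (A : Matrix (Fin N) (Fin N) ℝ), A.PosDef →
    (∀ x y : O, sq e A (x * y) ≤ sq e A x * sq e A y) →
    ∀ K : ℝ, 0 ≤ K → ∀ x : O, x ≠ 0 → sq e A x < Real.exp (-(N * K)) →
      ∃ W : Submodule ℤ O, Ix W ∧ K ≤ hh e A W

/-- (Idl) The right ideal of a nilpotent subring.
PROOF. `idl W = satu (W * ⊤)` is saturated (`sat_satu`). It is closed under right multiplication: if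
`n • a ∈ W * ⊤` then `n • (a * x) = (n • a) * x ∈ W * ⊤`. It contains `W` (`w = w * 1`), so `≠ ⊥`. If it were
`⊤` then `n • 1 ∈ W * ⊤` for some `n ≠ 0`; by induction `n ^ j • 1 ∈ W ^ j * ⊤` for all `j`
(`n ^ (j+1) • 1 = n ^ j • (n • 1) ∈ n ^ j • (W * ⊤)`, and `n ^ j • (w * y) = w * (n ^ j • 1) * y`, which is in
`W * (W ^ j * ⊤) * ⊤ ≤ W ^ (j+1) * ⊤`); so `n ^ k • 1 = 0`, a contradiction (`O` is torsion-free and
nontrivial). Last part: `mp g (W * ⊤) = mp g W * ⊤`, `mp g (satu S) = satu (g '' S)`. -/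
def S_Idl : Prop :=
  ∀ (O : Type) [Ring O] [Nontrivial O] (N : ℕ) (_ : Basis (Fin N) ℤ O) (W : Submodule ℤ O),
    W ≠ ⊥ → (∃ k : ℕ, W ^ k = ⊥) →
    Ix (idl W) ∧ (∀ a ∈ idl W, ∀ x : O, a * x ∈ idl W) ∧
      ∀ g : O ≃+* O, mp g W = W → mp g (idl W) = idl W

/-! ### Statements of the second block which are used in the output (`SpecB`) -/

/-- (Coc) Cocompactness, see `SpecB`. -/
def S_Coc : Prop :=
  ∀ (O : Type) [Ring O] (N : ℕ) (e : Basis (Fin N) ℤ O) (Y : Set (Matrix (Fin N) (Fin N) ℝ))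
    (D : ℝ), 0 < D → IsY e Y D → ∀ c : ℝ, 0 < c →
    ∃ C : Set (Matrix (Fin N) (Fin N) ℝ), C ⊆ Y ∧ IsCompact C ∧
      ∀ A ∈ Y, (∀ x : O, x ≠ 0 → c ≤ sq e A x) → ∃ g : O ≃+* O, ∃ A₀ ∈ C, act e g A₀ = A

/-- (Prp) Properness, see `SpecB`. -/
def S_Prp : Prop :=
  ∀ (O : Type) [Ring O] (N : ℕ) (e : Basis (Fin N) ℤ O) (C : Set (Matrix (Fin N) (Fin N) ℝ)),
    IsCompact C → (∀ A ∈ C, A.PosDef) → {g : O ≃+* O | ∃ A ∈ C, act e g A ∈ C}.Finite

/-! ### The output -/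

/-- **The output of part R.** -/
structure ROut {O : Type} [Ring O] {N : ℕ} (e : Basis (Fin N) ℤ O)
    (Y : Set (Matrix (Fin N) (Fin N) ℝ)) : Prop where
  /-- the functions are Lipschitz -/
  lip : ∀ A ∈ Y, ∀ A' ∈ Y, ∀ s s' : ℝ, 0 ≤ s → 0 ≤ s' →
    (∀ x : O, sq e A x ≤ Real.exp s * sq e A' x) → (∀ x : O, sq e A' x ≤ Real.exp s' * sq e A x) →
    ∀ W : Submodule ℤ O, Ix W → |hh e A W - hh e A' W| ≤ s + s'
  /-- they are equivariant -/
  eqv : ∀ (g : O ≃+* O) (A : Matrix (Fin N) (Fin N) ℝ) (W : Submodule ℤ O),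
    hh e (act e g A) (mp g W) = hh e A W
  /-- the `W` with positive `hh` at one point are a chain -/
  chain : ∀ A ∈ Y, ∀ V W : Submodule ℤ O, Ix V → Ix W → 0 < hh e A V → 0 < hh e A W →
    V ≤ W ∨ W ≤ V
  fin : ∀ A ∈ Y, {W : Submodule ℤ O | Ix W ∧ 0 < hh e A W}.Finite
  card : ∀ A ∈ Y, {W : Submodule ℤ O | Ix W ∧ 0 < hh e A W}.ncard ≤ N - 1
  /-- different translates of `W` are never positive at the same point -/
  same : ∀ A ∈ Y, ∀ (g : O ≃+* O) (W : Submodule ℤ O), Ix W → 0 < hh e A W →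
    0 < hh e A (mp g W) → mp g W = W
  /-- the stabilizer of `W` fixes a proper non-zero saturated right ideal -/
  ideal : ∀ A ∈ Y, ∀ W : Submodule ℤ O, Ix W → 0 < hh e A W →
    W * W ≤ W ∧ (∃ k : ℕ, W ^ k = ⊥) ∧ Ix (idl W) ∧ (∀ a ∈ idl W, ∀ x : O, a * x ∈ idl W) ∧
      ∀ g : O ≃+* O, mp g W = W → mp g (idl W) = idl W
  /-- the rest is cocompact -/
  coc : ∀ K : ℝ, 0 ≤ K → ∃ C : Set (Matrix (Fin N) (Fin N) ℝ), C ⊆ Y ∧ IsCompact C ∧
    ∀ A ∈ Y, (∀ W : Submodule ℤ O, Ix W → hh e A W < K) → ∃ g : O ≃+* O, ∃ A₀ ∈ C, act e g A₀ = A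
  /-- the action is proper -/
  prp : ∀ C : Set (Matrix (Fin N) (Fin N) ℝ), IsCompact C → C ⊆ Y →
    {g : O ≃+* O | ∃ A ∈ C, act e g A ∈ C}.Finite

/-- (ROut) Allowed hypotheses: all statements above.
PROOF. `lip`: (Lip) twice. `ideal`: (Lev), first part, with `t = 0`, gives `r < 1`, then (Nil), (Idl).
`coc`: by (Exi) `exp (-(N * K)) ≤ sq e A x` for all `x ≠ 0`; (Coc). -/
def S_ROut : Prop :=
  ∀ (O : Type) [Ring O] [Nontrivial O] (N : ℕ) (e : Basis (Fin N) ℤ O)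
    (Y : Set (Matrix (Fin N) (Fin N) ℝ)) (D : ℝ), 0 < D → IsY e Y D → ROut e Y

end Pool.Agent.ZR
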