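import Pool.Agent.Lib.MP_8f66f0_al_ZR.DictT
import Pool.Agent.Lib.MP_8f66f0_al_ZR.Spec

/-!
# PROJECT ZERO, part R: the statement `S_R` of the architecture (`ZA/Ord.lean`)
-/

set_option autoImplicit false

namespace Pool.Agent.ZR

open Matrix Module Pool.Agent.ZA Filter Topology
open scoped TensorProduct Pointwise

/-- The index set at infinity. -/
def JR (O : Type) [Ring O] : Type := {W : Submodule ℤ O // Ix W}

instance (O : Type) [Ring O] : MulAction (RingAut O) (JR O) where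
  smul g W := ⟨mp g W.1, W.2.mp g⟩
  one_smul W := Subtype.ext (mp_one W.1)
  mul_smul g h W := Subtype.ext (mp_mul g h W.1)

theorem JR_smul {O : Type} [Ring O] (g : RingAut O) (W : JR O) : (g • W).1 = mp g W.1 := rfl

variable {O : Type} [Ring O] {N : ℕ} (e : Basis (Fin N) ℤ O)

/-- The functions at infinity. -/
noncomputable def uR (ε : ℝ) (W : JR O) (σ : PI O) : ℝ :=
  max 0 (min 1 (ε / 2 * hh e (mx e σ) W.1))

theorem uR_pos {ε : ℝ} (hε : 0 < ε) {W : JR O} {σ : PI O} (h : uR e ε W σ ≠ 0) :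
    0 < hh e (mx e σ) W.1 := by
  by_contra h1
  apply h
  unfold uR
  rw [max_eq_left]
  refine (min_le_right _ _).trans ?_
  exact mul_nonpos_of_nonneg_of_nonpos (by positivity) (not_lt.1 h1)

theorem small_aux (hR : ROut e (YO e)) {ε : ℝ} (hε : 0 < ε) (σ : PI O) (A : Set (JR O))
    (hA : A.Nonempty) (hu : ∀ W ∈ A, uR e ε W σ ≠ 0) (V : Subgroup (RingAut O))
    (hV : ∀ g ∈ V, g • A = A) : SmW V := by
  obtain ⟨W, hW⟩ := hA
  have h0 := uR_pos e hε (hu W hW)
  have h1 : ∀ g ∈ V, mp g W.1 = W.1 := by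
    intro g hg
    have h2 : g • W ∈ g • A := Set.smul_mem_smul_set hW
    rw [hV g hg] at h2
    have h5 := uR_pos e hε (hu _ h2)
    rw [JR_smul] at h5
    exact hR.same _ (mx_mem e σ) g W.1 W.2 h0 h5
  obtain ⟨h3, h4, -⟩ := hR.ideal _ (mx_mem e σ) W.1 W.2 h0
  refine ⟨W.1, W.2.ne_bot, fun x hx y hy => h3 (Submodule.mul_mem_mul hx hy), h4, ?_⟩
  intro g hg x hx
  have h5 : g x ∈ mp g W.1 := map_mem_mp.2 hx
  rwa [h1 g hg] at h5

theorem fin_aux (hR : ROut e (YO e)) {ε : ℝ} (hε : 0 < ε) (σ : PI O) :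
    {W : JR O | uR e ε W σ ≠ 0}.Finite ∧ {W : JR O | uR e ε W σ ≠ 0}.ncard ≤ N := by
  have h := hR.fin (mx e σ) (mx_mem e σ)
  have h1 := hR.card (mx e σ) (mx_mem e σ)
  have h3 : Set.InjOn (Subtype.val : JR O → Submodule ℤ O) {W : JR O | uR e ε W σ ≠ 0} :=
    fun _ _ _ _ h => Subtype.ext h
  have h4 : Set.MapsTo (Subtype.val : JR O → Submodule ℤ O) {W : JR O | uR e ε W σ ≠ 0}
      {W : Submodule ℤ O | Ix W ∧ 0 < hh e (mx e σ) W} :=
    fun W hW => ⟨W.2, uR_pos e hε hW⟩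
  refine ⟨Set.Finite.of_injOn h4 h3 h, ?_⟩
  exact (Set.ncard_le_ncard_of_injOn Subtype.val h4 h3 h).trans (h1.trans (Nat.sub_le _ _))

theorem inv_aux (hR : ROut e (YO e)) (ε : ℝ) (g : RingAut O) (W : JR O) (σ : PI O) :
    uR e ε (g • W) (g • σ) = uR e ε W σ := by
  unfold uR
  rw [JR_smul, mx_smul, hR.eqv]

/-- The family at infinity. -/
noncomputable def famR (hR : ROut e (YO e)) {ε : ℝ} (hε : 0 < ε) :
    Fam (RingAut O) (PI O) (fun g x => g • x) SmW N :=
  @Fam.mk (RingAut O) (PI O) _ (fun g x => g • x) SmW N (JR O) _ (uR e ε)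
    (fun _ _ => le_max_left _ _) (fun _ _ => max_le zero_le_one (min_le_left _ _))
    (inv_aux e hR ε) (fun σ => (fin_aux e hR hε σ).1) (fun σ => (fin_aux e hR hε σ).2)
    (small_aux e hR hε)

theorem hh_lip [MetricSpace (PI O)] (hT : IsTh O) (hR : ROut e (YO e)) (W : Submodule ℤ O)
    (hW : Ix W) (σ τ : PI O) :
    |hh e (mx e σ) W - hh e (mx e τ) W| ≤ 2 * dist σ τ := by
  have h := hR.lip _ (mx_mem e σ) _ (mx_mem e τ) (dist σ τ) (dist σ τ) dist_nonneg dist_nonneg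
    (fun x => sq_le e hT σ τ x) (fun x => by rw [dist_comm]; exact sq_le e hT τ σ x) W hW
  linarith

theorem uR_lip [MetricSpace (PI O)] (hT : IsTh O) (hR : ROut e (YO e)) {ε : ℝ} (hε : 0 < ε) :
    (famR e hR hε).Lip ε := by
  intro σ τ W
  have h := hh_lip e hT hR W.1 W.2 σ τ
  change |max 0 (min 1 (ε / 2 * hh e (mx e σ) W.1)) -
    max 0 (min 1 (ε / 2 * hh e (mx e τ) W.1))| ≤ ε * dist σ τ
  have h1 : |ε / 2 * hh e (mx e σ) W.1 - ε / 2 * hh e (mx e τ) W.1| ≤ ε * dist σ τ := by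
    rw [← mul_sub, abs_mul, abs_of_pos (by positivity : (0 : ℝ) < ε / 2)]
    calc ε / 2 * |hh e (mx e σ) W.1 - hh e (mx e τ) W.1| ≤ ε / 2 * (2 * dist σ τ) :=
          mul_le_mul_of_nonneg_left h (by positivity)
      _ = ε * dist σ τ := by ring
  refine le_trans ?_ h1
  refine (abs_max_sub_max_le_max _ _ _ _).trans (max_le ?_ ?_)
  · rw [sub_self, abs_zero]
    exact abs_nonneg _
  refine (abs_min_sub_min_le_max _ _ _ _).trans (max_le ?_ le_rfl)
  rw [sub_self, abs_zero]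
  exact abs_nonneg _

/-- The cocompact part. -/
theorem cocR [MetricSpace (PI O)] (hT : IsTh O) (hR : ROut e (YO e)) (K : ℝ) (hK : 0 ≤ K) :
    CoCpt (RingAut O) {σ : PI O | ∀ W, Ix W → hh e (mx e σ) W ≤ K} := by
  refine ⟨?_, ?_, ?_⟩
  · have h1 : {σ : PI O | ∀ W, Ix W → hh e (mx e σ) W ≤ K} =
        ⋂ W, ⋂ (_ : Ix W), {σ : PI O | hh e (mx e σ) W ≤ K} := by
      ext σ
      simp only [Set.mem_ofPred_eq, Set.mem_iInter]
    rw [h1]
    refine isClosed_iInter fun W => isClosed_iInter fun hW => ?_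
    have h2 : Continuous fun σ : PI O => hh e (mx e σ) W := by
      have h3 : LipschitzWith 2 fun σ : PI O => hh e (mx e σ) W := by
        refine LipschitzWith.of_dist_le_mul fun σ τ => ?_
        rw [Real.dist_eq]
        exact hh_lip e hT hR W hW σ τ
      exact h3.continuous
    exact isClosed_le h2 continuous_const
  · intro g σ hσ W hW
    have h1 := hσ (mp g⁻¹ W) (hW.mp g⁻¹)
    rw [← hR.eqv g, ← mp_mul, mul_inv_cancel, mp_one, ← mx_smul] at h1
    exact h1
  · obtain ⟨C, hCY, hC, h⟩ := hR.coc (K + 1) (by linarith)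
    refine ⟨{σ : PI O | mx e σ ∈ C}, compact_pre e hT hC hCY, ?_⟩
    intro σ hσ
    obtain ⟨g, A₀, hA₀, h1⟩ := h _ (mx_mem e σ) (fun W hW => by
      have := hσ W hW
      linarith)
    refine ⟨g⁻¹, ?_⟩
    change mx e (g⁻¹ • σ : PI O) ∈ C
    rw [mx_smul, ← h1, ← act_mul, inv_mul_cancel, act_one]
    exact hA₀

instance (G : Type) [Group G] : MulAction G Empty where
  smul _ x := x
  one_smul x := x.elim
  mul_smul _ _ x := x.elim

/-- The empty family. -/
noncomputable def famE (G M : Type) [Group G] (a : G → M → M) (Sm : Subgroup G → Prop) (n : ℕ) :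
    Fam G M a Sm n :=
  @Fam.mk G M _ a Sm n Empty _ (fun x => x.elim) (fun x => x.elim) (fun x => x.elim)
    (fun _ x => x.elim) (fun _ => Set.toFinite _)
    (fun _ => by
      rw [Set.eq_empty_of_isEmpty {j : Empty | _}, Set.ncard_empty]
      exact Nat.zero_le _)
    (fun _ _ hA => hA.some.elim)

/-- **Part R of PROJECT ZERO.** -/
theorem tR (h : ∀ (O : Type) [Ring O] [Nontrivial O] (N : ℕ) (e : Basis (Fin N) ℤ O),
    (Tm e).det ≠ 0 → ROut e (YO e)) : ZA.S_R := by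
  intro O _ _ _ _ hT ε hε
  by_cases hO : Nontrivial O ∧ Nonempty (PI O)
  · obtain ⟨hO1, hO2⟩ := hO
    have hR := h O _ (Module.finBasis ℤ O) (det_Tm_PI _ hO2)
    refine ⟨famR _ hR hε, uR_lip _ hT hR hε, _, cocR _ hT hR (2 / ε) (by positivity), ?_⟩
    intro σ hσ
    simp only [Set.mem_ofPred_eq, not_forall, not_le] at hσ
    obtain ⟨W, hW, h1⟩ := hσ
    refine ⟨⟨W, hW⟩, ?_⟩
    change max 0 (min 1 (ε / 2 * hh _ (mx _ σ) W)) = 1
    rw [min_eq_left, max_eq_right zero_le_one]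
    rw [div_lt_iff₀ hε] at h1
    linarith
  · have h1 : Subsingleton (PI O) := by
      rw [not_and_or] at hO
      rcases hO with hO | hO
      · have hs : Subsingleton O := not_nontrivial_iff_subsingleton.1 hO
        have hs' : Subsingleton (VO O) := by
          have h2 : (1 : VO O) = 0 := by
            rw [Algebra.TensorProduct.one_def, Subsingleton.elim (1 : O) 0, TensorProduct.tmul_zero]
          exact subsingleton_of_zero_eq_one h2.symm
        exact ⟨fun σ τ => PI.ext' fun x => Subsingleton.elim _ _⟩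
      · exact ⟨fun σ τ => (hO ⟨σ⟩).elim⟩
    refine ⟨famE _ _ _ _ _, fun _ _ (j : Empty) => j.elim, Set.univ, ⟨isClosed_univ, fun _ _ _ => trivial,
      Set.univ, ?_, fun _ _ => ⟨1, trivial⟩⟩, fun x hx => (hx trivial).elim⟩
    exact (Set.subsingleton_univ).finite.isCompact

end Pool.Agent.ZR
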