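import Pool.Agent.Lib.MP_8f66f0_al_ZR.Defs

/-!
# PROJECT ZERO, part R (infinity), second half: reduction theory, cocompactness, trace forms, properness

Every statement `S_...` has a complete proof in its doc comment; the statements of other modules are
hypotheses of the theorems. `sq e A x = A(x, x)` is the SQUARE of the norm.
-/

set_option autoImplicit false

namespace Pool.Agent.ZR

open Matrix Module

/-! ### Definitions -/

/-- The integral matrix `U` as a real matrix. -/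
abbrev iR {m : ℕ} (U : Matrix (Fin m) (Fin m) ℤ) : Matrix (Fin m) (Fin m) ℝ :=
  U.map (Int.cast : ℤ → ℝ)

/-- The value of the form `G` at the integral vector `x`. -/
noncomputable def qf {m : ℕ} (G : Matrix (Fin m) (Fin m) ℝ) (x : Fin m → ℤ) : ℝ :=
  (fun i => (x i : ℝ)) ⬝ᵥ (G *ᵥ fun i => (x i : ℝ))

/-- The Schur complement with respect to the first basis vector. -/
noncomputable def sch {m : ℕ} (G : Matrix (Fin (m + 1)) (Fin (m + 1)) ℝ) :
    Matrix (Fin m) (Fin m) ℝ :=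
  fun i j => G i.succ j.succ - G i.succ 0 * G 0 j.succ / G 0 0

/-- The constant of the reduction theorem. -/
noncomputable def cH (m : ℕ) : ℝ := (4 / 3) ^ (m * (m - 1) / 2)

section

variable {O : Type} [Ring O] {N : ℕ} (e : Basis (Fin N) ℤ O)

/-- The trace of the left multiplication by `x`. -/
noncomputable def tr (x : O) : ℤ := LinearMap.trace ℤ O (LinearMap.mulLeft ℤ x)

/-- The matrix of the trace form. -/
noncomputable def Tm : Matrix (Fin N) (Fin N) ℝ :=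
  fun i j => ((tr (e i * e j) : ℤ) : ℝ)

/-- The product of `ℝ ⊗ O` in coordinates. -/
noncomputable def mR (x y : Fin N → ℝ) : Fin N → ℝ :=
  fun k => ∑ i, ∑ j, x i * y j * ((e.repr (e i * e j) k : ℤ) : ℝ)

/-- The forms `A(x, y) = Tr(x S(y))` of the positive involutions `S` of `ℝ ⊗ O`. -/
def YO : Set (Matrix (Fin N) (Fin N) ℝ) :=
  {A | A.PosDef ∧ ∃ S : Matrix (Fin N) (Fin N) ℝ, Tm e * S = A ∧ S * S = 1 ∧
    ∀ x y : Fin N → ℝ, S *ᵥ mR e x y = mR e (S *ᵥ y) (S *ᵥ x)}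

end

/-! ### Reduction -/

/-- Lower bound. PROOF. The continuous function `x ↦ xᵀ G x` has a minimum `c > 0` on the compact set
`∑ x_i² = 1` (if it is empty, `m = 0`, take `c = 1`); homogeneity. (Or `c` = the least eigenvalue.) -/
def S_low : Prop :=
  ∀ (m : ℕ) (G : Matrix (Fin m) (Fin m) ℝ), G.PosDef →
    ∃ c : ℝ, 0 < c ∧ ∀ x : Fin m → ℝ, c * ∑ i, x i ^ 2 ≤ x ⬝ᵥ (G *ᵥ x)

/-- A shortest non-zero integral vector can be taken as the first vector of a basis of `ℤ^(m+1)`.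
PROOF. By `S_low` there is a non-zero integral `x` with `qf G x` minimal (finitely many integral vectors
below a bound). The subgroup `ℤ x` is saturated: let `n • y = k • x`, `n ≠ 0`. Divide with remainder:
`k = q n + r`, `|r| < |n|`; `z = y - q • x` is integral, `n • z = r • x`, so `n² qf G z = r² qf G x`; if
`r ≠ 0` then `z ≠ 0` and `qf G z < qf G x`, a contradiction; so `r = 0`, `z = 0`, `y = q • x`. So
`ℤ^(m+1) / ℤ x` is finitely generated and torsion-free, hence free of rank `m`, the sequence splits, and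
`x` together with a basis of a complement is a basis of `ℤ^(m+1)` (`Module.Basis.mkFinCons`). `U` = the
matrix whose columns are this basis, `V` its inverse; `(Uᵀ G U) 0 0 = qf G x`,
`qf (Uᵀ G U) z = qf G (U z)`. -/
def S_prm : Prop :=
  ∀ (m : ℕ) (G : Matrix (Fin (m + 1)) (Fin (m + 1)) ℝ), G.PosDef →
    ∃ U V : Matrix (Fin (m + 1)) (Fin (m + 1)) ℤ, U * V = 1 ∧ V * U = 1 ∧
      ∀ x : Fin (m + 1) → ℤ, x ≠ 0 → ((iR U)ᵀ * G * iR U) 0 0 ≤ qf ((iR U)ᵀ * G * iR U) x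

/-- The Schur complement. PROOF. `G 0 0 > 0`. For `y : Fin m → ℝ` let `x = Fin.cons t y` with
`t = -(∑ G 0 j.succ y_j) / G 0 0`; then `xᵀ G x = yᵀ (sch G) y`, so `sch G` is positive definite
(symmetric, since `G` is). The determinant: subtract multiples of the first row
(or `Matrix.det_fromBlocks₁₁` after reindexing, or `G = Lᵀ diag(G 0 0, sch G) L` with `L` unipotent). -/
def S_sch : Prop :=
  ∀ (m : ℕ) (G : Matrix (Fin (m + 1)) (Fin (m + 1)) ℝ), G.PosDef →
    0 < G 0 0 ∧ (sch G).PosDef ∧ G.det = G 0 0 * (sch G).det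

/-- The step of the reduction. PROOF. Let `U₁` be the block matrix `diag(1, U')`, `V₁ = diag(1, V')`, and
`G₁ = U₁ᵀ G U₁`; its first entry is `G 0 0` and `sch G₁ = U'ᵀ (sch G) U'`. Let `k_i` be the integer
nearest to `-(G₁ 0 i.succ) / G 0 0` and let `U₂` be the matrix with `1` on the diagonal, `k_i` at the
place `(0, i.succ)` and `0` elsewhere (the inverse has `-k_i`). `G₂ = U₂ᵀ G₁ U₂` has the first entry
`G 0 0`, `G₂ 0 i.succ = G₁ 0 i.succ + k_i G 0 0`, so `|G₂ 0 i.succ| ≤ G 0 0 / 2`, and the same Schur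
complement. So for `g = G₂ i.succ i.succ`: `g = (sch G₂) i i + (G₂ 0 i.succ)² / G 0 0 ≤ (sch G₂) i i +
G 0 0 / 4`, and `G 0 0 ≤ g`, since `g` is the value of `G` at the non-zero integral vector
`(U₁ U₂) e_(i.succ)`. So `g ≤ 4/3 (sch G₂) i i`. -/
def S_stp : Prop :=
  ∀ (m : ℕ) (G : Matrix (Fin (m + 1)) (Fin (m + 1)) ℝ), G.PosDef →
    (∀ x : Fin (m + 1) → ℤ, x ≠ 0 → G 0 0 ≤ qf G x) →
    ∀ U' V' : Matrix (Fin m) (Fin m) ℤ, U' * V' = 1 → V' * U' = 1 →
    ∃ U V : Matrix (Fin (m + 1)) (Fin (m + 1)) ℤ, U * V = 1 ∧ V * U = 1 ∧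
      ((iR U)ᵀ * G * iR U) 0 0 = G 0 0 ∧
      ∀ i : Fin m, ((iR U)ᵀ * G * iR U) i.succ i.succ ≤
        4 / 3 * ((iR U')ᵀ * sch G * iR U') i i

/-- The reduction theorem. PROOF. Induction on `m`. `m = 0`: the empty product and determinant are `1`,
`cH 0 = 1`. `m + 1`: replace `G` by `Uᵀ G U` (`S_prm`; the determinant does not change, `det U = ± 1`), then
`S_sch`, the induction hypothesis for `sch G`, and `S_stp`:
`∏ ≤ G 0 0 (4/3)^m cH m det (sch G) = cH (m + 1) det G` (`(m + 1) m / 2 = m + m (m - 1) / 2`;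
`Fin.prod_univ_succ`). All the diagonal entries are positive. -/
def S_red : Prop :=
  ∀ (m : ℕ) (G : Matrix (Fin m) (Fin m) ℝ), G.PosDef →
    ∃ U V : Matrix (Fin m) (Fin m) ℤ, U * V = 1 ∧ V * U = 1 ∧
      ∏ i, ((iR U)ᵀ * G * iR U) i i ≤ cH m * G.det

/-- The reduction theorem for `O`. PROOF. `b i = ∑_k U k i • e k` with `U` from `S_red`; it is a basis since
`U` is invertible (`e.equivFun` composed with the linear equivalence of `U`), and
`sq e A (b i) = (Uᵀ A U) i i`. -/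
def S_redO : Prop :=
  ∀ (N : ℕ) (O : Type) [Ring O] (e : Basis (Fin N) ℤ O) (A : Matrix (Fin N) (Fin N) ℝ), A.PosDef →
    ∃ b : Basis (Fin N) ℤ O, ∏ i, sq e A (b i) ≤ cH N * A.det

/-! ### Cocompactness -/

/-- The structure constants of short bases are bounded. PROOF. Let `A' k l = bl e A (b k) (b l)`,
`w i j l = bl e A (b i * b j) (b l)`, `c i j k = b.repr (b i * b j) k`: `w i j l = ∑_k c i j k A' k l`, so by
the adjugate `c i j k * det A' = ∑_l w i j l * (adj A') l k`. `A' = Uᵀ A U`, `U` the integral matrix of `b` in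
the basis `e`, `det U = ± 1`, so `det A' = det A = D`. By Cauchy-Schwarz for `A` and `IsY.mul`:
`|A' k l| ≤ R`, `(w i j l)² ≤ sq (b i * b j) * R ≤ R³`; the entries of the adjugate are determinants of
matrices with entries bounded by `max R 1` (`Matrix.det_le`). -/
def S_bsc : Prop :=
  ∀ (N : ℕ) (O : Type) [Ring O] (e : Basis (Fin N) ℤ O) (Y : Set (Matrix (Fin N) (Fin N) ℝ))
    (D : ℝ), IsY e Y D → 0 < D → ∀ R : ℝ, ∃ K : ℤ,
    ∀ A ∈ Y, ∀ b : Basis (Fin N) ℤ O, (∀ i, sq e A (b i) ≤ R) →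
    ∀ i j k, |b.repr (b i * b j) k| ≤ K

/-- Finitely many bases with bounded structure constants, up to automorphisms. PROOF. The function
`b ↦ (i, j, k) ↦ b.repr (b i * b j) k` takes finitely many values on these bases
(`Set.Finite.pi`, `Set.finite_Icc`); choose a basis for every value. If `b`, `b'` have the same structure
constants, `b'.equiv b (Equiv.refl _)` is multiplicative (on the basis, then bilinear: `Basis.ext`), so it
is a ring isomorphism (`RingEquiv` only needs `map_mul`, `map_add`). -/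
def S_fbs : Prop :=
  ∀ (N : ℕ) (O : Type) [Ring O] (K : ℤ),
    ∃ F : Set (Basis (Fin N) ℤ O), F.Finite ∧ ∀ b : Basis (Fin N) ℤ O,
      (∀ i j k, |b.repr (b i * b j) k| ≤ K) → ∃ b' ∈ F, ∃ g : O ≃+* O, ∀ i, g (b' i) = b i

/-- Compactness. PROOF. The set is closed: a limit `A` of elements of `Y` is symmetric positive
semidefinite with `det A = D > 0`, so positive definite, so in `Y` (`IsY.closed`); `A ↦ sq e A x` is
continuous. It is bounded: `|bl e A (b i) (b j)| ≤ R` (Cauchy-Schwarz), and the matrix `A` is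
`Vᵀ (bl e A (b i) (b j))_(ij) V` with `V` the integral matrix of the `e j` in the basis `b`. (Closed bounded
sets in `Fin N → Fin N → ℝ` are compact.) -/
def S_cpt : Prop :=
  ∀ (N : ℕ) (O : Type) [Ring O] (e : Basis (Fin N) ℤ O) (Y : Set (Matrix (Fin N) (Fin N) ℝ))
    (D : ℝ), IsY e Y D → 0 < D → ∀ (b : Basis (Fin N) ℤ O) (R : ℝ),
    IsCompact {A | A ∈ Y ∧ ∀ i, sq e A (b i) ≤ R}

/-- Cocompactness. PROOF. `S_redO`: a basis `b` with `∏ sq (b i) ≤ P := cH N D`, and `sq (b i) ≥ κ`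
(`b i ≠ 0`), so `sq (b i) ≤ R := P / κ^(N-1)`. `K` from `S_bsc`, `F` from `S_fbs`: `g (b' i) = b i` with
`b' ∈ F`. Then `sq e (act e g⁻¹ A) (b' i) = sq e A (b i) ≤ R` (`sq_act`), so `act e g⁻¹ A` is in the finite
union `C` over `b' ∈ F` of the compact sets of `S_cpt`. -/
def S_coc : Prop :=
  ∀ (N : ℕ) (O : Type) [Ring O] (e : Basis (Fin N) ℤ O) (Y : Set (Matrix (Fin N) (Fin N) ℝ))
    (D : ℝ), IsY e Y D → 0 < D → ∀ κ : ℝ, 0 < κ →
    ∃ C : Set (Matrix (Fin N) (Fin N) ℝ), IsCompact C ∧ C ⊆ Y ∧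
      ∀ A ∈ Y, (∀ x : O, x ≠ 0 → κ ≤ sq e A x) → ∃ g : O ≃+* O, act e g A ∈ C

/-! ### Properness -/

/-- Uniform bounds on compact sets. PROOF. The continuous function `(G, x) ↦ xᵀ G x` on the compact set
`C × {∑ x_i² = 1}` has a positive minimum and a maximum; homogeneity. -/
def S_ubd : Prop :=
  ∀ (N : ℕ) (C : Set (Matrix (Fin N) (Fin N) ℝ)), IsCompact C → (∀ G ∈ C, G.PosDef) →
    ∃ c c' : ℝ, 0 < c ∧ 0 < c' ∧ ∀ G ∈ C, ∀ x : Fin N → ℝ,
      c * ∑ i, x i ^ 2 ≤ x ⬝ᵥ (G *ᵥ x) ∧ x ⬝ᵥ (G *ᵥ x) ≤ c' * ∑ i, x i ^ 2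

/-- Properness. PROOF. If `A`, `act e g A ∈ C` then `c ∑_i (co e (g (e j)) i)² ≤ sq e (act e g A) (g (e j))
= sq e A (e j) ≤ c'` (`S_ubd`, `sq_act`): finitely many possibilities for the vectors `g (e j)`, and `g` is
determined by them. -/
def S_prp : Prop :=
  ∀ (N : ℕ) (O : Type) [Ring O] (e : Basis (Fin N) ℤ O) (C : Set (Matrix (Fin N) (Fin N) ℝ)),
    IsCompact C → (∀ A ∈ C, A.PosDef) → {g : O ≃+* O | ∃ A ∈ C, act e g A ∈ C}.Finite

/-! ### Positive involutions -/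

/-- Left multiplications. PROOF. `co e (x * y) = mR e (co e x) (co e y)` by bilinearity. Associativity of
`mR`, both sides are trilinear, on the basis it is the associativity of `O`. `Tr`: for the matrix
`L z k j = ∑_i z_i c_(ijk)` (`c_(ijk) = e.repr (e i * e j) k`), `L z *ᵥ y = mR e z y`, so
`L (mR e z w) = L z * L w` and `∑_k (L (co e x)) k k = tr x` (`LinearMap.trace_eq_matrix_trace`). -/
def S_lmul : Prop :=
  ∀ (N : ℕ) (O : Type) [Ring O] (e : Basis (Fin N) ℤ O),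
    ∃ L : (Fin N → ℝ) →ₗ[ℝ] Matrix (Fin N) (Fin N) ℝ,
      (∀ z y, L z *ᵥ y = mR e z y) ∧ (∀ z w, L (mR e z w) = L z * L w) ∧
      (∀ x y : O, mR e (co e x) (co e y) = co e (x * y)) ∧
      (∀ x : O, (L (co e x)).trace = ((tr x : ℤ) : ℝ)) ∧
      (∀ x y : Fin N → ℝ, x ⬝ᵥ (Tm e *ᵥ y) = (L x * L y).trace) ∧
      ∀ x : Fin N → ℝ, mR e (co e 1) x = x ∧ mR e x (co e 1) = x

/-- The adjoint. PROOF. With `L` from `S_lmul`: `xᵀ A y = xᵀ (Tm e) (S y) = tr (L x * L (S y))`.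
`(L z x)ᵀ A y = tr (L z L x L (S y)) = tr (L x L (S y) L z) = tr (L x L (S y · z))`, and
`S (S z · y) = S y · S (S z) = S y · z`, so it is `xᵀ A (L (S z) y)`. This is the first assertion. The second
one: `zᵀ A z = tr (L z * L (S z))`. -/
def S_adj : Prop :=
  ∀ (N : ℕ) (O : Type) [Ring O] (e : Basis (Fin N) ℤ O)
    (L : (Fin N → ℝ) →ₗ[ℝ] Matrix (Fin N) (Fin N) ℝ) (A S : Matrix (Fin N) (Fin N) ℝ),
    (∀ z y, L z *ᵥ y = mR e z y) → (∀ z w, L (mR e z w) = L z * L w) →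
    (∀ x y : Fin N → ℝ, x ⬝ᵥ (Tm e *ᵥ y) = (L x * L y).trace) →
    Tm e * S = A → S * S = 1 → (∀ x y : Fin N → ℝ, S *ᵥ mR e x y = mR e (S *ᵥ y) (S *ᵥ x)) →
    (∀ z, (L z)ᵀ * A = A * L (S *ᵥ z)) ∧ ∀ z, z ⬝ᵥ (A *ᵥ z) = (L z * L (S *ᵥ z)).trace

/-- A Hilbert-Schmidt inequality. PROOF. `A = Qᵀ Q` with `Q` invertible (`Matrix.PosDef`: square root, or
Cholesky). With `M = Q X Q⁻¹`: `tr (X A⁻¹ Xᵀ A) = tr (M Mᵀ) = ∑ M_(ij)²`, and the same for `Y`, `X Y`;
`∑ (M M')_(ij)² ≤ (∑ M_(ij)²) (∑ M'_(ij)²)` (Cauchy-Schwarz for every entry; or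
`Matrix.frobenius_norm_mul`). -/
def S_hs : Prop :=
  ∀ (N : ℕ) (A X Y : Matrix (Fin N) (Fin N) ℝ), A.PosDef →
    ((X * Y) * A⁻¹ * (X * Y)ᵀ * A).trace ≤ (X * A⁻¹ * Xᵀ * A).trace * (Y * A⁻¹ * Yᵀ * A).trace

/-- The norms are submultiplicative. PROOF. `L`, `S` as in `S_lmul`, `S_adj`: `L (S z) = A⁻¹ (L z)ᵀ A`, so
`zᵀ A z = tr (L z A⁻¹ (L z)ᵀ A)`; `L (co (x y)) = L (co x) L (co y)`; `S_hs`. -/
def S_mul : Prop :=
  ∀ (N : ℕ) (O : Type) [Ring O] (e : Basis (Fin N) ℤ O) (A : Matrix (Fin N) (Fin N) ℝ),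
    A ∈ YO e → ∀ x y : O, sq e A (x * y) ≤ sq e A x * sq e A y

/-- The trace is bounded by the norm. PROOF. `u = co e 1`. `S u = u`: `S x = S (u x) = S (x) S (u)` for all
`x`, `S` is bijective, so `S u` is a right unit, `S u = u (S u) = u`. `tr x = tr (L x L u) = tr (L x L (S u))
= (co x)ᵀ A u`, and Cauchy-Schwarz for `A`: `(tr x)² ≤ sq e A x * (uᵀ A u)`, `uᵀ A u = tr 1 = N` (trace of
the identity of a free module of rank `N`). -/
def S_trb : Prop :=
  ∀ (N : ℕ) (O : Type) [Ring O] (e : Basis (Fin N) ℤ O) (A : Matrix (Fin N) (Fin N) ℝ),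
    A ∈ YO e → ∀ x : O, ((tr x : ℤ) : ℝ) ^ 2 ≤ N * sq e A x

/-- The space of the positive involutions has the properties `IsY`. PROOF. `mul`: `S_mul`. `det`:
`det A = det T det S`, `(det S)² = 1`, `det A > 0`. `closed`: `T` is invertible, `S = T⁻¹ A` depends
continuously on `A` and the conditions on `S` are closed. `act`: `(mt g)ᵀ T (mt g) = T` since
`tr (g x) = tr x` (`L_(g x) = g L_x g⁻¹`), and `S' = (mt g) S (mt g)⁻¹` satisfies the conditions for
`act e g A`, since `mR e (M x) (M y) = M (mR e x y)` for `M = mt e g` (on the basis: `g` is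
multiplicative); `mt_mul`, `mt_one` give the inverse. -/
def S_isY : Prop :=
  ∀ (N : ℕ) (O : Type) [Ring O] (e : Basis (Fin N) ℤ O), (Tm e).det ≠ 0 →
    IsY e (YO e) |(Tm e).det|

end Pool.Agent.ZR
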