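import Pool.Agent.Lib.MP_8f66f0_al_ZA.Ord
import Pool.Agent.Lib.MP_8f66f0_al_ZR.SpecB

/-!
# PROJECT ZERO: positive involutions of `ℝ ⊗ O` and matrices

The dictionary between the positive involutions `PI O` (`ZA/Ord.lean`) and the set of matrices `YO e`
(`ZR/SpecB.lean`).
-/

set_option autoImplicit false

namespace Pool.Agent.ZR

open Matrix Module Pool.Agent.ZA
open scoped TensorProduct

variable {O : Type} [Ring O] {N : ℕ} (e : Basis (Fin N) ℤ O)

/-- The basis of `ℝ ⊗ O`. -/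
noncomputable def eR : Basis (Fin N) ℝ (VO O) := e.baseChange ℝ

theorem eR_apply (i : Fin N) : eR e i = (1 : ℝ) ⊗ₜ[ℤ] e i := Basis.baseChange_apply _ _ _

theorem eR_repr_tmul (r : ℝ) (x : O) : (eR e).repr (r ⊗ₜ[ℤ] x) = fun i => r * co e x i := by
  funext i
  unfold eR co
  rw [Basis.baseChange_repr_tmul, zsmul_eq_mul, mul_comm]

/-- The coordinates of `1 ⊗ x`. -/
theorem eR_repr_one (x : O) : ((eR e).repr ((1 : ℝ) ⊗ₜ[ℤ] x) : Fin N → ℝ) = co e x := by
  rw [eR_repr_tmul]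
  funext i
  exact one_mul _

/-- Coordinates, as a linear equivalence. -/
noncomputable def ce : VO O ≃ₗ[ℝ] (Fin N → ℝ) := (eR e).equivFun

theorem ce_one (x : O) : ce e ((1 : ℝ) ⊗ₜ[ℤ] x) = co e x := by
  unfold ce
  rw [Basis.equivFun_apply, eR_repr_one]

theorem ce_eR (i : Fin N) : ce e (eR e i) = Pi.single i 1 := by
  unfold ce
  rw [Basis.equivFun_apply, Basis.repr_self]
  exact Finsupp.single_eq_pi_single i 1

/-- Products in coordinates. -/
theorem ce_mul (x y : VO O) : ce e (x * y) = mR e (ce e x) (ce e y) := by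
  have h1 : ∀ (x y : VO O), (ce e (x * y)) = ∑ i, ∑ j, (ce e x i * ce e y j) •
      ce e (eR e i * eR e j) := by
    intro x y
    have hx : x = ∑ i, ce e x i • eR e i := ((eR e).sum_equivFun x).symm
    have hy : y = ∑ i, ce e y i • eR e i := ((eR e).sum_equivFun y).symm
    conv_lhs => rw [hx, hy]
    rw [Finset.sum_mul, map_sum]
    refine Finset.sum_congr rfl fun i _ => ?_
    rw [Finset.mul_sum, map_sum]
    refine Finset.sum_congr rfl fun j _ => ?_
    rw [smul_mul_smul_comm, map_smul]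
  rw [h1]
  funext k
  rw [Finset.sum_apply]
  unfold mR
  refine Finset.sum_congr rfl fun i _ => ?_
  rw [Finset.sum_apply]
  refine Finset.sum_congr rfl fun j _ => ?_
  rw [Pi.smul_apply, smul_eq_mul, eR_apply, eR_apply, Algebra.TensorProduct.tmul_mul_tmul,
    mul_one, ce_one]
  rfl

include e in
/-- The trace of `1 ⊗ x`. -/
theorem tr_one (x : O) : ZA.tr O ((1 : ℝ) ⊗ₜ[ℤ] x) = ((ZR.tr x : ℤ) : ℝ) := by
  have := Module.Free.of_basis e
  have := Module.Finite.of_basis e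
  have h : LinearMap.mul ℝ (VO O) ((1 : ℝ) ⊗ₜ[ℤ] x) =
      (LinearMap.mulLeft ℤ x).baseChange ℝ := by
    apply TensorProduct.AlgebraTensorModule.ext
    intro r y
    change ((1 : ℝ) ⊗ₜ[ℤ] x) * (r ⊗ₜ[ℤ] y) = r ⊗ₜ[ℤ] (x * y)
    rw [Algebra.TensorProduct.tmul_mul_tmul, one_mul]
  change LinearMap.trace ℝ (VO O) (LinearMap.mul ℝ (VO O) ((1 : ℝ) ⊗ₜ[ℤ] x)) = _
  rw [h, LinearMap.trace_baseChange]
  rfl

/-- The trace form in coordinates. -/
theorem tr_mul (x y : VO O) : ZA.tr O (x * y) = ce e x ⬝ᵥ (Tm e *ᵥ ce e y) := by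
  have hx : x = ∑ i, ce e x i • eR e i := ((eR e).sum_equivFun x).symm
  have hy : y = ∑ i, ce e y i • eR e i := ((eR e).sum_equivFun y).symm
  conv_lhs => rw [hx, hy]
  rw [Finset.sum_mul, map_sum]
  unfold dotProduct
  refine Finset.sum_congr rfl fun i _ => ?_
  rw [Finset.mul_sum, map_sum]
  unfold mulVec dotProduct
  rw [Finset.mul_sum]
  refine Finset.sum_congr rfl fun j _ => ?_
  rw [smul_mul_smul_comm, map_smul, smul_eq_mul, eR_apply, eR_apply,
    Algebra.TensorProduct.tmul_mul_tmul, mul_one, tr_one e]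
  unfold Tm
  ring

/-- The trace is symmetric. -/
theorem tr_comm (x y : VO O) : ZA.tr O (x * y) = ZA.tr O (y * x) := by
  change LinearMap.trace ℝ (VO O) (LinearMap.mul ℝ (VO O) (x * y)) =
    LinearMap.trace ℝ (VO O) (LinearMap.mul ℝ (VO O) (y * x))
  have h : ∀ a b : VO O, LinearMap.mul ℝ (VO O) (a * b) =
      LinearMap.mul ℝ (VO O) a * LinearMap.mul ℝ (VO O) b := by
    intro a b
    apply LinearMap.ext
    intro z
    exact mul_assoc a b z
  rw [h, h, LinearMap.trace_mul_comm]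

/-! ### From involutions to matrices -/

/-- The matrix of the involution. -/
noncomputable def sm (σ : PI O) : Matrix (Fin N) (Fin N) ℝ := LinearMap.toMatrix (eR e) (eR e) σ.s

theorem sm_ce (σ : PI O) (x : VO O) : sm e σ *ᵥ ce e x = ce e (σ.s x) := by
  unfold sm ce
  rw [Basis.equivFun_apply, Basis.equivFun_apply, LinearMap.toMatrix_mulVec_repr]

/-- The matrix of the scalar product of a positive involution. -/
noncomputable def mx (σ : PI O) : Matrix (Fin N) (Fin N) ℝ := Tm e * sm e σ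

theorem q_eq (σ : PI O) (x y : VO O) : σ.q x y = ce e x ⬝ᵥ (mx e σ *ᵥ ce e y) := by
  unfold PI.q mx
  rw [σ.sym, tr_comm, tr_mul e, ← mulVec_mulVec, sm_ce]

theorem q_one (σ : PI O) (x y : O) :
    σ.q ((1 : ℝ) ⊗ₜ[ℤ] x) ((1 : ℝ) ⊗ₜ[ℤ] y) = bl e (mx e σ) x y := by
  rw [q_eq e, ce_one, ce_one]
  rfl

theorem q_sq (σ : PI O) (x : O) :
    σ.q ((1 : ℝ) ⊗ₜ[ℤ] x) ((1 : ℝ) ⊗ₜ[ℤ] x) = sq e (mx e σ) x := q_one e σ x x

theorem mx_apply (σ : PI O) (i j : Fin N) : mx e σ i j = σ.q (eR e i) (eR e j) := by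
  rw [q_eq e, ce_eR, ce_eR, mulVec_single_one, single_one_dotProduct]
  rfl

theorem q_comm (σ : PI O) (x y : VO O) : σ.q x y = σ.q y x := σ.sym x y

theorem mx_posDef (σ : PI O) : (mx e σ).PosDef := by
  refine Matrix.PosDef.of_dotProduct_mulVec_pos ?_ ?_
  · ext i j
    rw [conjTranspose_apply, star_trivial, mx_apply, mx_apply, q_comm]
  · intro v hv
    rw [star_trivial]
    have h1 := σ.pos ((ce e).symm v) (by
      intro h
      apply hv
      rw [← (ce e).apply_symm_apply v, h, map_zero])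
    have h2 := q_eq e σ ((ce e).symm v) ((ce e).symm v)
    rw [LinearEquiv.apply_symm_apply] at h2
    rw [← h2]
    exact h1

theorem sm_sq (σ : PI O) : sm e σ * sm e σ = 1 := by
  unfold sm
  rw [← LinearMap.toMatrix_comp, ← LinearMap.toMatrix_id (eR e)]
  congr 1
  apply LinearMap.ext
  intro x
  exact σ.inv x

theorem sm_mR (σ : PI O) (x y : Fin N → ℝ) :
    sm e σ *ᵥ mR e x y = mR e (sm e σ *ᵥ y) (sm e σ *ᵥ x) := by
  have h := σ.mul ((ce e).symm x) ((ce e).symm y)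
  have h1 := congrArg (ce e) h
  rw [← sm_ce, ce_mul, ce_mul, ← sm_ce, ← sm_ce, LinearEquiv.apply_symm_apply,
    LinearEquiv.apply_symm_apply] at h1
  exact h1

theorem mx_mem (σ : PI O) : mx e σ ∈ YO e :=
  ⟨mx_posDef e σ, sm e σ, rfl, sm_sq e σ, sm_mR e σ⟩

theorem mx_inj : Function.Injective (mx e : PI O → Matrix (Fin N) (Fin N) ℝ) := by
  intro σ τ h
  apply PI.ext'
  intro x
  have hq : ∀ x y, σ.q x y = τ.q x y := by
    intro x y
    rw [q_eq e, q_eq e, h]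
  have h1 : ∀ y, ZA.tr O ((σ.s x - τ.s x) * y) = 0 := by
    intro y
    rw [sub_mul, map_sub]
    exact sub_eq_zero.2 (hq x y)
  by_contra hne
  have h2 : σ.s (σ.s x - τ.s x) ≠ 0 := by
    intro h0
    have h3 := σ.inv (σ.s x - τ.s x)
    rw [h0, map_zero] at h3
    exact hne (sub_eq_zero.1 h3.symm)
  have h4 := σ.pos _ h2
  rw [σ.inv, h1] at h4
  exact lt_irrefl _ h4

/-! ### From matrices to involutions -/

theorem det_Tm {A : Matrix (Fin N) (Fin N) ℝ} (hA : A ∈ YO e) : (Tm e).det ≠ 0 := by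
  obtain ⟨hp, S, hS, -, -⟩ := hA
  intro h
  have h1 := hp.det_pos
  rw [← hS, det_mul, h, zero_mul] at h1
  exact lt_irrefl _ h1

theorem det_Tm_PI (h : Nonempty (PI O)) : (Tm e).det ≠ 0 := by
  obtain ⟨σ⟩ := h
  exact det_Tm e (mx_mem e σ)

theorem ce_toLin (S : Matrix (Fin N) (Fin N) ℝ) (x : VO O) :
    ce e (Matrix.toLin (eR e) (eR e) S x) = S *ᵥ ce e x := by
  have h := LinearMap.toMatrix_mulVec_repr (eR e) (eR e) (Matrix.toLin (eR e) (eR e) S) x
  rw [LinearMap.toMatrix_toLin] at h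
  exact h.symm

theorem mx_surj {A : Matrix (Fin N) (Fin N) ℝ} (hA : A ∈ YO e) : ∃ σ : PI O, mx e σ = A := by
  obtain ⟨hp, S, hS, hS2, hm⟩ := hA
  have hq : ∀ x y : VO O, ZA.tr O (Matrix.toLin (eR e) (eR e) S x * y) =
      ce e y ⬝ᵥ (A *ᵥ ce e x) := by
    intro x y
    rw [tr_comm, tr_mul e, ce_toLin, mulVec_mulVec, hS]
  refine ⟨⟨Matrix.toLin (eR e) (eR e) S, ?_, ?_, ?_, ?_⟩, ?_⟩
  · intro x y
    apply (ce e).injective
    rw [ce_mul, ce_toLin, ce_toLin, ce_toLin, ce_mul, hm]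
  · intro x
    apply (ce e).injective
    rw [ce_toLin, ce_toLin, mulVec_mulVec, hS2, one_mulVec]
  · intro x y
    rw [hq, hq]
    have h1 : Aᵀ = A := by
      have h2 := hp.isHermitian
      ext i j
      have h3 := congrFun (congrFun h2 i) j
      rw [conjTranspose_apply, star_trivial] at h3
      rw [transpose_apply]
      exact h3
    conv_lhs => rw [← h1]
    rw [mulVec_transpose, dotProduct_comm, dotProduct_mulVec]
  · intro x hx
    rw [hq]
    have h1 : ce e x ≠ 0 := fun h => hx ((ce e).injective (h.trans (map_zero _).symm))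
    have h2 := hp.dotProduct_mulVec_pos h1
    rwa [star_trivial] at h2
  · unfold mx sm
    rw [LinearMap.toMatrix_toLin, hS]

/-! ### The action -/

theorem ce_ext (g : O ≃+* O) (x : VO O) : ce e (ext O g x) = mt e g *ᵥ ce e x := by
  have h : (ce e).toLinearMap ∘ₗ (ext O g).toLinearMap =
      (Matrix.mulVecLin (mt e g)) ∘ₗ (ce e).toLinearMap := by
    apply (eR e).ext
    intro i
    change ce e (ext O g (eR e i)) = mt e g *ᵥ ce e (eR e i)
    rw [ce_eR, eR_apply, ext_tmul, ce_one, co_map]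
    congr 1
    rw [← ce_one, ← eR_apply, ce_eR]
  exact LinearMap.congr_fun h x

theorem q_smul (g : O ≃+* O) (σ : PI O) (x y : VO O) :
    (g • σ : PI O).q x y = σ.q (ext O g⁻¹ x) (ext O g⁻¹ y) := by
  change ZA.tr O (ext O g (σ.s (ext O g⁻¹ x)) * y) = ZA.tr O (σ.s (ext O g⁻¹ x) * ext O g⁻¹ y)
  rw [← trace_ext g⁻¹, map_mul, ext_cancel_inv]

theorem dot_conj (M A : Matrix (Fin N) (Fin N) ℝ) (u v : Fin N → ℝ) :
    u ⬝ᵥ ((Mᵀ * A * M) *ᵥ v) = (M *ᵥ u) ⬝ᵥ (A *ᵥ (M *ᵥ v)) := by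
  rw [← mulVec_mulVec, ← mulVec_mulVec, mulVec_transpose, dotProduct_comm, ← dotProduct_mulVec,
    dotProduct_comm]

theorem mx_smul (g : O ≃+* O) (σ : PI O) : mx e (g • σ : PI O) = act e g (mx e σ) := by
  ext i j
  rw [mx_apply, q_smul, q_eq e, ce_ext, ce_ext, ce_eR, ce_eR, ← dot_conj, mulVec_single_one,
    single_one_dotProduct]
  rfl

/-! ### Distances -/

/-- Bounds for the matrices give bounds for the involutions. -/
theorem q_le (σ τ : PI O) (r : ℝ) :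
    (∀ x : VO O, τ.q x x ≤ Real.exp r * σ.q x x) ↔
      ∀ v : Fin N → ℝ, v ⬝ᵥ (mx e τ *ᵥ v) ≤ Real.exp r * (v ⬝ᵥ (mx e σ *ᵥ v)) := by
  constructor
  · intro h v
    have h1 := h ((ce e).symm v)
    rwa [q_eq e, q_eq e, LinearEquiv.apply_symm_apply] at h1
  · intro h x
    rw [q_eq e, q_eq e]
    exact h _

theorem dist_le_iff [MetricSpace (PI O)] (hT : IsTh O) (σ τ : PI O) {r : ℝ} (hr : 0 ≤ r) :
    dist σ τ ≤ r ↔
      (∀ v : Fin N → ℝ, v ⬝ᵥ (mx e τ *ᵥ v) ≤ Real.exp r * (v ⬝ᵥ (mx e σ *ᵥ v))) ∧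
      ∀ v : Fin N → ℝ, v ⬝ᵥ (mx e σ *ᵥ v) ≤ Real.exp r * (v ⬝ᵥ (mx e τ *ᵥ v)) := by
  rw [hT σ τ r hr, ← q_le, ← q_le]
  exact ⟨fun h => ⟨fun x => (h x).1, fun x => (h x).2⟩, fun h x => ⟨h.1 x, h.2 x⟩⟩

/-- The norms of the elements of `O`. -/
theorem sq_le [MetricSpace (PI O)] (hT : IsTh O) (σ τ : PI O) (x : O) :
    sq e (mx e σ) x ≤ Real.exp (dist σ τ) * sq e (mx e τ) x :=
  ((dist_le_iff e hT σ τ dist_nonneg).1 le_rfl).2 (co e x)

end Pool.Agent.ZR
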