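import Pool.Agent.Lib.MP_8f66f0_al_ZR.SpecB

/-! # PROJECT ZERO, part R: uniform bounds on compact sets of forms -/

set_option autoImplicit false

namespace Pool.Agent.ZR

open Matrix Module

private theorem isCompact_sph (N : ℕ) : IsCompact {x : Fin N → ℝ | ∑ i, x i ^ 2 = 1} := by
  apply Metric.isCompact_of_isClosed_isBounded
  · exact isClosed_eq (by fun_prop) continuous_const
  · refine (Metric.isBounded_closedBall (x := (0 : Fin N → ℝ)) (r := 1)).subset ?_
    intro x hx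
    rw [mem_closedBall_zero_iff, pi_norm_le_iff_of_nonneg zero_le_one]
    intro i
    have h1 : x i ^ 2 ≤ 1 := by
      rw [← show ∑ i, x i ^ 2 = 1 from hx]
      exact Finset.single_le_sum (fun j _ => _root_.sq_nonneg (x j)) (Finset.mem_univ i)
    rw [Real.norm_eq_abs]
    exact (sq_le_one_iff_abs_le_one (x i)).1 h1

private theorem scl {N : ℕ} (G : Matrix (Fin N) (Fin N) ℝ) (a : ℝ) (x : Fin N → ℝ) :
    (a • x) ⬝ᵥ (G *ᵥ (a • x)) = a ^ 2 * (x ⬝ᵥ (G *ᵥ x)) := by
  rw [mulVec_smul, dotProduct_smul, smul_dotProduct, smul_eq_mul, smul_eq_mul]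
  ring

theorem tUbd : S_ubd := by
  intro N C hC hpos
  have hK : IsCompact (C ×ˢ {x : Fin N → ℝ | ∑ i, x i ^ 2 = 1}) := hC.prod (isCompact_sph N)
  have hcont : Continuous fun p : Matrix (Fin N) (Fin N) ℝ × (Fin N → ℝ) =>
      p.2 ⬝ᵥ (p.1 *ᵥ p.2) := by
    apply Continuous.dotProduct continuous_snd
    exact Continuous.matrix_mulVec continuous_fst continuous_snd
  have hne : ∀ x : Fin N → ℝ, ∑ i, x i ^ 2 = 1 → x ≠ 0 := by
    rintro x hx rfl
    simp at hx
  obtain ⟨c, hc, hc1⟩ := hK.exists_forall_le' hcont.continuousOn (a := 0) (by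
    rintro ⟨G, x⟩ ⟨hG, hx⟩
    have := (hpos G hG).dotProduct_mulVec_pos (hne x hx)
    simpa using this)
  obtain ⟨d, hd⟩ := hK.bddAbove_image hcont.continuousOn
  refine ⟨c, max d 1, hc, lt_max_of_lt_right one_pos, ?_⟩
  intro G hG x
  by_cases hx : x = 0
  · rw [hx]
    simp
  · have hs : 0 < ∑ i, x i ^ 2 := by
      obtain ⟨i, hi⟩ := Function.ne_iff.1 hx
      have h1 : 0 < x i ^ 2 := by
        have : x i ≠ 0 := hi
        positivity
      exact lt_of_lt_of_le h1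
        (Finset.single_le_sum (fun j _ => _root_.sq_nonneg (x j)) (Finset.mem_univ i))
    set s := ∑ i, x i ^ 2 with hsdef
    have h1 : ((Real.sqrt s)⁻¹) ^ 2 = s⁻¹ := by
      rw [inv_pow, Real.sq_sqrt hs.le]
    have h2 : ∑ i, (((Real.sqrt s)⁻¹ • x) i) ^ 2 = 1 := by
      have h3 : ∀ i, (((Real.sqrt s)⁻¹ • x) i) ^ 2 = s⁻¹ * x i ^ 2 := by
        intro i
        rw [Pi.smul_apply, smul_eq_mul, mul_pow, h1]
      rw [Finset.sum_congr rfl fun i _ => h3 i, ← Finset.mul_sum]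
      exact inv_mul_cancel₀ hs.ne'
    have h4 := hc1 (G, (Real.sqrt s)⁻¹ • x) ⟨hG, h2⟩
    have h5 := hd ⟨(G, (Real.sqrt s)⁻¹ • x), ⟨hG, h2⟩, rfl⟩
    simp only [scl, h1] at h4 h5
    constructor
    · have := mul_le_mul_of_nonneg_right h4 hs.le
      rwa [mul_right_comm, inv_mul_cancel₀ hs.ne', one_mul] at this
    · have h6 := mul_le_mul_of_nonneg_right (h5.trans (le_max_left d 1)) hs.le
      rwa [mul_right_comm, inv_mul_cancel₀ hs.ne', one_mul] at h6

end Pool.Agent.ZR
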