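import Pool.Agent.Lib.MP_8f66f0_al_ZR.Spec
import Pool.Agent.Lib.MP_8f66f0_al_ZR.SpecB

/-!
# PROJECT ZERO, part R: the statements of the second half in the form used in the output
-/

set_option autoImplicit false

namespace Pool.Agent.ZR

open Matrix Module

theorem bridge_coc (h : S_coc) : S_Coc := by
  intro O _ N e Y D hD hY c hc
  obtain ⟨C, hC, hCY, h1⟩ := h N O e Y D hY hD c hc
  refine ⟨C, hCY, hC, ?_⟩
  intro A hA hA'
  obtain ⟨g, hg⟩ := h1 A hA hA'
  refine ⟨g⁻¹, act e g A, hg, ?_⟩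
  rw [← act_mul, inv_mul_cancel, act_one]

theorem bridge_prp (h : S_prp) : S_Prp := fun O _ N e C hC hC' => h N O e C hC hC'

end Pool.Agent.ZR
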