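import Mathlib

/-!
# PROJECT ZERO, part R (infinity): definitions

`O` is a ring which is free of rank `N` over `ℤ`, with a basis `e`. Positive definite matrices `A` give
scalar products `bl e A` on `O`, `sq e A x` is the square of the norm of `x`. `A` is acted on by the ring
automorphisms of `O`. `W` is a saturated subgroup of `O`:

* `lev e A W`: the smallest `r` such that the elements of `W` of square norm `≤ r` span `W` up to
  finite index;
* `out e A W`: the smallest square norm of the elements outside of `W`;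
* `hh e A W = min (log out) 0 - log lev`.
-/

set_option autoImplicit false

namespace Pool.Agent.ZR

open Matrix Module

variable {O : Type} [Ring O] {N : ℕ} (e : Basis (Fin N) ℤ O)

/-! ### Norms -/

/-- The real coordinates. -/
noncomputable def co (x : O) : Fin N → ℝ := fun i => ((e.repr x i : ℤ) : ℝ)

/-- The scalar product. -/
noncomputable def bl (A : Matrix (Fin N) (Fin N) ℝ) (x y : O) : ℝ := co e x ⬝ᵥ (A *ᵥ co e y)

/-- The square of the norm. -/
noncomputable def sq (A : Matrix (Fin N) (Fin N) ℝ) (x : O) : ℝ := bl e A x x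

theorem co_add (x y : O) : co e (x + y) = co e x + co e y := by
  funext i
  unfold co
  rw [Pi.add_apply, map_add, Finsupp.add_apply, Int.cast_add]

theorem co_zero : co e (0 : O) = 0 := by
  funext i
  unfold co
  rw [map_zero, Finsupp.zero_apply, Int.cast_zero]
  rfl

theorem co_zsmul (n : ℤ) (x : O) : co e (n • x) = (n : ℝ) • co e x := by
  funext i
  unfold co
  rw [Pi.smul_apply, map_smul, Finsupp.smul_apply, smul_eq_mul, smul_eq_mul, Int.cast_mul]

theorem co_inj {x y : O} (h : co e x = co e y) : x = y := by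
  apply e.repr.injective
  ext i
  exact Int.cast_injective (α := ℝ) (congrFun h i)

theorem bl_add_left (A : Matrix (Fin N) (Fin N) ℝ) (x y z : O) :
    bl e A (x + y) z = bl e A x z + bl e A y z := by
  unfold bl
  rw [co_add, add_dotProduct]

theorem bl_add_right (A : Matrix (Fin N) (Fin N) ℝ) (x y z : O) :
    bl e A x (y + z) = bl e A x y + bl e A x z := by
  unfold bl
  rw [co_add, mulVec_add, dotProduct_add]

theorem bl_zsmul_left (A : Matrix (Fin N) (Fin N) ℝ) (n : ℤ) (x y : O) :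
    bl e A (n • x) y = n * bl e A x y := by
  unfold bl
  rw [co_zsmul, smul_dotProduct, smul_eq_mul]

theorem bl_zsmul_right (A : Matrix (Fin N) (Fin N) ℝ) (n : ℤ) (x y : O) :
    bl e A x (n • y) = n * bl e A x y := by
  unfold bl
  rw [co_zsmul, mulVec_smul, dotProduct_smul, smul_eq_mul]

theorem sq_zsmul (A : Matrix (Fin N) (Fin N) ℝ) (n : ℤ) (x : O) :
    sq e A (n • x) = (n : ℝ) ^ 2 * sq e A x := by
  unfold sq
  rw [bl_zsmul_left, bl_zsmul_right]
  ring

theorem sq_zero (A : Matrix (Fin N) (Fin N) ℝ) : sq e A 0 = 0 := by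
  unfold sq bl
  rw [co_zero, zero_dotProduct]

theorem sq_pos {A : Matrix (Fin N) (Fin N) ℝ} (hA : A.PosDef) {x : O} (hx : x ≠ 0) :
    0 < sq e A x := by
  have h : co e x ≠ 0 := fun h => hx (co_inj e (h.trans (co_zero e).symm))
  have := hA.dotProduct_mulVec_pos h
  simpa [sq, bl] using this

theorem sq_nonneg {A : Matrix (Fin N) (Fin N) ℝ} (hA : A.PosDef) (x : O) : 0 ≤ sq e A x := by
  by_cases hx : x = 0
  · rw [hx, sq_zero]
  · exact (sq_pos e hA hx).le

/-! ### Ring automorphisms -/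

/-- The matrix of a ring automorphism. -/
noncomputable def mt (g : O ≃+* O) : Matrix (Fin N) (Fin N) ℝ :=
  Matrix.of fun i j => ((e.repr (g (e j)) i : ℤ) : ℝ)

theorem co_map (g : O ≃+* O) (x : O) : co e (g x) = mt e g *ᵥ co e x := by
  have h1 : g x = ∑ j, e.repr x j • g (e j) := by
    conv_lhs => rw [← e.sum_repr x]
    rw [map_sum]
    exact Finset.sum_congr rfl fun j _ => map_zsmul g _ _
  funext i
  have h2 : (mt e g *ᵥ co e x) i =
      ∑ j, ((e.repr (g (e j)) i : ℤ) : ℝ) * ((e.repr x j : ℤ) : ℝ) := rfl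
  rw [h2]
  unfold co
  rw [h1, map_sum, Finsupp.finsetSum_apply, Int.cast_sum]
  refine Finset.sum_congr rfl fun j _ => ?_
  rw [map_smul, Finsupp.smul_apply, smul_eq_mul, Int.cast_mul, mul_comm]

theorem mt_mul (g h : O ≃+* O) : mt e (g * h) = mt e g * mt e h := by
  ext i j
  have h1 : co e ((g * h) (e j)) = mt e g *ᵥ co e (h (e j)) := co_map e g (h (e j))
  exact congrFun h1 i

theorem mt_one : mt e (1 : O ≃+* O) = 1 := by
  ext i j
  unfold mt
  rw [Matrix.of_apply, RingAut.one_apply, e.repr_self, Finsupp.single_apply, Matrix.one_apply]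
  by_cases h : i = j
  · rw [if_pos h.symm, if_pos h, Int.cast_one]
  · rw [if_neg (Ne.symm h), if_neg h, Int.cast_zero]

/-- The action of the ring automorphisms on the matrices: `(g A)(g x, g y) = A(x, y)`. -/
noncomputable def act (g : O ≃+* O) (A : Matrix (Fin N) (Fin N) ℝ) : Matrix (Fin N) (Fin N) ℝ :=
  (mt e g⁻¹)ᵀ * A * mt e g⁻¹

theorem act_one (A : Matrix (Fin N) (Fin N) ℝ) : act e 1 A = A := by
  unfold act
  rw [inv_one, mt_one, transpose_one, Matrix.one_mul, Matrix.mul_one]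

theorem act_mul (g h : O ≃+* O) (A : Matrix (Fin N) (Fin N) ℝ) :
    act e (g * h) A = act e g (act e h A) := by
  unfold act
  rw [_root_.mul_inv_rev, mt_mul, transpose_mul]
  simp only [Matrix.mul_assoc]

theorem bl_act (g : O ≃+* O) (A : Matrix (Fin N) (Fin N) ℝ) (x y : O) :
    bl e (act e g A) (g x) (g y) = bl e A x y := by
  have h1 : ∀ z : O, mt e g⁻¹ *ᵥ co e (g z) = co e z := by
    intro z
    rw [← co_map]
    congr 1
    exact RingEquiv.symm_apply_apply g z
  have h2 : ∀ (M A : Matrix (Fin N) (Fin N) ℝ) (u v : Fin N → ℝ),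
      u ⬝ᵥ ((Mᵀ * A * M) *ᵥ v) = (M *ᵥ u) ⬝ᵥ (A *ᵥ (M *ᵥ v)) := by
    intro M A u v
    rw [← mulVec_mulVec, ← mulVec_mulVec, mulVec_transpose, dotProduct_comm, ← dotProduct_mulVec,
      dotProduct_comm]
  unfold bl act
  rw [h2, h1, h1]

theorem sq_act (g : O ≃+* O) (A : Matrix (Fin N) (Fin N) ℝ) (x : O) :
    sq e (act e g A) (g x) = sq e A x := bl_act e g A x x

theorem det_mt_sq (g : O ≃+* O) : (mt e g).det ^ 2 = 1 := by
  have h : ∀ g : O ≃+* O, ∃ n : ℤ, (mt e g).det = n := by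
    intro g
    refine ⟨(Matrix.of fun i j => e.repr (g (e j)) i : Matrix (Fin N) (Fin N) ℤ).det, ?_⟩
    have h1 : mt e g = (Matrix.of fun i j => e.repr (g (e j)) i :
        Matrix (Fin N) (Fin N) ℤ).map (Int.castRingHom ℝ) := rfl
    rw [h1, ← RingHom.mapMatrix_apply, ← RingHom.map_det]
    rfl
  obtain ⟨n, hn⟩ := h g
  obtain ⟨m, hm⟩ := h g⁻¹
  have h1 : (mt e g).det * (mt e g⁻¹).det = 1 := by
    rw [← det_mul, ← mt_mul, mul_inv_cancel, mt_one, det_one]
  rw [hn, hm] at h1
  have h2 : n * m = 1 := by exact_mod_cast h1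
  have h3 : n = 1 ∨ n = -1 := Int.isUnit_iff.1 (IsUnit.of_mul_eq_one m h2)
  rw [hn]
  rcases h3 with h | h <;> rw [h] <;> norm_num

theorem act_posDef (g : O ≃+* O) {A : Matrix (Fin N) (Fin N) ℝ} (hA : A.PosDef) :
    (act e g A).PosDef := by
  have h1 : Function.Injective (mt e g⁻¹).mulVec := by
    intro u v huv
    have h2 : mt e g *ᵥ (mt e g⁻¹ *ᵥ u) = mt e g *ᵥ (mt e g⁻¹ *ᵥ v) := by
      exact congrArg (fun w => mt e g *ᵥ w) huv
    rw [mulVec_mulVec, mulVec_mulVec, ← mt_mul, mul_inv_cancel, mt_one, one_mulVec,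
      one_mulVec] at h2
    exact h2
  have h2 := hA.conjTranspose_mul_mul_same (B := mt e g⁻¹) h1
  have h3 : (mt e g⁻¹)ᴴ = (mt e g⁻¹)ᵀ := by
    ext i j
    rw [conjTranspose_apply, transpose_apply, star_trivial]
  rw [h3] at h2
  exact h2

/-! ### Saturated subgroups -/

/-- The saturation of the span. -/
def satu (S : Set O) : Submodule ℤ O where
  carrier := {x | ∃ n : ℤ, n ≠ 0 ∧ n • x ∈ Submodule.span ℤ S}
  zero_mem' := ⟨1, one_ne_zero, by rw [smul_zero]; exact Submodule.zero_mem _⟩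
  add_mem' := by
    rintro x y ⟨n, hn, hx⟩ ⟨m, hm, hy⟩
    refine ⟨n * m, mul_ne_zero hn hm, ?_⟩
    rw [smul_add]
    refine Submodule.add_mem _ ?_ ?_
    · rw [mul_comm, mul_smul]
      exact Submodule.smul_mem _ _ hx
    · rw [mul_smul]
      exact Submodule.smul_mem _ _ hy
  smul_mem' := by
    rintro c x ⟨n, hn, hx⟩
    refine ⟨n, hn, ?_⟩
    rw [smul_comm]
    exact Submodule.smul_mem _ _ hx

theorem mem_satu {S : Set O} {x : O} :
    x ∈ satu S ↔ ∃ n : ℤ, n ≠ 0 ∧ n • x ∈ Submodule.span ℤ S := Iff.rfl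

theorem subset_satu (S : Set O) : S ⊆ satu S := fun x hx =>
  ⟨1, one_ne_zero, by rw [one_smul]; exact Submodule.subset_span hx⟩

theorem satu_mono {S T : Set O} (h : S ⊆ T) : satu S ≤ satu T := by
  rintro x ⟨n, hn, hx⟩
  exact ⟨n, hn, Submodule.span_mono h hx⟩

/-- `W` is saturated. -/
def Sat (W : Submodule ℤ O) : Prop := ∀ (n : ℤ) (x : O), n ≠ 0 → n • x ∈ W → x ∈ W

theorem sat_satu (S : Set O) : Sat (satu S) := by
  rintro n x hn ⟨m, hm, h⟩
  refine ⟨m * n, mul_ne_zero hm hn, ?_⟩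
  rw [mul_smul]
  exact h

theorem satu_le {S : Set O} {W : Submodule ℤ O} (hW : Sat W) (h : S ⊆ W) : satu S ≤ W := by
  rintro x ⟨n, hn, hx⟩
  exact hW n x hn (Submodule.span_le.2 h hx)

/-- The index set at infinity: saturated subgroups, neither zero nor everything. -/
structure Ix (W : Submodule ℤ O) : Prop where
  sat : Sat W
  ne_bot : W ≠ ⊥
  ne_top : W ≠ ⊤

/-- The image of `W` under a ring automorphism. -/
def mp (g : O ≃+* O) (W : Submodule ℤ O) : Submodule ℤ O :=
  W.map g.toAddEquiv.toAddMonoidHom.toIntLinearMap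

theorem map_mem_mp {g : O ≃+* O} {W : Submodule ℤ O} {x : O} : g x ∈ mp g W ↔ x ∈ W := by
  constructor
  · rintro ⟨y, hy, h⟩
    have h1 : y = x := g.injective h
    rw [← h1]
    exact hy
  · intro hx
    exact ⟨x, hx, rfl⟩

theorem mem_mp {g : O ≃+* O} {W : Submodule ℤ O} {x : O} : x ∈ mp g W ↔ g.symm x ∈ W := by
  conv_lhs => rw [← g.apply_symm_apply x]
  exact map_mem_mp

theorem mp_one (W : Submodule ℤ O) : mp (1 : O ≃+* O) W = W := by
  ext x
  exact mem_mp

theorem mp_mul (g h : O ≃+* O) (W : Submodule ℤ O) : mp (g * h) W = mp g (mp h W) := by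
  ext x
  rw [mem_mp, mem_mp, mem_mp]
  rfl

theorem Ix.mp {W : Submodule ℤ O} (h : Ix W) (g : O ≃+* O) : Ix (mp g W) where
  sat := by
    intro n x hn hx
    rw [mem_mp] at hx ⊢
    refine h.sat n _ hn ?_
    rwa [← map_zsmul g.symm n x]
  ne_bot := by
    intro h1
    apply h.ne_bot
    rw [eq_bot_iff]
    intro x hx
    have h2 : g x ∈ ZR.mp g W := map_mem_mp.2 hx
    rw [h1, Submodule.mem_bot] at h2
    rw [Submodule.mem_bot]
    exact g.injective (h2.trans (map_zero g).symm)
  ne_top := by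
    intro h1
    apply h.ne_top
    rw [eq_top_iff]
    intro x _
    have h2 : g x ∈ ZR.mp g W := by rw [h1]; exact Submodule.mem_top
    exact map_mem_mp.1 h2

/-- The saturation of the right ideal generated by `W`. -/
def idl (W : Submodule ℤ O) : Submodule ℤ O := satu ((W * ⊤ : Submodule ℤ O) : Set O)

/-- The elements of `W` of square norm at most `r` span `W` up to saturation. -/
def Spn (A : Matrix (Fin N) (Fin N) ℝ) (W : Submodule ℤ O) (r : ℝ) : Prop :=
  W ≤ satu {x | x ∈ W ∧ sq e A x ≤ r}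

/-- The smallest `r` such that the elements of `W` of square norm `≤ r` span `W`. -/
noncomputable def lev (A : Matrix (Fin N) (Fin N) ℝ) (W : Submodule ℤ O) : ℝ :=
  sInf {r : ℝ | Spn e A W r}

/-- The smallest square norm of an element outside of `W`. -/
noncomputable def out (A : Matrix (Fin N) (Fin N) ℝ) (W : Submodule ℤ O) : ℝ :=
  sInf (sq e A '' {x : O | x ∉ W})

/-- The height at infinity. -/
noncomputable def hh (A : Matrix (Fin N) (Fin N) ℝ) (W : Submodule ℤ O) : ℝ :=
  min (Real.log (out e A W)) 0 - Real.log (lev e A W)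

/-! ### The space -/

/-- The properties of the space `Y` which are needed. -/
structure IsY (Y : Set (Matrix (Fin N) (Fin N) ℝ)) (D : ℝ) : Prop where
  pos : ∀ A ∈ Y, A.PosDef
  mul : ∀ A ∈ Y, ∀ x y : O, sq e A (x * y) ≤ sq e A x * sq e A y
  det : ∀ A ∈ Y, A.det = D
  closed : ∀ A, A.PosDef → A ∈ closure Y → A ∈ Y
  act : ∀ A ∈ Y, ∀ g : O ≃+* O, act e g A ∈ Y

end Pool.Agent.ZR
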