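import Pool.Agent.Lib.MP_8f66f0_al_ZR.Dict
import Pool.Agent.Lib.MP_8f66f0_al_ZR.Low

/-!
# PROJECT ZERO: the topology of the space of positive involutions

For the Thompson metric, compact sets of matrices are compact sets of involutions.
-/

set_option autoImplicit false

namespace Pool.Agent.ZR

open Matrix Module Pool.Agent.ZA Filter Topology
open scoped TensorProduct

variable {O : Type} [Ring O] {N : ℕ} (e : Basis (Fin N) ℤ O)

theorem form_small (B : Matrix (Fin N) (Fin N) ℝ) (δ : ℝ) (h : ∀ i j, |B i j| ≤ δ)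
    (v : Fin N → ℝ) : |v ⬝ᵥ (B *ᵥ v)| ≤ δ * N * ∑ i, v i ^ 2 := by
  by_cases hN : Nonempty (Fin N)
  swap
  · have : IsEmpty (Fin N) := not_nonempty_iff.1 hN
    simp [dotProduct]
  obtain ⟨i0⟩ := hN
  have hδ : 0 ≤ δ := (abs_nonneg _).trans (h i0 i0)
  have h1 : v ⬝ᵥ (B *ᵥ v) = ∑ i, ∑ j, v i * (B i j * v j) := by
    unfold dotProduct mulVec dotProduct
    exact Finset.sum_congr rfl fun i _ => Finset.mul_sum _ _ _
  rw [h1]
  have h2 : ∀ i j, |v i * (B i j * v j)| ≤ δ * ((v i ^ 2 + v j ^ 2) / 2) := by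
    intro i j
    rw [abs_mul, abs_mul]
    have h3 : |v i| * (|B i j| * |v j|) ≤ |v i| * (δ * |v j|) := by
      gcongr
      exact h i j
    have h4 : |v i| * |v j| ≤ (v i ^ 2 + v j ^ 2) / 2 := by
      rw [← sq_abs (v i), ← sq_abs (v j)]
      nlinarith [_root_.sq_nonneg (|v i| - |v j|)]
    calc |v i| * (|B i j| * |v j|) ≤ δ * (|v i| * |v j|) := by linarith
      _ ≤ _ := mul_le_mul_of_nonneg_left h4 hδ
  calc |∑ i, ∑ j, v i * (B i j * v j)| ≤ ∑ i, ∑ j, |v i * (B i j * v j)| := by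
        refine (Finset.abs_sum_le_sum_abs _ _).trans (Finset.sum_le_sum fun i _ => ?_)
        exact Finset.abs_sum_le_sum_abs _ _
    _ ≤ ∑ i : Fin N, ∑ j : Fin N, δ * ((v i ^ 2 + v j ^ 2) / 2) :=
        Finset.sum_le_sum fun i _ => Finset.sum_le_sum fun j _ => h2 i j
    _ = δ * N * ∑ i, v i ^ 2 := by
        have h5 : ∀ i : Fin N, ∑ j : Fin N, δ * ((v i ^ 2 + v j ^ 2) / 2) =
            δ / 2 * (N * v i ^ 2) + δ / 2 * ∑ j, v j ^ 2 := by
          intro i
          rw [← Finset.mul_sum, Finset.mul_sum (f := fun j => v j ^ 2), ← Finset.sum_div,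
            Finset.sum_add_distrib]
          rw [Finset.sum_const, Finset.card_univ, Fintype.card_fin, nsmul_eq_mul,
            ← Finset.mul_sum]
          ring
        rw [Finset.sum_congr rfl fun i _ => h5 i, Finset.sum_add_distrib, Finset.sum_const,
          Finset.card_univ, Fintype.card_fin, nsmul_eq_mul, ← Finset.mul_sum, ← Finset.mul_sum]
        ring

/-- Involutions with almost the same matrix are close. -/
theorem dist_small [MetricSpace (PI O)] (hT : IsTh O) (σ : PI O) (ε : ℝ) (hε : 0 < ε) :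
    ∃ δ : ℝ, 0 < δ ∧ ∀ τ : PI O, (∀ i j, |mx e τ i j - mx e σ i j| ≤ δ) → dist τ σ ≤ ε := by
  obtain ⟨c, hc, hlow⟩ := tLow N (mx e σ) (mx_posDef e σ)
  have h1 : 0 < Real.exp ε - 1 := by
    have := Real.add_one_lt_exp hε.ne'
    linarith
  have h2 : 0 < 1 - Real.exp (-ε) := by
    have := Real.exp_lt_one_iff.2 (show -ε < 0 by linarith)
    linarith
  set κ := min (Real.exp ε - 1) (1 - Real.exp (-ε)) with hκ
  have hκ0 : 0 < κ := lt_min h1 h2
  refine ⟨κ * c / (N + 1), by positivity, ?_⟩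
  intro τ h
  rw [dist_comm, dist_le_iff e hT σ τ hε.le]
  have h3 : ∀ v : Fin N → ℝ, |v ⬝ᵥ (mx e τ *ᵥ v) - v ⬝ᵥ (mx e σ *ᵥ v)| ≤
      κ * (v ⬝ᵥ (mx e σ *ᵥ v)) := by
    intro v
    have h4 := form_small (mx e τ - mx e σ) (κ * c / (N + 1)) (fun i j => h i j) v
    rw [sub_mulVec, dotProduct_sub] at h4
    refine h4.trans ?_
    have h5 : κ * c / (N + 1) * N ≤ κ * c := by
      rw [div_mul_eq_mul_div, div_le_iff₀ (by positivity)]
      have : (0 : ℝ) ≤ κ * c := by positivity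
      nlinarith
    have h6 : 0 ≤ ∑ i, v i ^ 2 := Finset.sum_nonneg fun i _ => _root_.sq_nonneg _
    calc κ * c / (N + 1) * N * ∑ i, v i ^ 2 ≤ κ * c * ∑ i, v i ^ 2 :=
          mul_le_mul_of_nonneg_right h5 h6
      _ = κ * (c * ∑ i, v i ^ 2) := by ring
      _ ≤ _ := mul_le_mul_of_nonneg_left (hlow v) hκ0.le
  have h0 : ∀ v : Fin N → ℝ, 0 ≤ v ⬝ᵥ (mx e σ *ᵥ v) := by
    intro v
    refine le_trans ?_ (hlow v)
    have : 0 ≤ ∑ i, v i ^ 2 := Finset.sum_nonneg fun i _ => _root_.sq_nonneg _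
    positivity
  constructor
  · intro v
    have h4 := (abs_le.1 (h3 v)).2
    have h5 := mul_le_mul_of_nonneg_right (min_le_left (Real.exp ε - 1) (1 - Real.exp (-ε)))
      (h0 v)
    rw [← hκ] at h5
    linarith
  · intro v
    have h4 := (abs_le.1 (h3 v)).1
    have h5 := mul_le_mul_of_nonneg_right (min_le_right (Real.exp ε - 1) (1 - Real.exp (-ε)))
      (h0 v)
    rw [← hκ] at h5
    have h6 : Real.exp (-ε) * (v ⬝ᵥ (mx e σ *ᵥ v)) ≤ v ⬝ᵥ (mx e τ *ᵥ v) := by linarith
    have h7 := mul_le_mul_of_nonneg_left h6 (Real.exp_pos ε).le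
    rwa [← mul_assoc, ← Real.exp_add, add_neg_cancel, Real.exp_zero, one_mul] at h7

/-- Compact sets of matrices are compact sets of involutions. -/
theorem compact_pre [MetricSpace (PI O)] (hT : IsTh O) {C : Set (Matrix (Fin N) (Fin N) ℝ)}
    (hC : IsCompact C) (hCY : C ⊆ YO e) : IsCompact {σ : PI O | mx e σ ∈ C} := by
  classical
  rcases isEmpty_or_nonempty (PI O) with hE | hE
  · rw [Set.eq_empty_of_isEmpty {σ : PI O | mx e σ ∈ C}]
    exact isCompact_empty
  obtain ⟨σ₀⟩ := hE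
  let f : Matrix (Fin N) (Fin N) ℝ → PI O := fun A =>
    if h : A ∈ YO e then (mx_surj e h).choose else σ₀
  have hf : ∀ A ∈ YO e, mx e (f A) = A := by
    intro A h
    have h1 : f A = (mx_surj e h).choose := dif_pos h
    rw [h1]
    exact (mx_surj e h).choose_spec
  have h1 : {σ : PI O | mx e σ ∈ C} = f '' C := by
    ext σ
    constructor
    · intro h
      exact ⟨mx e σ, h, mx_inj e (hf _ (mx_mem e σ))⟩
    · rintro ⟨A, hA, rfl⟩
      change mx e (f A) ∈ C
      rw [hf A (hCY hA)]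
      exact hA
  rw [h1]
  refine hC.image_of_continuousOn ?_
  rw [Metric.continuousOn_iff']
  intro A hA ε hε
  obtain ⟨δ, hδ, h2⟩ := dist_small e hT (f A) (ε / 2) (by linarith)
  have h3 : ∀ᶠ B in 𝓝 A, ∀ i j, |B i j - A i j| ≤ δ := by
    rw [eventually_all]
    intro i
    rw [eventually_all]
    intro j
    have h4 : Continuous fun B : Matrix (Fin N) (Fin N) ℝ => |B i j - A i j| := by
      have : Continuous fun B : Matrix (Fin N) (Fin N) ℝ => B i j := by fun_prop
      fun_prop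
    have h5 := h4.tendsto A
    simp only [sub_self, abs_zero] at h5
    exact (h5.eventually_lt_const hδ).mono fun B hB => hB.le
  filter_upwards [nhdsWithin_le_nhds h3, self_mem_nhdsWithin] with B hB hBC
  refine lt_of_le_of_lt (h2 (f B) ?_) (by linarith)
  intro i j
  rw [hf B (hCY hBC), hf A (hCY hA)]
  exact hB i j

end Pool.Agent.ZR
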