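import Pool.Agent.Lib.MP_8f66f0_al_ZR.Spec

set_option autoImplicit false

namespace Pool.Agent.ZR

open Matrix Module

namespace ROutAux

/-- A positive height gives a number `r < 1` which separates. -/
theorem sep (h1 : S_Lev) {O : Type} [Ring O] {N : ℕ} (e : Basis (Fin N) ℤ O)
    {A : Matrix (Fin N) (Fin N) ℝ} (hA : A.PosDef) {W : Submodule ℤ O} (hW : Ix W)
    (hp : 0 < hh e A W) :
    ∃ r : ℝ, 0 < r ∧ r < 1 ∧ Spn e A W r ∧ ∀ x : O, x ∉ W → r < sq e A x := by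
  obtain ⟨r, hr, hs, hl, hx⟩ := (h1 O N e A hA W hW).1 0 hp
  rw [Real.exp_zero, one_mul] at hl
  refine ⟨r, hr, hl, hs, ?_⟩
  intro x hxW
  have h2 := hx x hxW
  rw [Real.exp_zero, one_mul] at h2
  exact h2

end ROutAux

theorem rOut (h1 : S_Lev) (h2 : S_Chain) (h3 : S_Lip) (h4 : S_Eqv) (h5 : S_Nil) (h6 : S_Exi)
    (h7 : S_Idl) (h8 : S_Coc) (h9 : S_Prp) : S_ROut := by
  intro O _ _ N e Y D hD hY
  refine
    { lip := ?_, eqv := ?_, chain := ?_, fin := ?_, card := ?_, same := ?_, ideal := ?_,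
      coc := ?_, prp := ?_ }
  · intro A hA A' hA' s s' hs hs' ha hb W hW
    have k1 := h3 O N e A A' (hY.pos A hA) (hY.pos A' hA') s s' hs hs' ha hb W hW
    have k2 := h3 O N e A' A (hY.pos A' hA') (hY.pos A hA) s' s hs' hs hb ha W hW
    rw [abs_le]
    constructor
    · linarith
    · linarith
  · intro g A W
    exact h4 O N e A g W
  · intro A hA
    exact (h2 O N e A (hY.pos A hA)).1
  · intro A hA
    exact (h2 O N e A (hY.pos A hA)).2.1
  · intro A hA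
    exact (h2 O N e A (hY.pos A hA)).2.2.1
  · intro A hA
    exact (h2 O N e A (hY.pos A hA)).2.2.2
  · intro A hA W hW hp
    obtain ⟨r, hr, hr1, hs, hx⟩ := ROutAux.sep h1 e (hY.pos A hA) hW hp
    obtain ⟨hk, hm⟩ := h5 O N e A (hY.pos A hA) (hY.mul A hA) W r hW.sat hr hr1 hs
    obtain ⟨i1, i2, i3⟩ := h7 O N e W hW.ne_bot hk
    exact ⟨hm hx, hk, i1, i2, i3⟩
  · intro K hK
    obtain ⟨C, hC, hc, h⟩ := h8 O N e Y D hD hY (Real.exp (-(N * K))) (Real.exp_pos _)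
    refine ⟨C, hC, hc, ?_⟩
    intro A hA hlt
    refine h A hA ?_
    intro x hx
    by_contra hcon
    obtain ⟨W, hW, hKW⟩ := h6 O N e A (hY.pos A hA) (hY.mul A hA) K hK x hx (not_le.1 hcon)
    exact absurd hKW (not_le.2 (hlt W hW))
  · intro C hC hCY
    exact h9 O N e C hC fun A hA => hY.pos A (hCY hA)

end Pool.Agent.ZR
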